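import Mathlib

set_option autoImplicit false

/-!
# The Cohen poset and truth values

Finite functions from a subset of `K × ℕ` to `2`, and basic operations on sets of conditions.
-/

open Set

namespace Pool.Agent.helper60

/-- The Cohen poset `Fn(K × ω, 2)`: finite (partially defined) functions from `K × ℕ` to `Bool`.
A value `none` means that the function is undefined at that point. -/
structure Cohen (K : Type) where
  /-- the underlying function -/
  fn : K × ℕ → Option Bool
  /-- the domain is finite -/
  fin : {x | fn x ≠ none}.Finite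

namespace Cohen

variable {K : Type}

theorem ext' {p q : Cohen K} (h : ∀ x, p.fn x = q.fn x) : p = q := by
  cases p; cases q
  congr
  exact funext h

/-- `q ≤ p` (`q` is stronger) iff `q` extends `p` as a function. -/
instance : PartialOrder (Cohen K) where
  le q p := ∀ x b, p.fn x = some b → q.fn x = some b
  le_refl _ := fun _ _ h => h
  le_trans _ _ _ h1 h2 := fun x b h => h1 x b (h2 x b h)
  le_antisymm p q h1 h2 := by
    refine ext' fun x => ?_
    cases hp : p.fn x with
    | some b => exact (h2 x b hp).symm
    | none =>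
      cases hq : q.fn x with
      | some b => rw [h1 x b hq] at hp; exact absurd hp (by simp)
      | none => rfl

theorem le_def {p q : Cohen K} : q ≤ p ↔ ∀ x b, p.fn x = some b → q.fn x = some b := Iff.rfl

/-- The weakest condition is the empty function. -/
instance : OrderTop (Cohen K) where
  top := ⟨fun _ => none, by simp⟩
  le_top _ := fun _ _ h => absurd h (by simp)

/-- Take `q` on the coordinates in `S` and `p` elsewhere. -/
noncomputable def glue (S : Set K) (p q : Cohen K) : Cohen K := by
  classical
  exact
  { fn := fun x => if x.1 ∈ S then q.fn x else p.fn x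
    fin := by
      refine (p.fin.union q.fin).subset ?_
      intro x hx
      simp only [ne_eq, mem_ofPred_eq] at hx
      by_cases h : x.1 ∈ S
      · rw [if_pos h] at hx; exact Or.inr hx
      · rw [if_neg h] at hx; exact Or.inl hx }

theorem glue_mem {S : Set K} {p q : Cohen K} {x : K × ℕ} (h : x.1 ∈ S) :
    (glue S p q).fn x = q.fn x := by
  simp [glue, h]

theorem glue_not_mem {S : Set K} {p q : Cohen K} {x : K × ℕ} (h : x.1 ∉ S) :
    (glue S p q).fn x = p.fn x := by
  simp [glue, h]

/-- `p` and `q` agree on the coordinates in `S`. -/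
def Agree (S : Set K) (p q : Cohen K) : Prop := ∀ x : K × ℕ, x.1 ∈ S → p.fn x = q.fn x

theorem Agree.symm {S : Set K} {p q : Cohen K} (h : Agree S p q) : Agree S q p :=
  fun x hx => (h x hx).symm

theorem Agree.trans {S : Set K} {p q r : Cohen K} (h : Agree S p q) (h' : Agree S q r) :
    Agree S p r := fun x hx => (h x hx).trans (h' x hx)

theorem Agree.mono {S T : Set K} {p q : Cohen K} (hST : S ⊆ T) (h : Agree T p q) : Agree S p q :=
  fun x hx => h x (hST hx)

theorem glue_agree (S : Set K) (p q : Cohen K) : Agree S (glue S p q) q :=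
  fun _ hx => glue_mem hx

theorem glue_agree_compl (S : Set K) (p q : Cohen K) : Agree Sᶜ (glue S p q) p :=
  fun _ hx => glue_not_mem hx

/-- If `q` extends `p'`, which agrees with `p` on `S`, then `glue S p q` extends `p`. -/
theorem glue_le {S : Set K} {p p' q : Cohen K} (h : Agree S p p') (hq : q ≤ p') :
    glue S p q ≤ p := by
  intro x b hb
  by_cases hx : x.1 ∈ S
  · rw [glue_mem hx]
    exact hq x b (by rw [← h x hx]; exact hb)
  · rw [glue_not_mem hx]
    exact hb

/-- Fill in `false` at the undefined places `(α, j)` with `j < L`. -/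
noncomputable def fill (p : Cohen K) (α : K) (L : ℕ) : Cohen K := by
  classical
  exact
  { fn := fun x => if p.fn x = none ∧ x.1 = α ∧ x.2 < L then some false else p.fn x
    fin := by
      refine (p.fin.union ((Set.finite_Iio L).image (fun j => (α, j)))).subset ?_
      intro x hx
      simp only [ne_eq, mem_ofPred_eq] at hx
      by_cases h : p.fn x = none ∧ x.1 = α ∧ x.2 < L
      · exact Or.inr ⟨x.2, h.2.2, by rw [← h.2.1]⟩
      · rw [if_neg h] at hx; exact Or.inl hx }

theorem fill_le (p : Cohen K) (α : K) (L : ℕ) : fill p α L ≤ p := by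
  intro x b hb
  simp [fill, hb]

theorem fill_agree (p : Cohen K) (α : K) (L : ℕ) : Agree {α}ᶜ (fill p α L) p := by
  intro x hx
  have : x.1 ≠ α := hx
  simp [fill, this]

theorem fill_ne_none (p : Cohen K) (α : K) (L j : ℕ) (hj : j < L) :
    (fill p α L).fn (α, j) ≠ none := by
  by_cases h : p.fn (α, j) = none
  · simp [fill, h, hj]
  · simp [fill, h]

theorem fill_of_ge (p : Cohen K) (α : K) (L j : ℕ) (hj : L ≤ j) :
    (fill p α L).fn (α, j) = p.fn (α, j) := by
  simp [fill, not_lt.2 hj]

theorem fill_of_none (p : Cohen K) (α : K) (L j : ℕ) (hj : j < L) (h : p.fn (α, j) = none) :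
    (fill p α L).fn (α, j) = some false := by
  simp [fill, h, hj]

/-- Set the value at `(α, m)` to `b`. -/
noncomputable def upd (p : Cohen K) (α : K) (m : ℕ) (b : Bool) : Cohen K := by
  classical
  exact
  { fn := fun x => if x = (α, m) then some b else p.fn x
    fin := by
      refine (p.fin.union (Set.finite_singleton (α, m))).subset ?_
      intro x hx
      by_cases h : x = (α, m)
      · exact Or.inr h
      · simp only [ne_eq, mem_ofPred_eq, if_neg h] at hx
        exact Or.inl hx }

theorem upd_self (p : Cohen K) (α : K) (m : ℕ) (b : Bool) :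
    (upd p α m b).fn (α, m) = some b := by
  simp [upd]

theorem upd_ne (p : Cohen K) (α : K) (m : ℕ) (b : Bool) {x : K × ℕ} (h : x ≠ (α, m)) :
    (upd p α m b).fn x = p.fn x := by
  simp [upd, h]

theorem upd_le (p : Cohen K) (α : K) (m : ℕ) (b : Bool) (h : p.fn (α, m) = none) :
    upd p α m b ≤ p := by
  intro x b' hb'
  by_cases hx : x = (α, m)
  · rw [hx, h] at hb'; exact absurd hb' (by simp)
  · rw [upd_ne p α m b hx]; exact hb'

theorem upd_agree (p : Cohen K) (α : K) (m : ℕ) (b : Bool) : Agree {α}ᶜ (upd p α m b) p := by
  intro x hx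
  refine upd_ne p α m b ?_
  rintro rfl
  exact hx rfl

/-- A bound for the domain of `p` at the coordinate `α`. -/
theorem exists_bound (p : Cohen K) (α : K) : ∃ L, ∀ j, L ≤ j → p.fn (α, j) = none := by
  have h : {j | p.fn (α, j) ≠ none}.Finite := by
    refine Set.Finite.of_finite_image (f := fun j => (α, j)) (p.fin.subset ?_) ?_
    · rintro _ ⟨j, hj, rfl⟩
      exact hj
    · intro a _ b _ hab
      exact (Prod.mk.inj hab).2
  obtain ⟨L, hL⟩ := h.bddAbove
  refine ⟨L + 1, fun j hj => ?_⟩
  by_contra hcon
  have := hL hcon
  omega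

end Cohen

end Pool.Agent.helper60
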