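import Mathlib
import Pool.Agent.helper60.CohenPoset

set_option autoImplicit false

/-!
# Truth values of a forcing poset, and the countable chain condition for the Cohen poset
-/

open Set

namespace Pool.Agent.helper60

section TV

variable {P : Type} [Preorder P]

/-- A regular set of conditions: closed under strengthening, and containing every condition below
which it is dense. -/
structure Reg (u : P → Prop) : Prop where
  mono : ∀ {p q : P}, q ≤ p → u p → u q
  dense : ∀ {p : P}, (∀ q ≤ p, ∃ r ≤ q, u r) → u p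

/-- Implication of truth values. -/
def imp (u v : P → Prop) : P → Prop := fun p => ∀ q ≤ p, u q → v q

/-- Negation of truth values. -/
def neg (u : P → Prop) : P → Prop := fun p => ∀ q ≤ p, ¬ u q

/-- Existential quantification of truth values. -/
def exi {ι : Sort*} (u : ι → P → Prop) : P → Prop := fun p => ∀ q ≤ p, ∃ r ≤ q, ∃ i, u i r

/-- The truth value of: `W` is an infinite set of natural numbers. -/
def infi (W : ℕ → P → Prop) : P → Prop := fun p => ∀ N, exi (fun m r => N ≤ m ∧ W m r) p

theorem Reg.const (a : Prop) : Reg (fun _ : P => a) :=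
  ⟨fun _ h => h, fun {p} h => by obtain ⟨_, _, h'⟩ := h p le_rfl; exact h'⟩

theorem Reg.and {u v : P → Prop} (hu : Reg u) (hv : Reg v) : Reg (fun p => u p ∧ v p) :=
  ⟨fun h h' => ⟨hu.mono h h'.1, hv.mono h h'.2⟩, fun h => ⟨hu.dense fun q hq => by
    obtain ⟨r, hr, h'⟩ := h q hq; exact ⟨r, hr, h'.1⟩, hv.dense fun q hq => by
    obtain ⟨r, hr, h'⟩ := h q hq; exact ⟨r, hr, h'.2⟩⟩⟩

theorem Reg.all {ι : Sort*} {u : ι → P → Prop} (hu : ∀ i, Reg (u i)) : Reg (fun p => ∀ i, u i p) :=
  ⟨fun h h' i => (hu i).mono h (h' i), fun h i => (hu i).dense fun q hq => by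
    obtain ⟨r, hr, h'⟩ := h q hq; exact ⟨r, hr, h' i⟩⟩

theorem Reg.imp {u v : P → Prop} (hu : Reg u) (hv : Reg v) : Reg (imp u v) :=
  ⟨fun h h' r hr => h' r (hr.trans h), fun {p} h q hq huq => hv.dense fun r hr => by
    obtain ⟨s, hs, h'⟩ := h r (hr.trans hq)
    exact ⟨s, hs, h' s le_rfl (hu.mono (hs.trans hr) huq)⟩⟩

theorem Reg.neg {u : P → Prop} (hu : Reg u) : Reg (neg u) :=
  ⟨fun h h' r hr => h' r (hr.trans h), fun {p} h q hq huq => by
    obtain ⟨s, hs, h'⟩ := h q hq
    exact h' s le_rfl (hu.mono hs huq)⟩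

theorem Reg.exi {ι : Sort*} {u : ι → P → Prop} : Reg (exi u) :=
  ⟨fun h h' r hr => h' r (hr.trans h), fun {p} h q hq => by
    obtain ⟨r, hr, h'⟩ := h q hq
    obtain ⟨s, hs, h''⟩ := h' r le_rfl
    exact ⟨s, hs.trans hr, h''⟩⟩

theorem Reg.infi {W : ℕ → P → Prop} : Reg (infi W) := Reg.all fun _ => Reg.exi

/-- Either some extension satisfies the negation of `u`, or `p` satisfies `u`. -/
theorem Reg.em {u : P → Prop} (hu : Reg u) (p : P) : u p ∨ ∃ q ≤ p, Pool.Agent.helper60.neg u q := by
  by_cases h : ∃ q ≤ p, Pool.Agent.helper60.neg u q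
  · exact Or.inr h
  · refine Or.inl (hu.dense fun q hq => ?_)
    by_contra hcon
    exact h ⟨q, hq, fun r hr hur => hcon ⟨r, hr, hur⟩⟩

end TV

namespace Cohen

variable {K : Type}

/-- The truth value `u` only depends on the coordinates in `S`. -/
def Supp (S : Set K) (u : Cohen K → Prop) : Prop := ∀ p q, Agree S p q → u p → u q

theorem Supp.mono {S T : Set K} (h : S ⊆ T) {u : Cohen K → Prop} (hu : Supp S u) : Supp T u :=
  fun p q hpq => hu p q (hpq.mono h)

theorem Supp.const (S : Set K) (a : Prop) : Supp S (fun _ => a) := fun _ _ _ h => h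

theorem Supp.and {S : Set K} {u v : Cohen K → Prop} (hu : Supp S u) (hv : Supp S v) :
    Supp S (fun p => u p ∧ v p) := fun p q h h' => ⟨hu p q h h'.1, hv p q h h'.2⟩

theorem Supp.all {S : Set K} {ι : Sort*} {u : ι → Cohen K → Prop} (hu : ∀ i, Supp S (u i)) :
    Supp S (fun p => ∀ i, u i p) := fun p q h h' i => hu i p q h (h' i)

theorem Supp.imp {S : Set K} {u v : Cohen K → Prop} (hu : Supp S u) (hv : Supp S v) :
    Supp S (imp u v) := by
  intro p q hpq h r hr hur
  have h1 : glue S p r ≤ p := glue_le hpq hr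
  have h2 : Agree S r (glue S p r) := (glue_agree S p r).symm
  exact hv _ _ h2.symm (h _ h1 (hu _ _ h2 hur))

theorem Supp.neg {S : Set K} {u : Cohen K → Prop} (hu : Supp S u) : Supp S (neg u) := by
  intro p q hpq h r hr hur
  exact h _ (glue_le hpq hr) (hu _ _ (glue_agree S p r).symm hur)

theorem Supp.exi {S : Set K} {ι : Sort*} {u : ι → Cohen K → Prop} (hu : ∀ i, Supp S (u i)) :
    Supp S (exi u) := by
  intro p q hpq h r hr
  obtain ⟨s, hs, i, hi⟩ := h _ (glue_le hpq hr)
  have h1 : glue S r s ≤ r := glue_le (glue_agree S p r).symm hs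
  exact ⟨_, h1, i, hu i _ _ (glue_agree S r s).symm hi⟩

theorem Supp.infi {S : Set K} {W : ℕ → Cohen K → Prop} (hW : ∀ m, Supp S (W m)) :
    Supp S (infi W) :=
  Supp.all fun N => Supp.exi fun m => (Supp.const S (N ≤ m)).and (hW m)

/-- The truth value of `c_α(m) = b`, where `c_α` is the `α`-th Cohen real. -/
def cr (α : K) (m : ℕ) (b : Bool) : Cohen K → Prop := fun p => p.fn (α, m) = some b

theorem cr_reg (α : K) (m : ℕ) (b : Bool) : Reg (cr α m b) := by
  refine ⟨fun h h' => h _ _ h', fun {p} h => ?_⟩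
  by_cases hn : p.fn (α, m) = none
  · exfalso
    obtain ⟨r, hr, h'⟩ := h (upd p α m (!b)) (upd_le p α m _ hn)
    have h1 := hr _ _ (upd_self p α m (!b))
    rw [show r.fn (α, m) = some b from h'] at h1
    cases b <;> simp at h1
  · obtain ⟨b', hb'⟩ := Option.ne_none_iff_exists'.1 hn
    obtain ⟨r, hr, h'⟩ := h p le_rfl
    have h1 := hr _ _ hb'
    rw [show r.fn (α, m) = some b from h'] at h1
    rw [← h1] at hb'
    exact hb'

theorem cr_supp (α : K) (m : ℕ) (b : Bool) : Supp {α} (cr α m b) := by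
  intro p q h h'
  have := h (α, m) rfl
  unfold cr at h' ⊢
  rw [← this]
  exact h'

/-! ## The countable chain condition -/

/-- Two conditions are compatible. -/
def Compat (p q : Cohen K) : Prop := ∃ r, r ≤ p ∧ r ≤ q

theorem Compat.symm {p q : Cohen K} (h : Compat p q) : Compat q p := by
  obtain ⟨r, h1, h2⟩ := h
  exact ⟨r, h2, h1⟩

theorem compat_of {p q : Cohen K} (h : ∀ x b b', p.fn x = some b → q.fn x = some b' → b = b') :
    Compat p q := by
  refine ⟨⟨fun x => (p.fn x).or (q.fn x), (p.fin.union q.fin).subset ?_⟩, ?_, ?_⟩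
  · intro x hx
    by_contra hcon
    simp only [mem_union, not_or, mem_ofPred_eq, ne_eq, not_not] at hcon
    apply hx
    rw [hcon.1, hcon.2]
    rfl
  · intro x b hb
    change (p.fn x).or (q.fn x) = some b
    rw [hb]
    rfl
  · intro x b hb
    change (p.fn x).or (q.fn x) = some b
    cases hp : p.fn x with
    | none => rw [hb]; rfl
    | some b' => rw [h x b' b hp hb]; rfl

/-- Remove the point `x` from the domain. -/
noncomputable def erase (p : Cohen K) (x : K × ℕ) : Cohen K := by
  classical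
  exact
  { fn := fun y => if y = x then none else p.fn y
    fin := by
      refine p.fin.subset ?_
      intro y hy
      by_cases h : y = x
      · simp [h] at hy
      · simpa [h] using hy }

theorem erase_self (p : Cohen K) (x : K × ℕ) : (erase p x).fn x = none := by simp [erase]

theorem erase_ne (p : Cohen K) {x y : K × ℕ} (h : y ≠ x) : (erase p x).fn y = p.fn y := by
  simp [erase, h]

theorem antichain_finite (n : ℕ) : ∀ 𝒜 : Set (Cohen K),
    (∀ p ∈ 𝒜, ∀ q ∈ 𝒜, Compat p q → p = q) → (∀ p ∈ 𝒜, p.fin.toFinset.card ≤ n) → 𝒜.Finite := by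
  classical
  induction n with
  | zero =>
    intro 𝒜 _ hcard
    refine (Set.finite_singleton (⊤ : Cohen K)).subset ?_
    intro p hp
    have h1 := hcard p hp
    rw [Nat.le_zero, Finset.card_eq_zero] at h1
    refine ext' fun x => ?_
    by_contra hx
    have : x ∈ p.fin.toFinset := by
      rw [Set.Finite.mem_toFinset]
      exact hx
    rw [h1] at this
    simp at this
  | succ n ih =>
    intro 𝒜 hanti hcard
    by_cases hne : 𝒜.Nonempty
    · obtain ⟨p₀, hp₀⟩ := hne
      have hsub : 𝒜 ⊆ {p₀} ∪ ⋃ x ∈ p₀.fin.toFinset,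
          {p | p ∈ 𝒜 ∧ ∃ b b', p₀.fn x = some b ∧ p.fn x = some b' ∧ b ≠ b'} := by
        intro p hp
        by_cases hpp : p = p₀
        · exact Or.inl hpp
        · right
          have hnc : ¬ Compat p₀ p := fun h => hpp (hanti p₀ hp₀ p hp h).symm
          have : ∃ x b b', p₀.fn x = some b ∧ p.fn x = some b' ∧ b ≠ b' := by
            by_contra hcon
            push Not at hcon
            exact hnc (compat_of fun x b b' h1 h2 => hcon x b b' h1 h2)
          obtain ⟨x, b, b', h1, h2, h3⟩ := this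
          rw [Set.mem_iUnion₂]
          refine ⟨x, ?_, hp, b, b', h1, h2, h3⟩
          rw [Set.Finite.mem_toFinset]
          intro hcon
          rw [hcon] at h1
          exact absurd h1 (by simp)
      refine Set.Finite.subset ?_ hsub
      refine (Set.finite_singleton p₀).union (Set.Finite.biUnion (Finset.finite_toSet _) ?_)
      intro x _
      set ℬ := {p | p ∈ 𝒜 ∧ ∃ b b', p₀.fn x = some b ∧ p.fn x = some b' ∧ b ≠ b'} with hℬ
      have hval : ∀ p ∈ ℬ, ∀ q ∈ ℬ, p.fn x = q.fn x := by
        rintro p ⟨-, b, b', h1, h2, h3⟩ q ⟨-, d, d', h4, h5, h6⟩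
        rw [h1] at h4
        have hbd : b = d := by simpa using h4
        subst hbd
        rw [h2, h5]
        congr 1
        revert h3 h6
        cases b <;> cases b' <;> cases d' <;> simp
      have hinj : Set.InjOn (fun p => erase p x) ℬ := by
        intro p hp q hq hpq
        refine ext' fun y => ?_
        by_cases hy : y = x
        · rw [hy]; exact hval p hp q hq
        · rw [← erase_ne p hy, ← erase_ne q hy]
          simp only at hpq
          rw [hpq]
      refine Set.Finite.of_finite_image ?_ hinj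
      refine ih _ ?_ ?_
      · rintro _ ⟨p, hp, rfl⟩ _ ⟨q, hq, rfl⟩ ⟨r, h1, h2⟩
        have : Compat p q := by
          refine compat_of fun y b b' h3 h4 => ?_
          by_cases hy : y = x
          · have := hval p hp q hq
            rw [hy] at h3 h4
            rw [h3, h4] at this
            simpa using this
          · have h5 := h1 y b (by rw [erase_ne p hy]; exact h3)
            have h6 := h2 y b' (by rw [erase_ne q hy]; exact h4)
            rw [h5] at h6
            simpa using h6
        simp only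
        rw [hanti p hp.1 q hq.1 this]
      · rintro _ ⟨p, hp, rfl⟩
        have h1 := hcard p hp.1
        obtain ⟨b, b', -, h2, -⟩ := hp.2
        have hxp : x ∈ p.fin.toFinset := by
          rw [Set.Finite.mem_toFinset]
          intro hcon
          rw [hcon] at h2
          exact absurd h2 (by simp)
        have hsub' : (erase p x).fin.toFinset ⊆ p.fin.toFinset.erase x := by
          intro y hy
          rw [Set.Finite.mem_toFinset] at hy
          have hyx : y ≠ x := by
            rintro rfl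
            exact hy (erase_self p y)
          rw [Finset.mem_erase, Set.Finite.mem_toFinset]
          refine ⟨hyx, ?_⟩
          intro hcon
          apply hy
          rw [erase_ne p hyx]
          exact hcon
        have h3 := Finset.card_le_card hsub'
        rw [Finset.card_erase_of_mem hxp] at h3
        simp only
        omega
    · rw [Set.not_nonempty_iff_eq_empty] at hne
      rw [hne]
      exact Set.finite_empty

/-- The Cohen poset satisfies the countable chain condition. -/
theorem antichain_countable (𝒜 : Set (Cohen K))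
    (hanti : ∀ p ∈ 𝒜, ∀ q ∈ 𝒜, Compat p q → p = q) : 𝒜.Countable := by
  have : 𝒜 = ⋃ n : ℕ, {p | p ∈ 𝒜 ∧ p.fin.toFinset.card ≤ n} := by
    ext p
    simp only [Set.mem_iUnion, Set.mem_ofPred_eq]
    exact ⟨fun h => ⟨_, h, le_rfl⟩, fun ⟨_, h, _⟩ => h⟩
  rw [this]
  refine Set.countable_iUnion fun n => ?_
  refine (antichain_finite n _ ?_ ?_).countable
  · intro p hp q hq h
    exact hanti p hp.1 q hq.1 h
  · intro p hp
    exact hp.2

/-- Each set of conditions contains a countable subset which is maximal among the antichains. -/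
theorem exists_countable_predense (U : Set (Cohen K)) :
    ∃ 𝒜 ⊆ U, 𝒜.Countable ∧ ∀ p ∈ U, ∃ a ∈ 𝒜, Compat a p := by
  obtain ⟨𝒜, hmax⟩ := zorn_subset
    {𝒜 : Set (Cohen K) | 𝒜 ⊆ U ∧ ∀ p ∈ 𝒜, ∀ q ∈ 𝒜, Compat p q → p = q} (by
      intro c hc hchain
      refine ⟨⋃₀ c, ⟨Set.sUnion_subset fun s hs => (hc hs).1, ?_⟩, fun s hs =>
        Set.subset_sUnion_of_mem hs⟩
      rintro p ⟨s, hs, hps⟩ q ⟨t, ht, hqt⟩ hcomp
      rcases hchain.total hs ht with h | h
      · exact (hc ht).2 p (h hps) q hqt hcomp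
      · exact (hc hs).2 p hps q (h hqt) hcomp)
  refine ⟨𝒜, hmax.1.1, antichain_countable 𝒜 hmax.1.2, fun p hp => ?_⟩
  by_contra hcon
  push Not at hcon
  have h1 : insert p 𝒜 ∈ {𝒜 : Set (Cohen K) | 𝒜 ⊆ U ∧ ∀ p ∈ 𝒜, ∀ q ∈ 𝒜, Compat p q → p = q} := by
    refine ⟨Set.insert_subset hp hmax.1.1, ?_⟩
    intro a ha b hb hab
    rcases ha with rfl | ha
    · rcases hb with rfl | hb
      · rfl
      · exact absurd hab.symm (hcon b hb)
    · rcases hb with rfl | hb
      · exact absurd hab (hcon a ha)
      · exact hmax.1.2 a ha b hb hab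
  have h2 := hmax.2 h1 (Set.subset_insert p 𝒜)
  exact hcon p (h2 (Set.mem_insert p 𝒜)) ⟨p, le_rfl, le_rfl⟩

/-! ## Codes for truth values -/

/-- A code for a matrix of truth values: a countable list of triples (row, column, condition). -/
abbrev Code (K : Type) : Type := ℕ → Option (ℕ × ℕ × Cohen K)

/-- The truth values coded by a code. -/
def ev (s : Code K) (m n : ℕ) : Cohen K → Prop :=
  exi (fun (i : ℕ) (r : Cohen K) => ∃ a, s i = some (m, n, a) ∧ r ≤ a)

/-- The coordinates mentioned by a code. -/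
def cs (s : Code K) : Set K := {k | ∃ i m n a j, s i = some (m, n, a) ∧ a.fn (k, j) ≠ none}

theorem ev_reg (s : Code K) (m n : ℕ) : Reg (ev s m n) := Reg.exi

theorem ev_supp (s : Code K) (m n : ℕ) : Supp (cs s) (ev s m n) := by
  refine Supp.exi fun i => ?_
  rintro p q hpq ⟨a, h1, h2⟩
  refine ⟨a, h1, fun x b hb => ?_⟩
  have hx : x.1 ∈ cs s := ⟨i, m, n, a, x.2, h1, by
    change a.fn x ≠ none
    rw [hb]; simp⟩
  rw [← hpq x hx]
  exact h2 x b hb

theorem cs_countable (s : Code K) : (cs s).Countable := by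
  have : cs s ⊆ ⋃ i : ℕ, ⋃ (t : Set K) (_ : t = {k | ∃ m n a j, s i = some (m, n, a) ∧
      a.fn (k, j) ≠ none}), t := by
    rintro k ⟨i, m, n, a, j, h1, h2⟩
    rw [Set.mem_iUnion]
    refine ⟨i, ?_⟩
    rw [Set.mem_iUnion₂]
    exact ⟨_, rfl, m, n, a, j, h1, h2⟩
  refine Set.Countable.mono this ?_
  refine Set.countable_iUnion fun i => ?_
  have h2 : (⋃ (t : Set K) (_ : t = {k | ∃ m n a j, s i = some (m, n, a) ∧
      a.fn (k, j) ≠ none}), t) = {k | ∃ m n a j, s i = some (m, n, a) ∧
      a.fn (k, j) ≠ none} := by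
    ext k; simp
  rw [h2]
  cases hs : s i with
  | none =>
    have : {k | ∃ m n a, ∃ j : ℕ, (none : Option (ℕ × ℕ × Cohen K)) = some (m, n, a) ∧
        a.fn (k, j) ≠ none} = ∅ := by
      ext k; simp
    rw [this]
    exact Set.countable_empty
  | some t =>
    obtain ⟨m, n, a⟩ := t
    refine ((a.fin.image Prod.fst).subset ?_).countable
    rintro k ⟨m', n', a', j, h1, h3⟩
    simp only [Option.some.injEq, Prod.mk.injEq] at h1
    obtain ⟨rfl, rfl, rfl⟩ := h1
    exact ⟨(k, j), h3, rfl⟩

/-- Every matrix of regular truth values has a code. -/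
theorem exists_code (W : ℕ → ℕ → Cohen K → Prop) (hW : ∀ m n, Reg (W m n)) :
    ∃ s : Code K, ∀ m n p, ev s m n p ↔ W m n p := by
  choose 𝒜 h𝒜 hc hpre using fun m n => exists_countable_predense {p | W m n p}
  let T : Set (ℕ × ℕ × Cohen K) := ⋃ m, ⋃ n, (fun a => (m, n, a)) '' 𝒜 m n
  have hT : T.Countable :=
    Set.countable_iUnion fun m => Set.countable_iUnion fun n => (hc m n).image _
  have hmemT : ∀ m n a, (m, n, a) ∈ T ↔ a ∈ 𝒜 m n := by
    intro m n a
    simp only [T, Set.mem_iUnion, Set.mem_image, Prod.mk.injEq]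
    constructor
    · rintro ⟨_, _, a', h1, rfl, rfl, rfl⟩
      exact h1
    · intro h
      exact ⟨m, n, a, h, rfl, rfl, rfl⟩
  let _ := hT.toEncodable
  refine ⟨fun i => (Encodable.decode (α := T) i).map Subtype.val, fun m n p => ?_⟩
  constructor
  · intro h
    refine (hW m n).dense fun q hq => ?_
    obtain ⟨r, hr, i, a, h1, h2⟩ := h q hq
    refine ⟨r, hr, (hW m n).mono h2 ?_⟩
    obtain ⟨t, ht, ht'⟩ := Option.map_eq_some_iff.1 h1
    have h3 : (m, n, a) ∈ T := ht' ▸ t.2
    exact h𝒜 m n ((hmemT m n a).1 h3)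
  · intro h q hq
    obtain ⟨a, ha, r, h1, h2⟩ := hpre m n q ((hW m n).mono hq h)
    refine ⟨r, h2, Encodable.encode (⟨(m, n, a), (hmemT m n a).2 ha⟩ : T), a, ?_, h1⟩
    simp only [Encodable.encodek]
    rfl

end Cohen

end Pool.Agent.helper60
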