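import Mathlib
import Pool.Agent.helper60.TruthValue

set_option autoImplicit false

/-!
# The recursive construction over the Cohen poset

By recursion along a well-ordered index set `K` we define names `S β` for sets of natural numbers
(given by their matrices of truth values), where stage `α` uses the `α`-th Cohen real.
-/

open Set

namespace Pool.Agent.helper60

open Cohen

/-- The kinds of items handled by the recursion. -/
inductive Kind
  | C
  | P
  | Q

section Core

variable {K : Type} [LinearOrder K]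

/-- Stage `β` is of the first kind (these stages enumerate the independent family). -/
def IsC (e : K → Kind × Code K) (β : K) : Prop := (e β).1 = Kind.C

/-- Legal pairs of finite sets of indices. -/
def Legal (e : K → Kind × Code K) (A B : Finset K) : Prop := Disjoint A B ∧ ∀ β ∈ B, IsC e β

/-- All members of the finite set are below `α`. -/
def Below (α : K) (A : Finset K) : Prop := ∀ β ∈ A, β < α

/-- The truth value of: `m` belongs to all `S β` (`β ∈ A`) and to no `S β` (`β ∈ B`). -/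
def Yv (S : K → ℕ → Cohen K → Prop) (A B : Finset K) (m : ℕ) : Cohen K → Prop :=
  fun p => (∀ β ∈ A, S β m p) ∧ ∀ β ∈ B, neg (S β m) p

/-- The code at stage `α` only mentions coordinates below `α`. -/
def Valid (e : K → Kind × Code K) (α : K) : Prop := cs (e α).2 ⊆ Set.Iio α

/-- Condition for a stage of the first kind. -/
def condC (e : K → Kind × Code K) (α : K) (S : K → ℕ → Cohen K → Prop) : Cohen K → Prop :=
  fun p => Valid e α ∧ ∀ A B, Legal e A B → Below α A → Below α B →
    infi (fun m r => Yv S A B m r ∧ ev (e α).2 m 0 r) p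

/-- Condition for a stage of the second kind. -/
def condP (e : K → Kind × Code K) (α : K) (S : K → ℕ → Cohen K → Prop) : Cohen K → Prop :=
  fun p => Valid e α ∧ ∀ A B, Legal e A B → Below α A → Below α B → ∀ n,
    infi (fun m r => Yv S A B m r ∧ ∀ i ≤ n, ev (e α).2 m i r) p

/-- Condition for a stage of the third kind. -/
def condQ (e : K → Kind × Code K) (α : K) : Cohen K → Prop :=
  fun p => Valid e α ∧ ∀ j, exi (fun N r => ∀ k, N ≤ k → neg (ev (e α).2 j k) r) p

/-- The number of ones of the `α`-th Cohen real below `m` decided by `p`. -/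
noncomputable def onesP (p : Cohen K) (α : K) (m : ℕ) : ℕ :=
  ((Finset.range m).filter (fun j => p.fn (α, j) = some true)).card

/-- Generic pseudointersection. -/
def gP (α : K) (s : Code K) (m : ℕ) : Cohen K → Prop :=
  fun p => cr α m true p ∧ ∀ i, imp (fun q => i ≤ onesP q α m) (ev s m i) p

/-- Generic selector. -/
def gQ (α : K) (s : Code K) (m : ℕ) : Cohen K → Prop :=
  fun p => cr α m true p ∧ ∀ j, j < m → imp (ev s j m) (cr α j false) p

/-- The step of the recursion. -/
def step (e : K → Kind × Code K) (α : K) (S : K → ℕ → Cohen K → Prop) (m : ℕ) : Cohen K → Prop :=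
  match (e α).1 with
  | Kind.C => fun p => cr α m true p ∧ imp (condC e α S) (ev (e α).2 m 0) p
  | Kind.P => imp (condP e α S) (gP α (e α).2 m)
  | Kind.Q => imp (condQ e α) (gQ α (e α).2 m)

theorem Yv_congr {S S' : K → ℕ → Cohen K → Prop} {α : K} (h : ∀ β < α, S β = S' β)
    {A B : Finset K} (hA : Below α A) (hB : Below α B) : Yv S A B = Yv S' A B := by
  funext m p
  refine propext ⟨fun ⟨h1, h2⟩ => ⟨fun β hβ => ?_, fun β hβ => ?_⟩,
    fun ⟨h1, h2⟩ => ⟨fun β hβ => ?_, fun β hβ => ?_⟩⟩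
  · rw [← h β (hA β hβ)]; exact h1 β hβ
  · rw [← h β (hB β hβ)]; exact h2 β hβ
  · rw [h β (hA β hβ)]; exact h1 β hβ
  · rw [h β (hB β hβ)]; exact h2 β hβ

theorem condC_congr {e : K → Kind × Code K} {S S' : K → ℕ → Cohen K → Prop} {α : K}
    (h : ∀ β < α, S β = S' β) : condC e α S = condC e α S' := by
  funext p
  refine propext (and_congr_right fun _ => forall_congr' fun A => forall_congr' fun B =>
    forall_congr' fun _ => forall_congr' fun hA => forall_congr' fun hB => ?_)
  rw [Yv_congr h hA hB]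

theorem condP_congr {e : K → Kind × Code K} {S S' : K → ℕ → Cohen K → Prop} {α : K}
    (h : ∀ β < α, S β = S' β) : condP e α S = condP e α S' := by
  funext p
  refine propext (and_congr_right fun _ => forall_congr' fun A => forall_congr' fun B =>
    forall_congr' fun _ => forall_congr' fun hA => forall_congr' fun hB => ?_)
  rw [Yv_congr h hA hB]

theorem step_congr {e : K → Kind × Code K} {S S' : K → ℕ → Cohen K → Prop} {α : K}
    (h : ∀ β < α, S β = S' β) : step e α S = step e α S' := by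
  unfold step
  rw [condC_congr h, condP_congr h]

variable [WellFoundedLT K]

open Classical in
/-- The names produced by the recursion. -/
noncomputable def SS (e : K → Kind × Code K) : K → ℕ → Cohen K → Prop :=
  (wellFounded_lt (α := K)).fix (fun α T => step e α
    (fun β => if h : β < α then T β h else fun _ _ => False))

theorem SS_eq (e : K → Kind × Code K) (α : K) : SS e α = step e α (SS e) := by
  classical
  have h1 : SS e α = step e α (fun β => if β < α then SS e β else fun _ _ => False) := by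
    unfold SS
    rw [WellFounded.fix_eq]
    rfl
  rw [h1]
  refine step_congr fun β hβ => ?_
  simp [hβ]

variable {e : K → Kind × Code K}

/-! ### Regularity -/

omit [LinearOrder K] [WellFoundedLT K] in
theorem imp_reg {u v : Cohen K → Prop} (hu : ∀ {p q : Cohen K}, q ≤ p → u p → u q)
    (hv : Reg v) : Reg (imp u v) :=
  ⟨fun h h' r hr => h' r (hr.trans h), fun {p} h q hq huq => hv.dense fun r hr => by
    obtain ⟨s, hs, h'⟩ := h r (hr.trans hq)
    exact ⟨s, hs, h' s le_rfl (hu (hs.trans hr) huq)⟩⟩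

omit [LinearOrder K] [WellFoundedLT K] in
theorem onesP_mono {p q : Cohen K} (h : q ≤ p) (α : K) {m n : ℕ} (hmn : m ≤ n) :
    onesP p α m ≤ onesP q α n := by
  unfold onesP
  refine Finset.card_le_card ?_
  intro j hj
  rw [Finset.mem_filter, Finset.mem_range] at hj ⊢
  exact ⟨by omega, h _ _ hj.2⟩

omit [LinearOrder K] [WellFoundedLT K] in
theorem gP_reg (α : K) (s : Code K) (m : ℕ) : Reg (gP α s m) :=
  (cr_reg α m true).and (Reg.all fun i => imp_reg
    (fun h h' => le_trans h' (onesP_mono h α le_rfl)) (ev_reg s m i))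

omit [LinearOrder K] [WellFoundedLT K] in
theorem gQ_reg (α : K) (s : Code K) (m : ℕ) : Reg (gQ α s m) :=
  (cr_reg α m true).and (Reg.all fun j => Reg.all fun _ => Reg.imp (ev_reg s j m)
    (cr_reg α j false))

omit [WellFoundedLT K] in
theorem condC_reg (α : K) (S : K → ℕ → Cohen K → Prop) : Reg (condC e α S) :=
  (Reg.const _).and (Reg.all fun _ => Reg.all fun _ => Reg.all fun _ => Reg.all fun _ =>
    Reg.all fun _ => Reg.infi)

omit [WellFoundedLT K] in
theorem condP_reg (α : K) (S : K → ℕ → Cohen K → Prop) : Reg (condP e α S) :=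
  (Reg.const _).and (Reg.all fun _ => Reg.all fun _ => Reg.all fun _ => Reg.all fun _ =>
    Reg.all fun _ => Reg.all fun _ => Reg.infi)

omit [WellFoundedLT K] in
theorem condQ_reg (α : K) : Reg (condQ e α) :=
  (Reg.const _).and (Reg.all fun _ => Reg.exi)

theorem SS_reg (α : K) (m : ℕ) : Reg (SS e α m) := by
  rw [SS_eq]
  unfold step
  cases (e α).1 with
  | C => exact (cr_reg α m true).and (Reg.imp (condC_reg α _) (ev_reg _ _ _))
  | P => exact Reg.imp (condP_reg α _) (gP_reg _ _ _)
  | Q => exact Reg.imp (condQ_reg α) (gQ_reg _ _ _)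

theorem Yv_reg (A B : Finset K) (m : ℕ) : Reg (Yv (SS e) A B m) :=
  Reg.and (Reg.all fun β => Reg.all fun _ => SS_reg β m)
    (Reg.all fun β => Reg.all fun _ => Reg.neg (SS_reg β m))

/-! ### Supports -/

omit [LinearOrder K] [WellFoundedLT K] in
theorem onesP_supp (α : K) (m i : ℕ) : Supp {α} (fun q : Cohen K => i ≤ onesP q α m) := by
  intro p q hpq h
  have : onesP p α m = onesP q α m := by
    unfold onesP
    congr 1
    ext j
    rw [Finset.mem_filter, Finset.mem_filter, hpq (α, j) rfl]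
  change i ≤ onesP q α m
  rw [← this]
  exact h

theorem Yv_supp_of {α : K} (hS : ∀ β < α, ∀ m, Supp (Set.Iic β) (SS e β m)) {A B : Finset K}
    (hA : Below α A) (hB : Below α B) (m : ℕ) : Supp (Set.Iio α) (Yv (SS e) A B m) := by
  have h1 : ∀ β < α, ∀ m, Supp (Set.Iio α) (SS e β m) := fun β hβ m =>
    (hS β hβ m).mono (fun γ hγ => lt_of_le_of_lt hγ hβ)
  exact Supp.and (fun p q hpq h β hβ => h1 β (hA β hβ) m p q hpq (h β hβ))
    (fun p q hpq h β hβ => Supp.neg (h1 β (hB β hβ) m) p q hpq (h β hβ))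

theorem condC_supp_of {α : K} (hS : ∀ β < α, ∀ m, Supp (Set.Iic β) (SS e β m)) :
    Supp (Set.Iio α) (condC e α (SS e)) := by
  intro p q hpq h
  refine ⟨h.1, fun A B hL hA hB => ?_⟩
  exact Supp.infi (fun m => (Yv_supp_of hS hA hB m).and ((ev_supp _ m 0).mono h.1)) p q hpq
    (h.2 A B hL hA hB)

theorem condP_supp_of {α : K} (hS : ∀ β < α, ∀ m, Supp (Set.Iic β) (SS e β m)) :
    Supp (Set.Iio α) (condP e α (SS e)) := by
  intro p q hpq h
  refine ⟨h.1, fun A B hL hA hB n => ?_⟩
  exact Supp.infi (fun m => (Yv_supp_of hS hA hB m).and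
    (Supp.all fun i => Supp.all fun _ => (ev_supp _ m i).mono h.1)) p q hpq (h.2 A B hL hA hB n)

omit [WellFoundedLT K] in
theorem condQ_supp (α : K) : Supp (Set.Iio α) (condQ e α) := by
  intro p q hpq h
  refine ⟨h.1, fun j => ?_⟩
  exact Supp.exi (fun N => Supp.all fun k => Supp.all fun _ => Supp.neg
    ((ev_supp _ j k).mono h.1)) p q hpq (h.2 j)

theorem SS_supp (α : K) : ∀ m, Supp (Set.Iic α) (SS e α m) := by
  induction α using WellFoundedLT.induction with
  | ind α ih =>
    intro m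
    have hsub : Set.Iio α ⊆ Set.Iic α := fun _ h => le_of_lt h
    have hsing : ({α} : Set K) ⊆ Set.Iic α := by
      intro β hβ
      rw [Set.mem_singleton_iff] at hβ
      rw [hβ]
      exact le_rfl
    rw [SS_eq]
    unfold step
    have hv : ∀ u v : Cohen K → Prop, (∀ p, u p → Valid e α) → Supp (Set.Iic α) u →
        (Valid e α → Supp (Set.Iic α) v) → Supp (Set.Iic α) (imp u v) := by
      intro u v h1 h2 h3
      by_cases hval : Valid e α
      · exact Supp.imp h2 (h3 hval)
      · intro p q _ _ r _ hur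
        exact absurd (h1 r hur) hval
    cases (e α).1 with
    | C =>
      refine Supp.and ((cr_supp α m true).mono hsing) (hv _ _ (fun p h => h.1)
        ((condC_supp_of ih).mono hsub) (fun hval => (ev_supp _ m 0).mono (hval.trans hsub)))
    | P =>
      refine hv _ _ (fun p h => h.1) ((condP_supp_of ih).mono hsub) (fun hval => ?_)
      exact Supp.and ((cr_supp α m true).mono hsing) (Supp.all fun i => Supp.imp
        ((onesP_supp α m i).mono hsing) ((ev_supp _ m i).mono (hval.trans hsub)))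
    | Q =>
      refine hv _ _ (fun p h => h.1) ((condQ_supp α).mono hsub) (fun hval => ?_)
      exact Supp.and ((cr_supp α m true).mono hsing) (Supp.all fun j => Supp.all fun _ => Supp.imp
        ((ev_supp _ j m).mono (hval.trans hsub)) ((cr_supp α j false).mono hsing))

theorem Yv_supp {α : K} {A B : Finset K} (hA : Below α A) (hB : Below α B) (m : ℕ) :
    Supp (Set.Iio α) (Yv (SS e) A B m) :=
  Yv_supp_of (fun β _ => SS_supp β) hA hB m

/-! ### Genericity -/

omit [WellFoundedLT K] in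
/-- The key freshness lemma. -/
theorem fresh {α : K} {W : ℕ → Cohen K → Prop} (hW : ∀ m, Supp (Set.Iio α) (W m)) {p : Cohen K}
    (h : infi W p) (N : ℕ) : ∃ r ≤ p, ∃ m, N ≤ m ∧ W m r ∧ ∀ j, r.fn (α, j) = p.fn (α, j) := by
  obtain ⟨r, hr, m, hm, hWr⟩ := h N p le_rfl
  refine ⟨glue (Set.Iio α) p r, glue_le (fun _ _ => rfl) hr, m, hm, ?_, fun j => ?_⟩
  · exact hW m _ _ (glue_agree _ _ _).symm hWr
  · exact glue_not_mem (fun h : α < α => lt_irrefl α h)

/-- The hypothesis that all legal combinations below `α` are forced to be infinite. -/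
def HInf (e : K → Kind × Code K) (α : K) : Prop :=
  ∀ A B, Legal e A B → Below α A → Below α B → ∀ p, infi (Yv (SS e) A B) p

theorem pos_C {α : K} (hH : HInf e α) {A B : Finset K}
    (hL : Legal e A B) (hA : Below α A) (hB : Below α B) (p : Cohen K) (b : Bool) :
    infi (fun m r => Yv (SS e) A B m r ∧ cr α m b r ∧ imp (condC e α (SS e))
      (ev (e α).2 m 0) r) p := by
  intro N p hp'
  clear hp'
  rcases (condC_reg α (SS e) (e := e)).em p with hc | ⟨q, hq, hc⟩
  · obtain ⟨L, hL'⟩ := exists_bound p α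
    obtain ⟨r, hr, m, hm, ⟨hY, hZ⟩, hag⟩ := fresh (α := α) (fun m => (Yv_supp hA hB m).and
      ((ev_supp _ m 0).mono hc.1)) (hc.2 A B hL hA hB) (max L N)
    have hnone : r.fn (α, m) = none := by
      rw [hag]; exact hL' m (le_trans (le_max_left _ _) hm)
    have hle := upd_le r α m b hnone
    refine ⟨upd r α m b, hle.trans hr, m, le_trans (le_max_right _ _) hm,
      (Yv_reg A B m).mono hle hY, upd_self r α m b, ?_⟩
    intro s hs _
    exact (ev_reg _ m 0).mono (hs.trans hle) hZ
  · obtain ⟨L, hL'⟩ := exists_bound q α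
    obtain ⟨r, hr, m, hm, hY, hag⟩ := fresh (α := α) (fun m => Yv_supp hA hB m)
      (hH A B hL hA hB q) (max L N)
    have hnone : r.fn (α, m) = none := by
      rw [hag]; exact hL' m (le_trans (le_max_left _ _) hm)
    have hle := upd_le r α m b hnone
    refine ⟨upd r α m b, (hle.trans hr).trans hq, m, le_trans (le_max_right _ _) hm,
      (Yv_reg A B m).mono hle hY, upd_self r α m b, ?_⟩
    intro s hs hcs
    exact absurd hcs (hc s ((hs.trans hle).trans hr))

omit [WellFoundedLT K] in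
/-- Extend a condition so that a new one appears at `(α, m)`, after zeros on `[L, m)`. -/
theorem extend_one {α : K} {r : Cohen K} {L m : ℕ} (hdec : ∀ j < L, r.fn (α, j) ≠ none)
    (hnone : ∀ j, L ≤ j → r.fn (α, j) = none) (hLm : L ≤ m) :
    ∃ s ≤ r, s.fn (α, m) = some true ∧ (∀ j, L ≤ j → j < m → s.fn (α, j) = some false) ∧
      (∀ j < L, s.fn (α, j) = r.fn (α, j)) ∧ ∀ j < m, s.fn (α, j) ≠ none := by
  have h1 : (fill r α m).fn (α, m) = none := by
    rw [fill_of_ge r α m m le_rfl]
    exact hnone m hLm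
  have hle : upd (fill r α m) α m true ≤ r := (upd_le _ α m true h1).trans (fill_le r α m)
  have hne : ∀ j, j < m → ((α, j) : K × ℕ) ≠ (α, m) := by
    intro j hj h
    have := (Prod.mk.inj h).2
    omega
  refine ⟨_, hle, upd_self _ α m true, ?_, ?_, ?_⟩
  · intro j hj1 hj2
    rw [upd_ne _ α m true (hne j hj2)]
    exact fill_of_none r α m j hj2 (hnone j hj1)
  · intro j hj
    obtain ⟨b, hb⟩ := Option.ne_none_iff_exists'.1 (hdec j hj)
    rw [hb]
    exact hle _ _ hb
  · intro j hj
    rw [upd_ne _ α m true (hne j hj)]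
    exact fill_ne_none r α m j hj

theorem pos_P {α : K} (hH : HInf e α) {A B : Finset K}
    (hL : Legal e A B) (hA : Below α A) (hB : Below α B) (p : Cohen K) :
    infi (fun m r => Yv (SS e) A B m r ∧ imp (condP e α (SS e)) (gP α (e α).2 m) r) p := by
  intro N p hp'
  clear hp'
  rcases (condP_reg α (SS e) (e := e)).em p with hc | ⟨q, hq, hc⟩
  · obtain ⟨L₀, hL₀⟩ := exists_bound p α
    set L := max L₀ N with hLdef
    have hp1 : fill p α L ≤ p := fill_le p α L
    have hc1 := (condP_reg α (SS e) (e := e)).mono hp1 hc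
    set p1 := fill p α L with hp1def
    have hdec : ∀ j < L, p1.fn (α, j) ≠ none := fun j hj => fill_ne_none p α L j hj
    have hnone : ∀ j, L ≤ j → p1.fn (α, j) = none := by
      intro j hj
      rw [hp1def, fill_of_ge p α L j hj]
      exact hL₀ j (le_trans (le_max_left _ _) hj)
    obtain ⟨r, hr, m, hm, ⟨hY, hZ⟩, hag⟩ := fresh (α := α) (fun m => (Yv_supp hA hB m).and
      (Supp.all fun i => Supp.all fun _ => (ev_supp _ m i).mono hc.1))
      (hc1.2 A B hL hA hB (onesP p1 α L)) L
    obtain ⟨s, hs, hs1, hs2, hs3, hs4⟩ := extend_one (α := α) (r := r) (L := L) (m := m)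
      (fun j hj => by rw [hag]; exact hdec j hj) (fun j hj => by rw [hag]; exact hnone j hj) hm
    refine ⟨s, (hs.trans hr).trans hp1, m, le_trans (le_max_right _ _) hm,
      (Yv_reg A B m).mono hs hY, ?_⟩
    intro t ht _
    refine ⟨ht _ _ hs1, fun i u hu hi => ?_⟩
    refine (ev_reg _ m i).mono ((hu.trans ht).trans hs) (hZ i ?_)
    have hcount : onesP u α m = onesP p1 α L := by
      unfold onesP
      congr 1
      ext j
      rw [Finset.mem_filter, Finset.mem_filter, Finset.mem_range, Finset.mem_range]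
      constructor
      · rintro ⟨h1, h2⟩
        obtain ⟨b, hb⟩ := Option.ne_none_iff_exists'.1 (hs4 j h1)
        have hb' := (hu.trans ht) _ _ hb
        rw [h2] at hb'
        by_cases hjL : j < L
        · refine ⟨hjL, ?_⟩
          rw [hs3 j hjL, hag] at hb
          rw [hb, hb']
        · have := hs2 j (not_lt.1 hjL) h1
          rw [this] at hb
          rw [← hb'] at hb
          exact absurd hb (by simp)
      · rintro ⟨h1, h2⟩
        refine ⟨lt_of_lt_of_le h1 hm, ?_⟩
        refine (hu.trans ht) _ _ ?_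
        rw [hs3 j h1, hag]
        exact h2
    rw [← hcount]
    exact hi
  · obtain ⟨r, hr, m, hm, hY⟩ := hH A B hL hA hB q N q le_rfl
    refine ⟨r, hr.trans hq, m, hm, hY, ?_⟩
    intro s hs hcs
    exact absurd hcs (hc s (hs.trans hr))

omit [WellFoundedLT K] in
/-- Auxiliary: finitely many classes can be bounded simultaneously. -/
theorem bound_classes {α : K} (hval : Valid e α) (L : ℕ) (p : Cohen K)
    (h : ∀ j, exi (fun N r => ∀ k, N ≤ k → neg (ev (e α).2 j k) r) p) :
    ∃ q ≤ p, (∀ j, q.fn (α, j) = p.fn (α, j)) ∧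
      ∃ N, ∀ j < L, ∀ k, N ≤ k → neg (ev (e α).2 j k) q := by
  induction L with
  | zero => exact ⟨p, le_rfl, fun _ => rfl, 0, fun j hj => absurd hj (Nat.not_lt_zero j)⟩
  | succ L ih =>
    obtain ⟨q, hq, hag, N, hN⟩ := ih
    obtain ⟨r, hr, N', hN'⟩ := h L q hq
    have hsupp : ∀ j k, Supp (Set.Iio α) (neg (ev (e α).2 j k)) := fun j k =>
      Supp.neg ((ev_supp _ j k).mono hval)
    have hle : glue (Set.Iio α) q r ≤ q := glue_le (fun _ _ => rfl) hr
    refine ⟨glue (Set.Iio α) q r, hle.trans hq, fun j => ?_, max N N', fun j hj k hk => ?_⟩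
    · rw [← hag]
      exact glue_not_mem (fun h : α < α => lt_irrefl α h)
    · rcases Nat.lt_succ_iff_lt_or_eq.1 hj with h1 | h1
      · exact (Reg.neg (ev_reg _ j k)).mono hle (hN j h1 k (le_trans (le_max_left _ _) hk))
      · rw [h1]
        exact hsupp L k _ _ (glue_agree _ _ _).symm (hN' k (le_trans (le_max_right _ _) hk))

theorem pos_Q {α : K} (hH : HInf e α) {A B : Finset K}
    (hL : Legal e A B) (hA : Below α A) (hB : Below α B) (p : Cohen K) :
    infi (fun m r => Yv (SS e) A B m r ∧ imp (condQ e α) (gQ α (e α).2 m) r) p := by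
  intro N p hp'
  clear hp'
  rcases (condQ_reg α (e := e)).em p with hc | ⟨q, hq, hc⟩
  · obtain ⟨L₀, hL₀⟩ := exists_bound p α
    set L := max L₀ N with hLdef
    have hp1 : fill p α L ≤ p := fill_le p α L
    have hc1 := (condQ_reg α (e := e)).mono hp1 hc
    set p1 := fill p α L with hp1def
    have hdec : ∀ j < L, p1.fn (α, j) ≠ none := fun j hj => fill_ne_none p α L j hj
    have hnone : ∀ j, L ≤ j → p1.fn (α, j) = none := by
      intro j hj
      rw [hp1def, fill_of_ge p α L j hj]
      exact hL₀ j (le_trans (le_max_left _ _) hj)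
    obtain ⟨p2, hp2, hag2, N', hN'⟩ := bound_classes hc.1 L p1 hc1.2
    obtain ⟨r, hr, m, hm, hY, hag⟩ := fresh (α := α) (fun m => Yv_supp hA hB m)
      (hH A B hL hA hB p2) (max L N')
    have hLm : L ≤ m := le_trans (le_max_left _ _) hm
    obtain ⟨s, hs, hs1, hs2, hs3, hs4⟩ := extend_one (α := α) (r := r) (L := L) (m := m)
      (fun j hj => by rw [hag, hag2]; exact hdec j hj)
      (fun j hj => by rw [hag, hag2]; exact hnone j hj) hLm
    refine ⟨s, ((hs.trans hr).trans hp2).trans hp1, m, le_trans (le_max_right _ _) hLm,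
      (Yv_reg A B m).mono hs hY, ?_⟩
    intro t ht _
    refine ⟨ht _ _ hs1, fun j hj u hu hE => ?_⟩
    by_cases hjL : j < L
    · exact absurd hE (hN' j hjL m (le_trans (le_max_right _ _) hm) u
        (((hu.trans ht).trans hs).trans hr))
    · exact (hu.trans ht) _ _ (hs2 j (not_lt.1 hjL) hj)
  · obtain ⟨r, hr, m, hm, hY⟩ := hH A B hL hA hB q N q le_rfl
    refine ⟨r, hr.trans hq, m, hm, hY, ?_⟩
    intro s hs hcs
    exact absurd hcs (hc s (hs.trans hr))

theorem pos_SS {α : K} (hH : HInf e α) {A B : Finset K}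
    (hL : Legal e A B) (hA : Below α A) (hB : Below α B) (p : Cohen K) :
    infi (fun m r => Yv (SS e) A B m r ∧ SS e α m r) p := by
  have h1 : SS e α = step e α (SS e) := SS_eq e α
  rw [h1]
  unfold step
  rcases hk : (e α).1 with _ | _ | _
  · exact pos_C hH hL hA hB p true
  · exact pos_P hH hL hA hB p
  · exact pos_Q hH hL hA hB p

theorem neg_SS {α : K} (hC : IsC e α) (hH : HInf e α) {A B : Finset K}
    (hL : Legal e A B) (hA : Below α A) (hB : Below α B) (p : Cohen K) :
    infi (fun m r => Yv (SS e) A B m r ∧ neg (SS e α m) r) p := by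
  intro N q hq
  obtain ⟨r, hr, m, hm, hY, hc, -⟩ := pos_C hH hL hA hB p false N q hq
  refine ⟨r, hr, m, hm, hY, fun s hs hS => ?_⟩
  rw [SS_eq] at hS
  unfold step at hS
  have hk : (e α).1 = Kind.C := hC
  rw [hk] at hS
  have h1 : s.fn (α, m) = some true := hS.1
  have h2 : s.fn (α, m) = some false := hs _ _ hc
  rw [h1] at h2
  exact absurd h2 (by simp)

/-- All legal combinations are forced to be infinite. -/
theorem hInf (α : K) : HInf e α := by
  classical
  induction α using WellFoundedLT.induction with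
  | ind α ih =>
    intro A B hL hA hB p
    by_cases hU : (A ∪ B).Nonempty
    · let μ := (A ∪ B).max' hU
      have hμ : μ ∈ A ∪ B := Finset.max'_mem _ _
      have hmax : ∀ β ∈ A ∪ B, β ≤ μ := fun β hβ => Finset.le_max' _ β hβ
      have hμα : μ < α := by
        rcases Finset.mem_union.1 hμ with h | h
        · exact hA μ h
        · exact hB μ h
      have hA' : Below μ (A.erase μ) := fun β hβ =>
        lt_of_le_of_ne (hmax β (Finset.mem_union_left _ (Finset.mem_of_mem_erase hβ)))
          (Finset.ne_of_mem_erase hβ)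
      have hB' : Below μ (B.erase μ) := fun β hβ =>
        lt_of_le_of_ne (hmax β (Finset.mem_union_right _ (Finset.mem_of_mem_erase hβ)))
          (Finset.ne_of_mem_erase hβ)
      have hL' : Legal e (A.erase μ) (B.erase μ) :=
        ⟨hL.1.mono (Finset.erase_subset _ _) (Finset.erase_subset _ _),
          fun β hβ => hL.2 β (Finset.mem_of_mem_erase hβ)⟩
      by_cases hμA : μ ∈ A
      · have hμB : μ ∉ B := Finset.disjoint_left.1 hL.1 hμA
        intro N q hq
        obtain ⟨r, hr, m, hm, ⟨h2, h3⟩, h4⟩ := pos_SS (ih μ hμα) hL' hA' hB' p N q hq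
        refine ⟨r, hr, m, hm, fun β hβ => ?_, fun β hβ => ?_⟩
        · by_cases hβμ : β = μ
          · rw [hβμ]; exact h4
          · exact h2 β (Finset.mem_erase.2 ⟨hβμ, hβ⟩)
        · exact h3 β (Finset.mem_erase.2 ⟨fun h => hμB (h ▸ hβ), hβ⟩)
      · have hμB : μ ∈ B := (Finset.mem_union.1 hμ).resolve_left hμA
        intro N q hq
        obtain ⟨r, hr, m, hm, ⟨h2, h3⟩, h4⟩ :=
          neg_SS (hL.2 μ hμB) (ih μ hμα) hL' hA' hB' p N q hq
        refine ⟨r, hr, m, hm, fun β hβ => ?_, fun β hβ => ?_⟩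
        · exact h2 β (Finset.mem_erase.2 ⟨fun h => hμA (h ▸ hβ), hβ⟩)
        · by_cases hβμ : β = μ
          · rw [hβμ]; exact h4
          · exact h3 β (Finset.mem_erase.2 ⟨hβμ, hβ⟩)
    · rw [Finset.not_nonempty_iff_eq_empty, Finset.union_eq_empty] at hU
      rw [hU.1, hU.2]
      intro N q _
      exact ⟨q, le_rfl, N, le_rfl, by simp [Yv]⟩

/-! ### Global consequences -/

/-- The enumeration `e` hits every item above every countable set. -/
def Cofinal (e : K → Kind × Code K) : Prop :=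
  ∀ (it : Kind × Code K) (C : Set K), C.Countable → ∃ γ, (∀ β ∈ C, β < γ) ∧ e γ = it

/-- Index level finite partial functions into the independent family. -/
def FFx (e : K → Kind × Code K) (A B : Finset K) : Prop :=
  Disjoint A B ∧ (∀ β ∈ A, IsC e β) ∧ ∀ β ∈ B, IsC e β

omit [LinearOrder K] [WellFoundedLT K] in
theorem FFx.legal {A B : Finset K} (h : FFx e A B) : Legal e A B := ⟨h.1, h.2.2⟩

omit [WellFoundedLT K] in
theorem exists_stage (he : Cofinal e) (it : Kind × Code K) (A : Finset K) (C : Set K)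
    (hC : C.Countable) : ∃ γ, Below γ A ∧ (∀ β ∈ C, β < γ) ∧ e γ = it := by
  obtain ⟨γ, h1, h2⟩ := he it ((A : Set K) ∪ C) (A.countable_toSet.union hC)
  exact ⟨γ, fun β hβ => h1 β (Or.inl hβ), fun β hβ => h1 β (Or.inr hβ), h2⟩

theorem Y_inf (he : Cofinal e) (A B : Finset K) (hL : Legal e A B) (p : Cohen K) :
    infi (Yv (SS e) A B) p := by
  classical
  obtain ⟨γ, h1, -, -⟩ := exists_stage he (Kind.C, fun _ => none) (A ∪ B) ∅ Set.countable_empty
  exact hInf γ A B hL (fun β hβ => h1 β (Finset.mem_union_left _ hβ))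
    (fun β hβ => h1 β (Finset.mem_union_right _ hβ)) p

omit [LinearOrder K] [WellFoundedLT K] in
theorem Yv_anti {S : K → ℕ → Cohen K → Prop} {A A' B B' : Finset K} (hA : A ⊆ A') (hB : B ⊆ B')
    {m : ℕ} {p : Cohen K} (h : Yv S A' B' m p) : Yv S A B m p :=
  ⟨fun β hβ => h.1 β (hA hβ), fun β hβ => h.2 β (hB hβ)⟩

/-- The defining property of stages of the first kind. -/
theorem stage_C {γ : K} (hk : IsC e γ) {m : ℕ} {p : Cohen K} (hc : condC e γ (SS e) p)
    (h : SS e γ m p) : ev (e γ).2 m 0 p := by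
  rw [SS_eq] at h
  unfold step at h
  rw [show (e γ).1 = Kind.C from hk] at h
  exact h.2 p le_rfl hc

theorem dense_below (he : Cofinal e) (β : K) (A B : Finset K) (hAB : FFx e A B)
    (hβ : ¬ IsC e β) : ∃ A', FFx e A' B ∧ A ⊆ A' ∧ ∀ m p, Yv (SS e) A' B m p → SS e β m p := by
  classical
  obtain ⟨s, hs⟩ := exists_code (fun m _ => SS e β m) (fun m _ => SS_reg β m)
  obtain ⟨γ, h1, h2, h3⟩ := exists_stage he (Kind.C, s) (A ∪ B ∪ {β}) (cs s) (cs_countable s)
  have hγC : IsC e γ := by unfold IsC; rw [h3]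
  have hcode : (e γ).2 = s := by rw [h3]
  have hcond : ∀ p, condC e γ (SS e) p := by
    intro p
    refine ⟨?_, fun A' B' hL hA' hB' => ?_⟩
    · unfold Valid
      rw [hcode]
      exact h2
    · rw [hcode]
      have h4 := Y_inf he (insert β A') B' ⟨by
        rw [Finset.disjoint_insert_left]
        exact ⟨fun h => hβ (hL.2 β h), hL.1⟩, hL.2⟩ p
      intro N q hq
      obtain ⟨r, hr, m, hm, h5⟩ := h4 N q hq
      exact ⟨r, hr, m, hm, Yv_anti (Finset.subset_insert _ _) subset_rfl h5,
        (hs m 0 r).2 (h5.1 β (Finset.mem_insert_self _ _))⟩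
  refine ⟨insert γ A, ⟨?_, ?_, hAB.2.2⟩, Finset.subset_insert _ _, fun m p hY => ?_⟩
  · rw [Finset.disjoint_insert_left]
    refine ⟨fun h => ?_, hAB.1⟩
    exact lt_irrefl γ (h1 γ (Finset.mem_union_left _ (Finset.mem_union_right _ h)))
  · intro δ hδ
    rcases Finset.mem_insert.1 hδ with h | h
    · rw [h]; exact hγC
    · exact hAB.2.1 δ h
  · have h6 := stage_C hγC (hcond p) (hY.1 γ (Finset.mem_insert_self _ _))
    rw [hcode] at h6
    exact (hs m 0 p).1 h6

theorem dense_below_finset (he : Cofinal e) (F A B : Finset K) (hAB : FFx e A B)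
    (hF : ∀ β ∈ F, ¬ IsC e β) :
    ∃ A', FFx e A' B ∧ A ⊆ A' ∧ ∀ β ∈ F, ∀ m p, Yv (SS e) A' B m p → SS e β m p := by
  classical
  induction F using Finset.induction_on with
  | empty => exact ⟨A, hAB, subset_rfl, fun β hβ => absurd hβ (Finset.notMem_empty β)⟩
  | insert β F hβ ih =>
    obtain ⟨A₁, h1, h2, h3⟩ := ih (fun δ hδ => hF δ (Finset.mem_insert_of_mem hδ))
    obtain ⟨A₂, h4, h5, h6⟩ := dense_below he β A₁ B h1 (hF β (Finset.mem_insert_self _ _))
    refine ⟨A₂, h4, h2.trans h5, fun δ hδ m p hY => ?_⟩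
    rcases Finset.mem_insert.1 hδ with h | h
    · rw [h]; exact h6 m p hY
    · exact h3 δ h m p (Yv_anti h5 subset_rfl hY)

/-- Truth value of: `X` belongs to the density filter. -/
def FilF (e : K → Kind × Code K) (X : ℕ → Cohen K → Prop) (p : Cohen K) : Prop :=
  ∀ A B, FFx e A B → ∀ q ≤ p, ∃ r ≤ q, ∃ A' B', FFx e A' B' ∧ A ⊆ A' ∧ B ⊆ B' ∧
    ∃ N, ∀ m, N ≤ m → imp (Yv (SS e) A' B' m) (X m) r

theorem FilF.mono {X : ℕ → Cohen K → Prop} {p q : Cohen K} (h : FilF e X p) (hq : q ≤ p) :
    FilF e X q := fun A B hAB r hr => h A B hAB r (hr.trans hq)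

theorem fil_inf (he : Cofinal e) {X : ℕ → Cohen K → Prop} {p : Cohen K} (hX : FilF e X p)
    (A B : Finset K) (hL : Legal e A B) : infi (fun m r => Yv (SS e) A B m r ∧ X m r) p := by
  classical
  intro N q hq
  have hFF : FFx e (A.filter (fun β => IsC e β)) B :=
    ⟨hL.1.mono_left (Finset.filter_subset _ _), fun β hβ => (Finset.mem_filter.1 hβ).2, hL.2⟩
  obtain ⟨A₁, h1, h2, h3⟩ := dense_below_finset he (A.filter (fun β => ¬ IsC e β)) _ B hFF
    (fun β hβ => (Finset.mem_filter.1 hβ).2)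
  obtain ⟨r, hr, A₂, B₂, h4, h5, h6, N', h7⟩ := hX A₁ B h1 q hq
  obtain ⟨s, hs, m, hm, h8⟩ := Y_inf he A₂ B₂ h4.legal r (max N N') r le_rfl
  refine ⟨s, hs.trans hr, m, le_trans (le_max_left _ _) hm, ?_,
    h7 m (le_trans (le_max_right _ _) hm) s hs h8⟩
  have h9 : Yv (SS e) A₁ B m s := Yv_anti h5 h6 h8
  refine ⟨fun β hβ => ?_, h9.2⟩
  by_cases hC : IsC e β
  · exact h9.1 β (h2 (Finset.mem_filter.2 ⟨hβ, hC⟩))
  · exact h3 β (Finset.mem_filter.2 ⟨hβ, hC⟩) m s h9

theorem fil_and {X X' : ℕ → Cohen K → Prop} {p : Cohen K} (h : FilF e X p) (h' : FilF e X' p) :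
    FilF e (fun m r => X m r ∧ X' m r) p := by
  intro A B hAB q hq
  obtain ⟨r, hr, A₁, B₁, h1, h2, h3, N, h4⟩ := h A B hAB q hq
  obtain ⟨s, hs, A₂, B₂, h5, h6, h7, N', h8⟩ := h' A₁ B₁ h1 r (hr.trans hq)
  refine ⟨s, hs.trans hr, A₂, B₂, h5, h2.trans h6, h3.trans h7, max N N', fun m hm t ht hY => ?_⟩
  exact ⟨h4 m (le_trans (le_max_left _ _) hm) t (ht.trans hs) (Yv_anti h6 h7 hY),
    h8 m (le_trans (le_max_right _ _) hm) t ht hY⟩

theorem fil_mono {X X' : ℕ → Cohen K → Prop} {p : Cohen K} (h : FilF e X p)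
    (hXX : ∀ m, ∀ q ≤ p, X m q → X' m q) : FilF e X' p := by
  intro A B hAB q hq
  obtain ⟨r, hr, A₁, B₁, h1, h2, h3, N, h4⟩ := h A B hAB q hq
  exact ⟨r, hr, A₁, B₁, h1, h2, h3, N, fun m hm t ht hY =>
    hXX m t ((ht.trans hr).trans hq) (h4 m hm t ht hY)⟩

theorem fil_all {X : ℕ → ℕ → Cohen K → Prop} {p : Cohen K} (h : ∀ i, FilF e (fun m => X m i) p)
    (n : ℕ) : FilF e (fun m r => ∀ i ≤ n, X m i r) p := by
  induction n with
  | zero =>
    refine fil_mono (h 0) (fun m q _ hX i hi => ?_)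
    rw [Nat.le_zero.1 hi]
    exact hX
  | succ n ih =>
    refine fil_mono (fil_and ih (h (n + 1))) (fun m q _ hX i hi => ?_)
    rcases Nat.lt_or_ge i (n + 1) with h1 | h1
    · exact hX.1 i (by omega)
    · have : i = n + 1 := by omega
      rw [this]; exact hX.2

theorem SS_fil (he : Cofinal e) {β : K} (hβ : ¬ IsC e β) (p : Cohen K) : FilF e (SS e β) p := by
  intro A B hAB q _
  obtain ⟨A', h1, h2, h3⟩ := dense_below he β A B hAB hβ
  exact ⟨q, le_rfl, A', B, h1, h2, subset_rfl, 0, fun m _ r _ hY => h3 m r hY⟩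

theorem SS_inf (he : Cofinal e) (β : K) (p : Cohen K) : infi (SS e β) p := by
  intro N q hq
  obtain ⟨r, hr, m, hm, h⟩ := Y_inf he {β} ∅ ⟨by simp, by simp⟩ p N q hq
  exact ⟨r, hr, m, hm, h.1 β (Finset.mem_singleton_self β)⟩

/-- Dense maximality, forced. -/
theorem dense_max (he : Cofinal e) (X : ℕ → Cohen K → Prop) (hX : ∀ m, Reg (X m))
    (A B : Finset K) (hAB : FFx e A B) (p : Cohen K) :
    ∃ q ≤ p, ∃ A' B', FFx e A' B' ∧ A ⊆ A' ∧ B ⊆ B' ∧
      ((∃ N, ∀ m, N ≤ m → imp (Yv (SS e) A' B' m) (X m) q) ∨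
       (∃ N, ∀ m, N ≤ m → imp (Yv (SS e) A' B' m) (neg (X m)) q)) := by
  classical
  obtain ⟨s, hs⟩ := exists_code (fun m _ => imp (Yv (SS e) A B m) (X m))
    (fun m _ => Reg.imp (Yv_reg A B m) (hX m))
  obtain ⟨γ, h1, h2, h3⟩ := exists_stage he (Kind.C, s) (A ∪ B) (cs s) (cs_countable s)
  have hγC : IsC e γ := by unfold IsC; rw [h3]
  have hcode : (e γ).2 = s := by rw [h3]
  have hval : Valid e γ := by
    unfold Valid
    rw [hcode]
    exact h2
  rcases (condC_reg γ (SS e) (e := e)).em p with hc | ⟨q, hq, hc⟩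
  · refine ⟨p, le_rfl, insert γ A, B, ⟨?_, ?_, hAB.2.2⟩, Finset.subset_insert _ _, subset_rfl,
      Or.inl ⟨0, fun m _ q hq hY => ?_⟩⟩
    · rw [Finset.disjoint_insert_left]
      exact ⟨fun h => lt_irrefl γ (h1 γ (Finset.mem_union_right _ h)), hAB.1⟩
    · intro δ hδ
      rcases Finset.mem_insert.1 hδ with h | h
      · rw [h]; exact hγC
      · exact hAB.2.1 δ h
    · have h4 := stage_C hγC ((condC_reg γ (SS e) (e := e)).mono hq hc)
        (hY.1 γ (Finset.mem_insert_self _ _))
      rw [hcode] at h4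
      exact (hs m 0 q).1 h4 q le_rfl (Yv_anti (Finset.subset_insert γ A) subset_rfl hY)
  · have hcon : ¬ condC e γ (SS e) q := hc q le_rfl
    unfold condC infi exi at hcon
    simp only [hval, true_and, hcode] at hcon
    push Not at hcon
    obtain ⟨A', B', hL, -, -, N, q', hq', hfin⟩ := hcon
    have hfin' : ∀ m, N ≤ m → ∀ r ≤ q', Yv (SS e) A' B' m r →
        ¬ imp (Yv (SS e) A B m) (X m) r := by
      intro m hm r hr hY hZ
      exact hfin r hr m hm hY ((hs m 0 r).2 hZ)
    have hcomp : Disjoint A' B ∧ Disjoint A B' := by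
      by_contra hcon
      obtain ⟨r, hr, m, hm, hY⟩ := Y_inf he A' B' hL q' N q' le_rfl
      refine hfin' m hm r hr hY (fun t ht hY' => ?_)
      exfalso
      apply hcon
      refine ⟨Finset.disjoint_left.2 fun β h3 h4 => ?_, Finset.disjoint_left.2 fun β h3 h4 => ?_⟩
      · exact hY'.2 β h4 t le_rfl ((SS_reg β m).mono ht (hY.1 β h3))
      · exact hY.2 β h4 t ht (hY'.1 β h3)
    have hFF : FFx e (A ∪ A'.filter (fun β => IsC e β)) (B ∪ B') := by
      refine ⟨?_, ?_, ?_⟩
      · rw [Finset.disjoint_union_left, Finset.disjoint_union_right, Finset.disjoint_union_right]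
        exact ⟨⟨hAB.1, hcomp.2⟩, hcomp.1.mono_left (Finset.filter_subset _ _),
          hL.1.mono_left (Finset.filter_subset _ _)⟩
      · intro β hβ
        rcases Finset.mem_union.1 hβ with h | h
        · exact hAB.2.1 β h
        · exact (Finset.mem_filter.1 h).2
      · intro β hβ
        rcases Finset.mem_union.1 hβ with h | h
        · exact hAB.2.2 β h
        · exact hL.2 β h
    obtain ⟨A₁, h4, h5, h6⟩ := dense_below_finset he (A'.filter (fun β => ¬ IsC e β)) _ _
      hFF (fun β hβ => (Finset.mem_filter.1 hβ).2)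
    refine ⟨q', hq'.trans hq, A₁, B ∪ B', h4, Finset.subset_union_left.trans h5,
      Finset.subset_union_left, Or.inr ⟨N, fun m hm r hr hY t ht hXt => ?_⟩⟩
    have hYt : Yv (SS e) A₁ (B ∪ B') m t := (Yv_reg _ _ m).mono ht hY
    refine hfin' m hm t (ht.trans hr) ⟨fun β hβ => ?_, fun β hβ =>
      hYt.2 β (Finset.mem_union_right _ hβ)⟩ (fun u hu _ => (hX m).mono hu hXt)
    by_cases hC : IsC e β
    · exact hYt.1 β (h5 (Finset.mem_union_right _ (Finset.mem_filter.2 ⟨hβ, hC⟩)))
    · exact h6 β (Finset.mem_filter.2 ⟨hβ, hC⟩) m t hYt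

omit [WellFoundedLT K] in
/-- Any number of ones can be added to the `α`-th Cohen real. -/
theorem many_ones (α : K) (q : Cohen K) (n : ℕ) : ∃ r ≤ q, ∃ N, ∀ s ≤ r, ∀ m, N ≤ m →
    n ≤ onesP s α m := by
  induction n with
  | zero => exact ⟨q, le_rfl, 0, fun _ _ _ _ => Nat.zero_le _⟩
  | succ n ih =>
    obtain ⟨r, hr, N, hN⟩ := ih
    obtain ⟨L, hL⟩ := exists_bound r α
    have hnone : r.fn (α, max L N) = none := hL _ (le_max_left _ _)
    have hle := upd_le r α (max L N) true hnone
    refine ⟨upd r α (max L N) true, hle.trans hr, max L N + 1, fun s hs m hm => ?_⟩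
    have h1 := hN s (hs.trans hle) (max L N) (le_max_right _ _)
    have h2 : s.fn (α, max L N) = some true := hs _ _ (upd_self r α _ true)
    refine le_trans ?_ (onesP_mono (le_refl s) α hm)
    unfold onesP at h1 ⊢
    rw [Finset.range_add_one, Finset.filter_insert, if_pos h2, Finset.card_insert_of_notMem]
    · omega
    · simp

/-- The P-set property, forced. -/
theorem core_P (he : Cofinal e) (D : ℕ → ℕ → Cohen K → Prop) (hD : ∀ m i, Reg (D m i)) :
    ∃ γ, ¬ IsC e γ ∧ ∀ p, (∀ i, FilF e (fun m => D m i) p) →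
      ∀ n, ∀ q ≤ p, ∃ r ≤ q, ∃ N, ∀ m, N ≤ m → imp (SS e γ m) (D m n) r := by
  obtain ⟨s, hs⟩ := exists_code D hD
  obtain ⟨γ, -, h2, h3⟩ := exists_stage he (Kind.P, s) ∅ (cs s) (cs_countable s)
  have hcode : (e γ).2 = s := by rw [h3]
  have hkind : (e γ).1 = Kind.P := by rw [h3]
  refine ⟨γ, ?_, fun p hp n q hq => ?_⟩
  · unfold IsC; rw [h3]; simp
  have hcond : condP e γ (SS e) p := by
    refine ⟨?_, fun A B hL _ _ n => ?_⟩
    · unfold Valid; rw [hcode]; exact h2
    · intro N q hq
      obtain ⟨r, hr, m, hm, hY, hX⟩ := fil_inf he (fil_all hp n) A B hL N q hq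
      refine ⟨r, hr, m, hm, hY, fun i hi => ?_⟩
      rw [hcode]
      exact (hs m i r).2 (hX i hi)
  obtain ⟨r, hr, N, hN⟩ := many_ones γ q n
  refine ⟨r, hr, N, fun m hm t ht hSt => ?_⟩
  rw [SS_eq] at hSt
  unfold step at hSt
  rw [hkind] at hSt
  have h4 := hSt t le_rfl ((condP_reg γ (SS e) (e := e)).mono ((ht.trans hr).trans hq) hcond)
  have h5 := h4.2 n t le_rfl (hN t ht m hm)
  rw [hcode] at h5
  exact (hs m n t).1 h5

/-- The Q-set property, forced. -/
theorem core_Q (he : Cofinal e) (E : ℕ → ℕ → Cohen K → Prop) (hE : ∀ m i, Reg (E m i)) :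
    ∃ γ, ¬ IsC e γ ∧ ∀ p, (∀ j, exi (fun N r => ∀ k, N ≤ k → neg (E j k) r) p) →
      ∀ m k, m < k → ∀ q ≤ p, SS e γ m q → SS e γ k q → ¬ E m k q := by
  obtain ⟨s, hs⟩ := exists_code E hE
  obtain ⟨γ, -, h2, h3⟩ := exists_stage he (Kind.Q, s) ∅ (cs s) (cs_countable s)
  have hcode : (e γ).2 = s := by rw [h3]
  have hkind : (e γ).1 = Kind.Q := by rw [h3]
  refine ⟨γ, ?_, fun p hp m k hmk q hq hm hk hEmk => ?_⟩
  · unfold IsC; rw [h3]; simp
  have hcond : condQ e γ p := by
    refine ⟨?_, fun j q hq => ?_⟩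
    · unfold Valid; rw [hcode]; exact h2
    · obtain ⟨r, hr, N, hN⟩ := hp j q hq
      refine ⟨r, hr, N, fun k hk t ht hev => hN k hk t ht ?_⟩
      rw [hcode] at hev
      exact (hs j k t).1 hev
  have hcond' := (condQ_reg γ (e := e)).mono hq hcond
  rw [SS_eq] at hm hk
  unfold step at hm hk
  rw [hkind] at hm hk
  have h4 := hm q le_rfl hcond'
  have h5 := hk q le_rfl hcond'
  have h6 : q.fn (γ, m) = some true := h4.1
  have h7 : q.fn (γ, m) = some false := h5.2 m hmk q le_rfl (by
    rw [hcode]; exact (hs m k q).2 hEmk)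
  rw [h6] at h7
  exact absurd h7 (by simp)

end Core

end Pool.Agent.helper60
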