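import Mathlib
import Pool.Agent.helper60.TruthValue

set_option autoImplicit false

/-!
# Forcing over the universe of sets

Names for a forcing poset, and the forcing relation for first-order formulas in the language of
set theory.
-/

open FirstOrder FirstOrder.Language

namespace Pool.Agent.helper60

/-- `P`-names: a name is a set (indexed by `ι`) of pairs (name, condition). -/
inductive Name (P : Type) : Type 1
  | mk (ι : Type) (x : ι → Name P) (c : ι → P) : Name P

section Atomic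

variable {P : Type} [Preorder P]

/-- `p ⊩ x = y`, for names `x = {(x i, a i) : i}` and `y = {(y j, b j) : j}`: every `x i` is forced
by each `q ≤ p, a i` to be equal to some `y j`, and vice versa. -/
def ForcesEq : Name P → Name P → P → Prop
  | .mk ι x a, .mk κ y b => fun p =>
    (∀ i : ι, ∀ q ≤ p, q ≤ a i → ∃ r ≤ q, ∃ j : κ, r ≤ b j ∧ ForcesEq (x i) (y j) r) ∧
    (∀ j : κ, ∀ q ≤ p, q ≤ b j → ∃ r ≤ q, ∃ i : ι, r ≤ a i ∧ ForcesEq (x i) (y j) r)

/-- `p ⊩ x ∈ y`, for `y = {(y j, b j) : j}`: the set of `r` such that for some `j`, `r ≤ b j` and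
`r ⊩ x = y j`, is dense below `p`. -/
def ForcesMem (x : Name P) : Name P → P → Prop
  | .mk κ y b => fun p => ∀ q ≤ p, ∃ r ≤ q, ∃ j : κ, r ≤ b j ∧ ForcesEq x (y j) r

theorem ForcesEq.mono {x y : Name P} {p q : P} (hq : q ≤ p) (h : ForcesEq x y p) :
    ForcesEq x y q := by
  obtain ⟨ι, x, a⟩ := x
  obtain ⟨κ, y, b⟩ := y
  exact ⟨fun i r hr => h.1 i r (hr.trans hq), fun j r hr => h.2 j r (hr.trans hq)⟩

theorem ForcesEq.reg (x y : Name P) : Reg (ForcesEq x y) := by
  refine ⟨fun h h' => h'.mono h, ?_⟩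
  obtain ⟨ι, x, a⟩ := x
  obtain ⟨κ, y, b⟩ := y
  intro p h
  refine ⟨fun i q hq hqi => ?_, fun j q hq hqj => ?_⟩
  · obtain ⟨r, hr, h'⟩ := h q hq
    obtain ⟨s, hs, h''⟩ := h'.1 i r le_rfl (hr.trans hqi)
    exact ⟨s, hs.trans hr, h''⟩
  · obtain ⟨r, hr, h'⟩ := h q hq
    obtain ⟨s, hs, h''⟩ := h'.2 j r le_rfl (hr.trans hqj)
    exact ⟨s, hs.trans hr, h''⟩

theorem ForcesEq.refl (x : Name P) (p : P) : ForcesEq x x p := by
  induction x generalizing p with
  | mk ι x a ih =>
    exact ⟨fun i q _ hqi => ⟨q, le_rfl, i, hqi, ih i q⟩,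
      fun i q _ hqi => ⟨q, le_rfl, i, hqi, ih i q⟩⟩

theorem ForcesEq.symm {x y : Name P} {p : P} (h : ForcesEq x y p) : ForcesEq y x p := by
  induction x generalizing y p with
  | mk ι x a ih =>
    obtain ⟨κ, y, b⟩ := y
    refine ⟨fun j q hq hqj => ?_, fun i q hq hqi => ?_⟩
    · obtain ⟨r, hr, i, hi, h'⟩ := h.2 j q hq hqj
      exact ⟨r, hr, i, hi, ih i h'⟩
    · obtain ⟨r, hr, j, hj, h'⟩ := h.1 i q hq hqi
      exact ⟨r, hr, j, hj, ih i h'⟩

theorem ForcesEq.trans {x y z : Name P} {p : P} (h : ForcesEq x y p) (h' : ForcesEq y z p) :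
    ForcesEq x z p := by
  induction x generalizing y z p with
  | mk ι x a ih =>
    obtain ⟨κ, y, b⟩ := y
    obtain ⟨l, z, c⟩ := z
    refine ⟨fun i q hq hqi => ?_, fun k q hq hqk => ?_⟩
    · obtain ⟨r, hr, j, hj, h1⟩ := h.1 i q hq hqi
      obtain ⟨s, hs, k, hk, h2⟩ := h'.1 j r (hr.trans hq) hj
      exact ⟨s, hs.trans hr, k, hk, ih i (h1.mono hs) h2⟩
    · obtain ⟨r, hr, j, hj, h1⟩ := h'.2 k q hq hqk
      obtain ⟨s, hs, i, hi, h2⟩ := h.2 j r (hr.trans hq) hj
      exact ⟨s, hs.trans hr, i, hi, ih i h2 (h1.mono hs)⟩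

theorem ForcesMem.reg (x y : Name P) : Reg (ForcesMem x y) := by
  obtain ⟨κ, y, b⟩ := y
  exact ⟨fun h h' r hr => h' r (hr.trans h), fun {p} h q hq => by
    obtain ⟨r, hr, h'⟩ := h q hq
    obtain ⟨s, hs, h''⟩ := h' r le_rfl
    exact ⟨s, hs.trans hr, h''⟩⟩

theorem ForcesMem.congr_left {x x' y : Name P} {p : P} (h : ForcesMem x y p)
    (hx : ForcesEq x x' p) : ForcesMem x' y p := by
  obtain ⟨κ, y, b⟩ := y
  intro q hq
  obtain ⟨r, hr, j, hj, h1⟩ := h q hq
  exact ⟨r, hr, j, hj, (hx.mono (hr.trans hq)).symm.trans h1⟩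

theorem ForcesMem.congr_right {x y y' : Name P} {p : P} (h : ForcesMem x y p)
    (hy : ForcesEq y y' p) : ForcesMem x y' p := by
  obtain ⟨κ, y, b⟩ := y
  obtain ⟨κ', y', b'⟩ := y'
  intro q hq
  obtain ⟨r, hr, j, hj, h1⟩ := h q hq
  obtain ⟨s, hs, j', hj', h2⟩ := hy.1 j r (hr.trans hq) hj
  exact ⟨s, hs.trans hr, j', hj', (h1.mono hs).trans h2⟩

theorem ForcesMem.mono {x y : Name P} {p q : P} (hq : q ≤ p) (h : ForcesMem x y p) :
    ForcesMem x y q := (ForcesMem.reg x y).mono hq h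

/-- Extensionality. -/
theorem ForcesEq.ext {x y : Name P} {p : P}
    (h1 : ∀ z, ∀ q ≤ p, ForcesMem z x q → ForcesMem z y q)
    (h2 : ∀ z, ∀ q ≤ p, ForcesMem z y q → ForcesMem z x q) : ForcesEq x y p := by
  obtain ⟨ι, x, a⟩ := x
  obtain ⟨κ, y, b⟩ := y
  refine ⟨fun i q hq hqi => ?_, fun j q hq hqj => ?_⟩
  · exact h1 (x i) q hq (fun r hr => ⟨r, le_rfl, i, hr.trans hqi, ForcesEq.refl _ _⟩) q le_rfl
  · obtain ⟨r, hr, i, hi, h⟩ := h2 (y j) q hq
      (fun r hr => ⟨r, le_rfl, j, hr.trans hqj, ForcesEq.refl _ _⟩) q le_rfl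
    exact ⟨r, hr, i, hi, h.symm⟩

end Atomic

/-! ## Formulas -/

/-- The non-logical symbols of set theory: one binary relation symbol. -/
inductive MemSymbol : ℕ → Type
  | mem : MemSymbol 2

/-- The first-order language of set theory. -/
def LSet : FirstOrder.Language.{0, 0} := ⟨fun _ => Empty, MemSymbol⟩

/-- The value of a term under an assignment; all terms are variables. -/
def tval {α : Type} {N : Type 1} {n : ℕ} (v : α → N) (xs : Fin n → N) :
    LSet.Term (α ⊕ Fin n) → N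
  | .var (Sum.inl a) => v a
  | .var (Sum.inr i) => xs i
  | .func f _ => Empty.elim f

section Forces

variable {P : Type} [Preorder P]

/-- The forcing relation `p ⊩ φ(v, xs)`. -/
def Forces {α : Type} : ∀ {n : ℕ}, LSet.BoundedFormula α n → (α → Name P) → (Fin n → Name P) →
    P → Prop
  | _, .falsum, _, _ => fun _ => False
  | _, .equal t₁ t₂, v, xs => ForcesEq (tval v xs t₁) (tval v xs t₂)
  | _, .rel R ts, v, xs => match R with
    | .mem => ForcesMem (tval v xs (ts 0)) (tval v xs (ts 1))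
  | _, .imp φ ψ, v, xs => fun p => ∀ q ≤ p, Forces φ v xs q → Forces ψ v xs q
  | _, .all φ, v, xs => fun p => ∀ x : Name P, Forces φ v (Fin.snoc xs x) p

theorem Forces.reg {α : Type} {n : ℕ} (φ : LSet.BoundedFormula α n) (v : α → Name P)
    (xs : Fin n → Name P) : Reg (Forces φ v xs) := by
  induction φ with
  | falsum => exact Reg.const False
  | equal t₁ t₂ => exact ForcesEq.reg _ _
  | rel R ts =>
    cases R with
    | mem => exact ForcesMem.reg _ _
  | imp φ ψ ih1 ih2 => exact Reg.imp (ih1 xs) (ih2 xs)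
  | all φ ih => exact Reg.all fun x => ih (Fin.snoc xs x)

theorem tval_congr {α : Type} {n : ℕ} {v : α → Name P} {xs ys : Fin n → Name P} {p : P}
    (h : ∀ i, ForcesEq (xs i) (ys i) p) (t : LSet.Term (α ⊕ Fin n)) :
    ForcesEq (tval v xs t) (tval v ys t) p := by
  cases t with
  | var a =>
    cases a with
    | inl a => exact ForcesEq.refl _ _
    | inr i => exact h i
  | func f _ => exact Empty.elim f

/-- Forced equal names satisfy the same formulas. -/
theorem Forces.congr {α : Type} {n : ℕ} (φ : LSet.BoundedFormula α n) (v : α → Name P)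
    {xs ys : Fin n → Name P} {p : P} (h : ∀ i, ForcesEq (xs i) (ys i) p) :
    Forces φ v xs p ↔ Forces φ v ys p := by
  suffices H : ∀ {xs ys : Fin n → Name P} {p : P}, (∀ i, ForcesEq (xs i) (ys i) p) →
      Forces φ v xs p → Forces φ v ys p from ⟨H h, H fun i => (h i).symm⟩
  clear h xs ys p
  induction φ with
  | falsum => exact fun _ h => h
  | equal t₁ t₂ =>
    intro xs ys p h h'
    exact ((tval_congr h t₁).symm.trans h').trans (tval_congr h t₂)
  | rel R ts =>
    intro xs ys p h h'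
    cases R with
    | mem => exact (ForcesMem.congr_left h' (tval_congr h _)).congr_right (tval_congr h _)
  | imp φ ψ ih1 ih2 =>
    intro xs ys p h h' q hq h1
    exact ih2 (fun i => (h i).mono hq) (h' q hq (ih1 (fun i => ((h i).mono hq).symm) h1))
  | all φ ih =>
    intro xs ys p h h' x
    refine ih (fun i => ?_) (h' x)
    refine Fin.lastCases ?_ (fun i => ?_) i
    · rw [Fin.snoc_last, Fin.snoc_last]
      exact ForcesEq.refl _ _
    · rw [Fin.snoc_castSucc, Fin.snoc_castSucc]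
      exact h i

end Forces

end Pool.Agent.helper60
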