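import Mathlib
import Pool.Agent.helper60.Forcing

set_option autoImplicit false

/-!
# The first-order sentence: there is a selective independent family

Formulas of the language of set theory with variables indexed by `Fin n`. Below a quantifier the
old variable `i` becomes `up i` and the newly bound variable is `nw`.
-/

open FirstOrder FirstOrder.Language

namespace Pool.Agent.helper60

/-- Formulas of the language of set theory in the variables `0, …, n - 1`. -/
abbrev Fm (n : ℕ) : Type := LSet.BoundedFormula Empty n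

/-- An old variable, seen under one more quantifier. -/
def up {n : ℕ} (i : Fin n) : Fin (n + 1) := i.castSucc

/-- The variable bound by the innermost quantifier. -/
def nw {n : ℕ} : Fin (n + 1) := Fin.last n

/-- `i ∈ j`. -/
def fMem {n : ℕ} (i j : Fin n) : Fm n :=
  BoundedFormula.rel (MemSymbol.mem : LSet.Relations 2)
    ![Term.var (Sum.inr i), Term.var (Sum.inr j)]

/-- `i = j`. -/
def fEq {n : ℕ} (i j : Fin n) : Fm n :=
  BoundedFormula.equal (Term.var (Sum.inr i)) (Term.var (Sum.inr j))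

/-- `∀ z ∈ j, φ(z)`. -/
def fBall {n : ℕ} (j : Fin n) (φ : Fm (n + 1)) : Fm n := ∀' (fMem nw (up j) ⟹ φ)

/-- `∃ z ∈ j, φ(z)`. -/
def fBex {n : ℕ} (j : Fin n) (φ : Fm (n + 1)) : Fm n := ∃' (fMem nw (up j) ⊓ φ)

/-- `i ⊆ j`. -/
def fSub {n : ℕ} (i j : Fin n) : Fm n := fBall i (fMem nw (up j))

/-- `i = ∅`. -/
def fEmpty {n : ℕ} (i : Fin n) : Fm n := ∀' ∼(fMem nw (up i))

/-- `z = y ∪ {a}`. -/
def fAdj {n : ℕ} (z y a : Fin n) : Fm n :=
  ∀' ((fMem nw (up z)) ⇔ (fMem nw (up y) ⊔ fEq nw (up a)))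

/-- `u` is inductive: `∅ ∈ u` and `x ∪ {x} ∈ u` for all `x ∈ u`. -/
def fInd {n : ℕ} (u : Fin n) : Fm n :=
  fBex u (fEmpty nw) ⊓ fBall u (fBex (up u) (fAdj nw (up nw) (up nw)))

/-- `w = ω`: `w` is the least inductive set. -/
def fOmega {n : ℕ} (w : Fin n) : Fm n := fInd w ⊓ ∀' (fInd nw ⟹ fSub (up w) nw)

/-- `A` is (Kuratowski) finite: `A` belongs to each `K` such that `∅ ∈ K` and `y ∪ {a} ∈ K` for all
`y ∈ K` and `a ∈ A`. -/
def fFin {n : ℕ} (A : Fin n) : Fm n :=
  ∀' ((fBex nw (fEmpty nw) ⊓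
    fBall nw (fBall (up (up A)) (fBex (up (up nw)) (fAdj nw (up (up nw)) (up nw))))) ⟹
    fMem (up A) nw)

/-- Infinitely many `m ∈ w` satisfy `φ(m)`: for all `k ∈ w` there is `m ∈ w` with `k ∈ m` and
`φ(m)`. (Here `w` is `ω`, and in `φ` the last variable is `m` and the one before is `k`.) -/
def fInfMany {n : ℕ} (w : Fin n) (φ : Fm (n + 2)) : Fm n :=
  fBall w (fBex (up w) (fMem (up nw) nw ⊓ φ))

/-- Only finitely many `m ∈ w` satisfy `φ(m)`: there is `k ∈ w` such that all `m ∈ w` with `φ(m)`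
satisfy `m ∈ k`. (Here `w` is `ω`, and in `φ` the last variable is `m` and the one before is
`k`.) -/
def fFinMany {n : ℕ} (w : Fin n) (φ : Fm (n + 2)) : Fm n :=
  fBex w (fBall (up w) (φ ⟹ fMem nw (up nw)))

/-- `x` is an infinite subset of `w` (`w` is `ω`). -/
def fInfSub {n : ℕ} (w x : Fin n) : Fm n :=
  fSub x w ⊓ fInfMany w (fMem nw (up (up x)))

/-- `m` belongs to the Boolean combination `I^h`, where `h⁻¹(0) = A` and `h⁻¹(1) = B`: `m` belongs
to all elements of `A` and to no element of `B`. -/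
def fComb {n : ℕ} (m A B : Fin n) : Fm n :=
  fBall A (fMem (up m) nw) ⊓ fBall B (∼(fMem (up m) nw))

/-- `(A, B)` codes a finite partial function `h : I → 2`, with `h⁻¹(0) = A` and `h⁻¹(1) = B`:
`A` and `B` are disjoint finite subsets of `I`. -/
def fFF {n : ℕ} (I A B : Fin n) : Fm n :=
  (fFin A ⊓ fFin B) ⊓ ((fSub A I ⊓ fSub B I) ⊓ fBall A (∼(fMem nw (up B))))

/-- `I` is an independent family of infinite subsets of `w` (`w` is `ω`). -/
def fIndep {n : ℕ} (w I : Fin n) : Fm n :=
  fBall I (fInfSub (up w) nw) ⊓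
  ∀' ∀' (fFF (up (up I)) (up nw) nw ⟹
    fInfMany (up (up w)) (fComb nw (up (up (up nw))) (up (up nw))))

/-- `I^h ∖ X` is finite, where `h` is coded by `(A, B)`. -/
def fAlm {n : ℕ} (w A B X : Fin n) : Fm n :=
  fFinMany w (fComb nw (up (up A)) (up (up B)) ⊓ ∼(fMem nw (up (up X))))

/-- `I^h ∩ X` is finite, where `h` is coded by `(A, B)`. -/
def fDis {n : ℕ} (w A B X : Fin n) : Fm n :=
  fFinMany w (fComb nw (up (up A)) (up (up B)) ⊓ fMem nw (up (up X)))

/-- `I` is densely maximal: for every infinite `X ⊆ w` and every `h ∈ FF(I)` there is `h' ⊇ h` in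
`FF(I)` such that `I^{h'} ∖ X` or `I^{h'} ∩ X` is finite. -/
def fDMax {n : ℕ} (w I : Fin n) : Fm n :=
  ∀' (fInfSub (up w) nw ⟹
    ∀' ∀' (fFF (up (up (up I))) (up nw) nw ⟹
      ∃' ∃' (fFF (up (up (up (up (up I))))) (up nw) nw ⊓
        ((fSub (up (up (up nw))) (up nw) ⊓ fSub (up (up nw)) nw) ⊓
          (fAlm (up (up (up (up (up w))))) (up nw) nw (up (up (up (up nw)))) ⊔
            fDis (up (up (up (up (up w))))) (up nw) nw (up (up (up (up nw)))))))))

/-- `X` belongs to the density filter `fil(I)`: `X ⊆ w` is infinite and every `h ∈ FF(I)` has an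
extension `h' ∈ FF(I)` with `I^{h'} ∖ X` finite. -/
def fFil {n : ℕ} (w I X : Fin n) : Fm n :=
  fInfSub w X ⊓
    ∀' ∀' (fFF (up (up I)) (up nw) nw ⟹
      ∃' ∃' (fFF (up (up (up (up I)))) (up nw) nw ⊓
        ((fSub (up (up (up nw))) (up nw) ⊓ fSub (up (up nw)) nw) ⊓
          fAlm (up (up (up (up w)))) (up nw) nw (up (up (up (up X)))))))

/-- `u = {x, y}`. -/
def fUpair {n : ℕ} (u x y : Fin n) : Fm n :=
  ∀' ((fMem nw (up u)) ⇔ (fEq nw (up x) ⊔ fEq nw (up y)))

/-- `z = (x, y)` is the Kuratowski ordered pair `{{x}, {x, y}}`. -/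
def fOpair {n : ℕ} (z x y : Fin n) : Fm n :=
  ∀' ((fMem nw (up z)) ⇔ (fUpair nw (up x) (up x) ⊔ fUpair nw (up x) (up y)))

/-- `(x, y) ∈ f`. -/
def fApp {n : ℕ} (f x y : Fin n) : Fm n := fBex f (fOpair nw (up x) (up y))

/-- `f` relates each element of `w` to at most one object, i.e. `f` is (as far as the elements of
`w` are concerned) a partial function on `w`. -/
def fPFun {n : ℕ} (w f : Fin n) : Fm n :=
  fBall w (∀' ∀' ((fApp (up (up (up f))) (up (up nw)) (up nw) ⊓
    fApp (up (up (up f))) (up (up nw)) nw) ⟹ fEq (up nw) nw))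

/-- `B ∖ Y` is finite, i.e. `B ⊆* Y`, for subsets of `w` (`w` is `ω`). -/
def fAst {n : ℕ} (w B Y : Fin n) : Fm n :=
  fFinMany w (fMem nw (up (up B)) ⊓ ∼(fMem nw (up (up Y))))

/-- `fil(I)` is a P-set: for each countable family of members of `fil(I)` (the values of a partial
function `f` on `w`) there is `B ∈ fil(I)` with `B ⊆* Y` for each member `Y` of the family. -/
def fPSet {n : ℕ} (w I : Fin n) : Fm n :=
  ∀' ((fPFun (up w) nw ⊓
      fBall (up w) (∀' (fApp (up (up nw)) (up nw) nw ⟹ fFil (up (up (up w))) (up (up (up I))) nw)))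
    ⟹ ∃' (fFil (up (up w)) (up (up I)) nw ⊓
      fBall (up (up w)) (∀' (fApp (up (up (up nw))) (up nw) nw ⟹
        fAst (up (up (up (up w)))) (up (up nw)) nw))))

/-- `u` is a finite (that is, bounded) subset of `w` (`w` is `ω`). -/
def fFinSub {n : ℕ} (w u : Fin n) : Fm n :=
  fSub u w ⊓ fFinMany w (fMem nw (up (up u)))

/-- `E` is a partition of `w` into finite sets: its members are finite subsets of `w`, every
`m ∈ w` belongs to some member, and any two members with a common element are equal. -/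
def fPart {n : ℕ} (w E : Fin n) : Fm n :=
  fBall E (fFinSub (up w) nw) ⊓ (fBall w (fBex (up E) (fMem (up nw) nw)) ⊓
    fBall E (fBall (up E) (fBex (up nw) (fMem nw (up nw)) ⟹ fEq (up nw) nw)))

/-- `fil(I)` is a Q-set: for each partition `E` of `w` into finite sets there is `A ∈ fil(I)` which
has at most one element in common with each member of `E`. -/
def fQSet {n : ℕ} (w I : Fin n) : Fm n :=
  ∀' (fPart (up w) nw ⟹ ∃' (fFil (up (up w)) (up (up I)) nw ⊓
    fBall (up nw) (fBall nw (fBall (up nw) ((fMem (up nw) (up (up (up nw))) ⊓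
      fMem nw (up (up (up nw)))) ⟹ fEq (up nw) nw)))))

/-- `I` is a selective independent family (`w` is `ω`): it is independent, densely maximal, and its
density filter is a P-set and a Q-set. -/
def fSel {n : ℕ} (w I : Fin n) : Fm n :=
  (fIndep w I ⊓ fDMax w I) ⊓ (fPSet w I ⊓ fQSet w I)

/-- The sentence: there is a selective independent family. -/
def selectiveSentence : LSet.Sentence :=
  ∃' ∃' (fOmega (up nw) ⊓ fSel (up nw) nw : Fm 2)

end Pool.Agent.helper60
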