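import Mathlib
import Pool.Agent.helper60.Formulas

set_option autoImplicit false

/-!
# Computing the forcing relation
-/

open FirstOrder FirstOrder.Language

namespace Pool.Agent.helper60

section Basic

variable {P : Type} [Preorder P] {n : ℕ} {v : Empty → Name P} {xs : Fin n → Name P} {p : P}

/-- Extension of an assignment. -/
def sn (xs : Fin n → Name P) (x : Name P) : Fin (n + 1) → Name P := Fin.snoc xs x

omit [Preorder P] in
@[simp] theorem sn_up (xs : Fin n → Name P) (x : Name P) (i : Fin n) : sn xs x (up i) = xs i :=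
  Fin.snoc_castSucc (α := fun _ => Name P) x xs i

omit [Preorder P] in
@[simp] theorem sn_nw (xs : Fin n → Name P) (x : Name P) : sn xs x nw = x :=
  Fin.snoc_last (α := fun _ => Name P) x xs

theorem forces_mem {i j : Fin n} : Forces (fMem i j) v xs p ↔ ForcesMem (xs i) (xs j) p := Iff.rfl

theorem forces_eq {i j : Fin n} : Forces (fEq i j) v xs p ↔ ForcesEq (xs i) (xs j) p := Iff.rfl

theorem forces_imp {φ ψ : Fm n} :
    Forces (φ ⟹ ψ) v xs p ↔ ∀ q ≤ p, Forces φ v xs q → Forces ψ v xs q := Iff.rfl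

theorem forces_all {φ : Fm (n + 1)} :
    Forces (∀' φ) v xs p ↔ ∀ x, Forces φ v (sn xs x) p := Iff.rfl

theorem forces_not {φ : Fm n} : Forces (∼φ) v xs p ↔ ∀ q ≤ p, ¬ Forces φ v xs q := Iff.rfl

theorem forces_and {φ ψ : Fm n} :
    Forces (φ ⊓ ψ) v xs p ↔ Forces φ v xs p ∧ Forces ψ v xs p := by
  have hφ := Forces.reg φ v xs
  have hψ := Forces.reg ψ v xs
  constructor
  · intro h
    have h' : ∀ q ≤ p, ¬ ∀ r ≤ q, Forces φ v xs r → ∀ s ≤ r, ¬ Forces ψ v xs s := h
    refine ⟨hφ.dense fun q hq => ?_, hψ.dense fun q hq => ?_⟩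
    · by_contra hcon
      exact h' q hq fun r hr h1 => absurd ⟨r, hr, h1⟩ hcon
    · by_contra hcon
      exact h' q hq fun r hr _ s hs h2 => hcon ⟨s, hs.trans hr, h2⟩
  · rintro ⟨h1, h2⟩ q hq h3
    exact h3 q le_rfl (hφ.mono hq h1) q le_rfl (hψ.mono hq h2)

theorem forces_or {φ ψ : Fm n} :
    Forces (φ ⊔ ψ) v xs p ↔ ∀ q ≤ p, ∃ r ≤ q, Forces φ v xs r ∨ Forces ψ v xs r := by
  have hφ := Forces.reg φ v xs
  have hψ := Forces.reg ψ v xs
  constructor
  · intro h q hq
    rcases hφ.em q with h1 | ⟨r, hr, h1⟩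
    · exact ⟨q, le_rfl, Or.inl h1⟩
    · exact ⟨r, hr, Or.inr (h r (hr.trans hq) h1)⟩
  · intro h q hq h1
    refine hψ.dense fun r hr => ?_
    obtain ⟨s, hs, h2 | h2⟩ := h r (hr.trans hq)
    · exact absurd h2 (h1 s (hs.trans hr))
    · exact ⟨s, hs, h2⟩

theorem forces_ex {φ : Fm (n + 1)} :
    Forces (∃' φ) v xs p ↔ ∀ q ≤ p, ∃ r ≤ q, ∃ x, Forces φ v (sn xs x) r := by
  constructor
  · intro h q hq
    have h' : ¬ ∀ x, ∀ r ≤ q, ¬ Forces φ v (sn xs x) r := h q hq
    push Not at h'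
    obtain ⟨x, r, hr, h1⟩ := h'
    exact ⟨r, hr, x, h1⟩
  · intro h q hq h'
    obtain ⟨r, hr, x, h1⟩ := h q hq
    exact h' x r hr h1

theorem forces_iff {φ ψ : Fm n} :
    Forces (φ ⇔ ψ) v xs p ↔ ∀ q ≤ p, (Forces φ v xs q ↔ Forces ψ v xs q) := by
  have h : Forces (φ ⇔ ψ) v xs p ↔ Forces (φ ⟹ ψ) v xs p ∧ Forces (ψ ⟹ φ) v xs p := forces_and
  rw [h, forces_imp, forces_imp]
  exact ⟨fun h q hq => ⟨h.1 q hq, h.2 q hq⟩, fun h => ⟨fun q hq => (h q hq).1,
    fun q hq => (h q hq).2⟩⟩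

theorem Forces.mono {φ : Fm n} {q : P} (hq : q ≤ p) (h : Forces φ v xs p) : Forces φ v xs q :=
  (Forces.reg φ v xs).mono hq h

theorem forces_ball {j : Fin n} {φ : Fm (n + 1)} :
    Forces (fBall j φ) v xs p ↔
      ∀ x, ∀ q ≤ p, ForcesMem x (xs j) q → Forces φ v (sn xs x) q := by
  unfold fBall
  rw [forces_all]
  refine forall_congr' fun x => ?_
  rw [forces_imp]
  refine forall_congr' fun q => forall_congr' fun _ => ?_
  rw [forces_mem, sn_up, sn_nw]

theorem forces_bex {j : Fin n} {φ : Fm (n + 1)} :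
    Forces (fBex j φ) v xs p ↔
      ∀ q ≤ p, ∃ r ≤ q, ∃ x, ForcesMem x (xs j) r ∧ Forces φ v (sn xs x) r := by
  unfold fBex
  rw [forces_ex]
  refine forall_congr' fun q => forall_congr' fun _ => exists_congr fun r =>
    and_congr_right fun _ => exists_congr fun x => ?_
  rw [forces_and, forces_mem, sn_up, sn_nw]

/-- Replace the last value of an assignment by a forced equal one. -/
theorem forces_sn_congr {φ : Fm (n + 1)} {x y : Name P} (h : ForcesEq x y p) :
    Forces φ v (sn xs x) p ↔ Forces φ v (sn xs y) p := by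
  refine Forces.congr φ v fun i => ?_
  refine Fin.lastCases ?_ (fun i => ?_) i
  · have h1 : sn xs x (Fin.last n) = x := sn_nw xs x
    have h2 : sn xs y (Fin.last n) = y := sn_nw xs y
    rw [h1, h2]
    exact h
  · have h1 : sn xs x i.castSucc = xs i := sn_up xs x i
    have h2 : sn xs y i.castSucc = xs i := sn_up xs y i
    rw [h1, h2]
    exact ForcesEq.refl _ _

theorem forces_sub {i j : Fin n} : Forces (fSub i j) v xs p ↔
    ∀ x, ∀ q ≤ p, ForcesMem x (xs i) q → ForcesMem x (xs j) q := by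
  unfold fSub
  rw [forces_ball]
  refine forall_congr' fun x => forall_congr' fun q => forall_congr' fun _ =>
    forall_congr' fun _ => ?_
  rw [forces_mem, sn_up, sn_nw]

end Basic

section Check

variable {P : Type} [Preorder P] [OrderTop P] {n : ℕ} {v : Empty → Name P} {xs : Fin n → Name P}
  {p : P}

/-- The name for the set of all values of `x` (with the weakest condition). -/
def ck {ι : Type} (x : ι → Name P) : Name P := Name.mk ι x (fun _ => ⊤)

theorem mem_ck {ι : Type} {x : ι → Name P} {z : Name P} :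
    ForcesMem z (ck x) p ↔ ∀ q ≤ p, ∃ r ≤ q, ∃ i, ForcesEq z (x i) r := by
  constructor
  · intro h q hq
    obtain ⟨r, hr, i, -, h'⟩ := h q hq
    exact ⟨r, hr, i, h'⟩
  · intro h q hq
    obtain ⟨r, hr, i, h'⟩ := h q hq
    exact ⟨r, hr, i, le_top, h'⟩

theorem mem_ck_self {ι : Type} (x : ι → Name P) (i : ι) (p : P) : ForcesMem (x i) (ck x) p :=
  mem_ck.2 fun q _ => ⟨q, le_rfl, i, ForcesEq.refl _ _⟩

theorem forces_ball_ck {ι : Type} {x : ι → Name P} {j : Fin n} (hj : xs j = ck x)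
    {φ : Fm (n + 1)} : Forces (fBall j φ) v xs p ↔ ∀ i, Forces φ v (sn xs (x i)) p := by
  rw [forces_ball, hj]
  constructor
  · intro h i
    exact h (x i) p le_rfl (mem_ck_self x i p)
  · intro h z q hq hz
    refine (Forces.reg φ v _).dense fun r hr => ?_
    obtain ⟨s, hs, i, h1⟩ := mem_ck.1 hz r hr
    exact ⟨s, hs, (forces_sn_congr h1).2 (Forces.mono ((hs.trans hr).trans hq) (h i))⟩

theorem forces_bex_ck {ι : Type} {x : ι → Name P} {j : Fin n} (hj : xs j = ck x)
    {φ : Fm (n + 1)} : Forces (fBex j φ) v xs p ↔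
      ∀ q ≤ p, ∃ r ≤ q, ∃ i, Forces φ v (sn xs (x i)) r := by
  rw [forces_bex, hj]
  constructor
  · intro h q hq
    obtain ⟨r, hr, z, hz, h1⟩ := h q hq
    obtain ⟨s, hs, i, h2⟩ := mem_ck.1 hz r le_rfl
    exact ⟨s, hs.trans hr, i, (forces_sn_congr h2).1 (Forces.mono hs h1)⟩
  · intro h q hq
    obtain ⟨r, hr, i, h1⟩ := h q hq
    exact ⟨r, hr, x i, mem_ck_self x i r, h1⟩

/-- The canonical names for the natural numbers. -/
def nat (P : Type) [Preorder P] [OrderTop P] (n : ℕ) : Name P :=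
  ck (fun i : Fin n => nat P i.1)
termination_by n
decreasing_by exact i.2

theorem nat_def (n : ℕ) : nat P n = ck (fun i : Fin n => nat P i.1) := by
  rw [nat]

theorem mem_nat {z : Name P} {n : ℕ} :
    ForcesMem z (nat P n) p ↔ ∀ q ≤ p, ∃ r ≤ q, ∃ i < n, ForcesEq z (nat P i) r := by
  rw [nat_def, mem_ck]
  refine forall_congr' fun q => forall_congr' fun _ => exists_congr fun r =>
    and_congr_right fun _ => ?_
  constructor
  · rintro ⟨i, hi⟩
    exact ⟨i.1, i.2, hi⟩
  · rintro ⟨i, h1, h2⟩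
    exact ⟨⟨i, h1⟩, h2⟩

theorem nat_mem_nat_of_lt {i j : ℕ} (h : i < j) (p : P) : ForcesMem (nat P i) (nat P j) p :=
  mem_nat.2 fun q _ => ⟨q, le_rfl, i, h, ForcesEq.refl _ _⟩

theorem not_nat_mem_self (n : ℕ) : ∀ p : P, ¬ ForcesMem (nat P n) (nat P n) p := by
  induction n using Nat.strong_induction_on with
  | _ n ih =>
    intro p h
    obtain ⟨r, hr, k, hk, h1⟩ := mem_nat.1 h p le_rfl
    exact ih k hk r ((nat_mem_nat_of_lt hk r).congr_right h1)

theorem nat_eq_nat {i j : ℕ} : ForcesEq (nat P i) (nat P j) p ↔ i = j := by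
  constructor
  · intro h
    rcases lt_trichotomy i j with h1 | h1 | h1
    · exact absurd ((nat_mem_nat_of_lt h1 p).congr_right h.symm) (not_nat_mem_self i p)
    · exact h1
    · exact absurd ((nat_mem_nat_of_lt h1 p).congr_right h) (not_nat_mem_self j p)
  · rintro rfl
    exact ForcesEq.refl _ _

theorem nat_mem_nat {i j : ℕ} : ForcesMem (nat P i) (nat P j) p ↔ i < j := by
  constructor
  · intro h
    obtain ⟨r, hr, k, hk, h1⟩ := mem_nat.1 h p le_rfl
    rw [nat_eq_nat.1 h1]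
    exact hk
  · exact fun h => nat_mem_nat_of_lt h p

/-- The canonical name for `ω`. -/
def om (P : Type) [Preorder P] [OrderTop P] : Name P := ck (nat P)

/-! ### The formula defining `ω` -/

theorem forces_empty {i : Fin n} :
    Forces (fEmpty i) v xs p ↔ ∀ z, ∀ q ≤ p, ¬ ForcesMem z (xs i) q := by
  unfold fEmpty
  rw [forces_all]
  refine forall_congr' fun x => ?_
  rw [forces_not]
  refine forall_congr' fun q => forall_congr' fun _ => ?_
  rw [forces_mem, sn_up, sn_nw]

theorem eq_of_empty {x y : Name P} (hx : ∀ z, ∀ q ≤ p, ¬ ForcesMem z x q)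
    (hy : ∀ z, ∀ q ≤ p, ¬ ForcesMem z y q) : ForcesEq x y p :=
  ForcesEq.ext (fun z q hq h => absurd h (hx z q hq)) (fun z q hq h => absurd h (hy z q hq))

theorem nat_zero_empty (p : P) : ∀ z, ∀ q ≤ p, ¬ ForcesMem z (nat P 0) q := by
  intro z q _ h
  obtain ⟨r, _, i, hi, _⟩ := mem_nat.1 h q le_rfl
  exact absurd hi (Nat.not_lt_zero i)

/-- Semantic form of `z = y ∪ {a}`. -/
def Adj (z y a : Name P) (p : P) : Prop :=
  ∀ t, ∀ q ≤ p, (ForcesMem t z q ↔ ∀ r ≤ q, ∃ s ≤ r, ForcesMem t y s ∨ ForcesEq t a s)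

theorem forces_adj {z y a : Fin n} :
    Forces (fAdj z y a) v xs p ↔ Adj (xs z) (xs y) (xs a) p := by
  unfold fAdj Adj
  rw [forces_all]
  refine forall_congr' fun x => ?_
  rw [forces_iff]
  refine forall_congr' fun q => forall_congr' fun _ => ?_
  rw [forces_mem, forces_or]
  simp only [forces_mem, forces_eq, sn_up, sn_nw]

theorem Adj.mono {z y a : Name P} {q : P} (hq : q ≤ p) (h : Adj z y a p) : Adj z y a q :=
  fun t r hr => h t r (hr.trans hq)

theorem Adj.unique {z z' y a : Name P} (h : Adj z y a p) (h' : Adj z' y a p) : ForcesEq z z' p :=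
  ForcesEq.ext (fun t q hq ht => (h' t q hq).2 ((h t q hq).1 ht))
    (fun t q hq ht => (h t q hq).2 ((h' t q hq).1 ht))

theorem adj_nat_succ (k : ℕ) (p : P) : Adj (nat P (k + 1)) (nat P k) (nat P k) p := by
  intro t q _
  constructor
  · intro h r hr
    obtain ⟨s, hs, i, hi, h1⟩ := mem_nat.1 h r hr
    refine ⟨s, hs, ?_⟩
    rcases Nat.lt_succ_iff_lt_or_eq.1 hi with h2 | h2
    · exact Or.inl ((nat_mem_nat_of_lt h2 s).congr_left h1.symm)
    · exact Or.inr (h2 ▸ h1)
  · intro h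
    refine (ForcesMem.reg _ _).dense fun r hr => ?_
    obtain ⟨s, hs, h1 | h1⟩ := h r hr
    · refine ⟨s, hs, mem_nat.2 fun r' hr' => ?_⟩
      obtain ⟨s', hs', i, hi, h2⟩ := mem_nat.1 h1 r' hr'
      exact ⟨s', hs', i, Nat.lt_succ_of_lt hi, h2⟩
    · exact ⟨s, hs, (nat_mem_nat_of_lt (Nat.lt_succ_self k) s).congr_left h1.symm⟩

theorem forces_ind {u : Fin n} : Forces (fInd u) v xs p ↔
    ((∀ q ≤ p, ∃ r ≤ q, ∃ x, ForcesMem x (xs u) r ∧ ∀ z, ∀ q ≤ r, ¬ ForcesMem z x q) ∧
    (∀ x, ∀ q ≤ p, ForcesMem x (xs u) q → ∀ r ≤ q, ∃ s ≤ r, ∃ y, ForcesMem y (xs u) s ∧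
      Adj y x x s)) := by
  unfold fInd
  rw [forces_and, forces_bex, forces_ball]
  simp only [forces_empty, forces_bex, forces_adj, sn_up, sn_nw]

/-- `om` is forced to be `ω`. -/
theorem forces_omega {w : Fin n} (hw : xs w = om P) : Forces (fOmega w) v xs p := by
  unfold fOmega
  rw [forces_and]
  constructor
  · rw [forces_ind, hw]
    constructor
    · intro q _
      exact ⟨q, le_rfl, nat P 0, mem_ck_self _ _ _, nat_zero_empty q⟩
    · intro x q _ hx r hr
      obtain ⟨s, hs, i, hi⟩ := mem_ck.1 hx r hr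
      refine ⟨s, hs, nat P (i + 1), mem_ck_self _ _ _, ?_⟩
      intro t q' hq'
      rw [adj_nat_succ i s t q' hq']
      refine forall_congr' fun r' => forall_congr' fun hr' => exists_congr fun s' =>
        and_congr_right fun hs' => ?_
      have h1 : ForcesEq x (nat P i) s' := hi.mono ((hs'.trans hr').trans hq')
      exact or_congr ⟨fun h => h.congr_right h1.symm, fun h => h.congr_right h1⟩
        ⟨fun h => h.trans h1.symm, fun h => h.trans h1⟩
  · rw [forces_all]
    intro u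
    rw [forces_imp]
    intro q _ hu
    rw [forces_ind] at hu
    rw [forces_sub]
    simp only [sn_up, sn_nw] at hu ⊢
    rw [hw]
    obtain ⟨h0, hs⟩ := hu
    have key : ∀ k, ForcesMem (nat P k) u q := by
      intro k
      induction k with
      | zero =>
        refine (ForcesMem.reg _ _).dense fun r hr => ?_
        obtain ⟨s, hs, x, hx, hemp⟩ := h0 r hr
        exact ⟨s, hs, hx.congr_left (eq_of_empty hemp (nat_zero_empty s))⟩
      | succ k ih =>
        refine (ForcesMem.reg _ _).dense fun r hr => ?_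
        obtain ⟨s, hs', y, hy, hadj⟩ := hs (nat P k) q le_rfl ih r hr
        exact ⟨s, hs', hy.congr_left (hadj.unique (adj_nat_succ k s))⟩
    intro x r hr hx
    refine (ForcesMem.reg _ _).dense fun r' hr' => ?_
    obtain ⟨s, hs', i, hi⟩ := mem_ck.1 hx r' hr'
    exact ⟨s, hs', ((key i).mono ((hs'.trans hr').trans hr)).congr_left hi.symm⟩

end Check

end Pool.Agent.helper60
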