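import Mathlib
import Pool.Agent.helper60.ForcesLemmas

set_option autoImplicit false

/-!
# Finite sets and finite partial functions in the forcing language
-/

open FirstOrder FirstOrder.Language

namespace Pool.Agent.helper60

section Fin

variable {P : Type} [Preorder P] [OrderTop P] {n : ℕ} {v : Empty → Name P} {xs : Fin n → Name P}
  {p : P} {κ : Type}

/-- The name of the finite set `{s β : β ∈ a}`. -/
def fs (s : κ → Name P) (a : Finset κ) : Name P := ck (fun β : {β // β ∈ a} => s β.1)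

/-- The name of the set `{s β : C β}`. -/
def famN (s : κ → Name P) (C : κ → Prop) : Name P := ck (fun β : {β // C β} => s β.1)

theorem mem_fs {s : κ → Name P} {a : Finset κ} {z : Name P} :
    ForcesMem z (fs s a) p ↔ ∀ q ≤ p, ∃ r ≤ q, ∃ β ∈ a, ForcesEq z (s β) r := by
  unfold fs
  rw [mem_ck]
  refine forall_congr' fun q => forall_congr' fun _ => exists_congr fun r =>
    and_congr_right fun _ => ?_
  constructor
  · rintro ⟨i, hi⟩
    exact ⟨i.1, i.2, hi⟩
  · rintro ⟨i, h1, h2⟩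
    exact ⟨⟨i, h1⟩, h2⟩

theorem mem_famN {s : κ → Name P} {C : κ → Prop} {z : Name P} :
    ForcesMem z (famN s C) p ↔ ∀ q ≤ p, ∃ r ≤ q, ∃ β, C β ∧ ForcesEq z (s β) r := by
  unfold famN
  rw [mem_ck]
  refine forall_congr' fun q => forall_congr' fun _ => exists_congr fun r =>
    and_congr_right fun _ => ?_
  constructor
  · rintro ⟨i, hi⟩
    exact ⟨i.1, i.2, hi⟩
  · rintro ⟨i, h1, h2⟩
    exact ⟨⟨i, h1⟩, h2⟩

theorem s_mem_fs (s : κ → Name P) {a : Finset κ} {β : κ} (h : β ∈ a) (p : P) :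
    ForcesMem (s β) (fs s a) p :=
  mem_fs.2 fun q _ => ⟨q, le_rfl, β, h, ForcesEq.refl _ _⟩

theorem s_mem_famN (s : κ → Name P) {C : κ → Prop} {β : κ} (h : C β) (p : P) :
    ForcesMem (s β) (famN s C) p :=
  mem_famN.2 fun q _ => ⟨q, le_rfl, β, h, ForcesEq.refl _ _⟩

theorem fs_empty (s : κ → Name P) (p : P) : ∀ z, ∀ q ≤ p, ¬ ForcesMem z (fs s ∅) q := by
  intro z q _ h
  obtain ⟨r, _, i, hi, _⟩ := mem_fs.1 h q le_rfl
  exact absurd hi (Finset.notMem_empty i)

open Classical in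
theorem adj_insert (s : κ → Name P) (a : Finset κ) (β : κ) (p : P) :
    Adj (fs s (insert β a)) (fs s a) (s β) p := by
  intro t q _
  constructor
  · intro h r hr
    obtain ⟨s', hs, i, hi, h1⟩ := mem_fs.1 h r hr
    refine ⟨s', hs, ?_⟩
    rcases Finset.mem_insert.1 hi with h2 | h2
    · exact Or.inr (h2 ▸ h1)
    · exact Or.inl ((s_mem_fs s h2 s').congr_left h1.symm)
  · intro h
    refine (ForcesMem.reg _ _).dense fun r hr => ?_
    obtain ⟨s', hs, h1 | h1⟩ := h r hr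
    · refine ⟨s', hs, mem_fs.2 fun r' hr' => ?_⟩
      obtain ⟨s'', hs', i, hi, h2⟩ := mem_fs.1 h1 r' hr'
      exact ⟨s'', hs', i, Finset.mem_insert_of_mem hi, h2⟩
    · exact ⟨s', hs, (s_mem_fs s (Finset.mem_insert_self β a) s').congr_left h1.symm⟩

/-- Semantic form of the closure condition in the definition of finiteness. -/
def KInd (K A : Name P) (q : P) : Prop :=
  (∀ r ≤ q, ∃ s ≤ r, ∃ x, ForcesMem x K s ∧ ∀ z, ∀ t ≤ s, ¬ ForcesMem z x t) ∧
  (∀ y, ∀ r ≤ q, ForcesMem y K r → ∀ a, ∀ r' ≤ r, ForcesMem a A r' → ∀ r'' ≤ r', ∃ s ≤ r'', ∃ z,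
    ForcesMem z K s ∧ Adj z y a s)

theorem forces_fin {A : Fin n} : Forces (fFin A) v xs p ↔
    ∀ K, ∀ q ≤ p, KInd K (xs A) q → ForcesMem (xs A) K q := by
  unfold fFin KInd
  rw [forces_all]
  refine forall_congr' fun K => ?_
  rw [forces_imp]
  refine forall_congr' fun q => forall_congr' fun _ => ?_
  simp only [forces_and, forces_bex, forces_ball, forces_adj, forces_empty, forces_mem, sn_up,
    sn_nw]

theorem fin_fs (s : κ → Name P) (a : Finset κ) {A : Fin n} (hA : xs A = fs s a) :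
    Forces (fFin A) v xs p := by
  classical
  rw [forces_fin, hA]
  intro K q _ hK
  have key : ∀ b : Finset κ, b ⊆ a → ForcesMem (fs s b) K q := by
    intro b
    induction b using Finset.induction_on with
    | empty =>
      intro _
      refine (ForcesMem.reg _ _).dense fun r hr => ?_
      obtain ⟨t, ht, x, hx, hemp⟩ := hK.1 r hr
      exact ⟨t, ht, hx.congr_left (eq_of_empty hemp (fs_empty s t))⟩
    | insert β b hβ ih =>
      intro hb
      refine (ForcesMem.reg _ _).dense fun r hr => ?_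
      obtain ⟨t, ht, z, hz, hadj⟩ := hK.2 (fs s b) q le_rfl
        (ih ((Finset.subset_insert β b).trans hb)) (s β) q le_rfl
        (s_mem_fs s (hb (Finset.mem_insert_self β b)) q) r hr
      exact ⟨t, ht, hz.congr_left (hadj.unique (adj_insert s b β t))⟩
  exact key a subset_rfl

theorem eq_fs_of_fin (s : κ → Name P) (C : κ → Prop) {A : Name P}
    (hfin : ∀ K, ∀ q ≤ p, KInd K A q → ForcesMem A K q)
    (hsub : ∀ z, ∀ q ≤ p, ForcesMem z A q → ForcesMem z (famN s C) q) :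
    ∀ q ≤ p, ∃ r ≤ q, ∃ a : Finset κ, (∀ β ∈ a, C β) ∧ ForcesEq A (fs s a) r := by
  classical
  let K : Name P := ck (fun a : {a : Finset κ // ∀ β ∈ a, C β} => fs s a.1)
  have hK : KInd K A p := by
    constructor
    · intro r _
      exact ⟨r, le_rfl, fs s ∅, mem_ck_self (fun a : {a : Finset κ // ∀ β ∈ a, C β} => fs s a.1)
        ⟨∅, by simp⟩ r, fs_empty s r⟩
    · intro y r hr hy a r' hr' ha r'' hr''
      obtain ⟨t, ht, b, hb⟩ := mem_ck.1 hy r'' (hr''.trans hr')
      obtain ⟨u, hu, β, hβ, hβ'⟩ := mem_famN.1 (hsub a r' (hr'.trans hr) ha) t (ht.trans hr'')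
      have hcl : ∀ γ ∈ insert β b.1, C γ := by
        intro γ hγ
        rcases Finset.mem_insert.1 hγ with h | h
        · rw [h]; exact hβ
        · exact b.2 γ h
      refine ⟨u, hu.trans ht, fs s (insert β b.1), mem_ck_self
        (fun a : {a : Finset κ // ∀ β ∈ a, C β} => fs s a.1) ⟨insert β b.1, hcl⟩ u, ?_⟩
      intro z q hq
      rw [adj_insert s b.1 β u z q hq]
      refine forall_congr' fun w => forall_congr' fun hw => exists_congr fun w' =>
        and_congr_right fun hw' => ?_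
      have h1 : ForcesEq y (fs s b.1) w' := hb.mono (((hw'.trans hw).trans hq).trans hu)
      have h2 : ForcesEq a (s β) w' := hβ'.mono ((hw'.trans hw).trans hq)
      exact or_congr ⟨fun h => h.congr_right h1.symm, fun h => h.congr_right h1⟩
        ⟨fun h => h.trans h2.symm, fun h => h.trans h2⟩
  intro q hq
  obtain ⟨r, hr, a, ha⟩ := mem_ck.1 (hfin K p le_rfl hK) q hq
  exact ⟨r, hr, a.1, a.2, ha⟩

/-- Index level finite partial functions. -/
def FFk (C : κ → Prop) (a b : Finset κ) : Prop :=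
  Disjoint a b ∧ (∀ β ∈ a, C β) ∧ ∀ β ∈ b, C β

/-- Different indices give forced different names. -/
def InjN (s : κ → Name P) (C : κ → Prop) : Prop :=
  ∀ β γ, C β → C γ → ∀ p : P, ForcesEq (s β) (s γ) p → β = γ

theorem forces_FF_iff {I A B : Fin n} : Forces (fFF I A B) v xs p ↔
    (((∀ K, ∀ q ≤ p, KInd K (xs A) q → ForcesMem (xs A) K q) ∧
      (∀ K, ∀ q ≤ p, KInd K (xs B) q → ForcesMem (xs B) K q)) ∧
    (((∀ z, ∀ q ≤ p, ForcesMem z (xs A) q → ForcesMem z (xs I) q) ∧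
      (∀ z, ∀ q ≤ p, ForcesMem z (xs B) q → ForcesMem z (xs I) q)) ∧
      ∀ z, ∀ q ≤ p, ForcesMem z (xs A) q → ∀ r ≤ q, ¬ ForcesMem z (xs B) r)) := by
  unfold fFF
  simp only [forces_and, forces_fin, forces_sub, forces_ball, forces_not, forces_mem, sn_up, sn_nw]

theorem FF_of_FFk {s : κ → Name P} {C : κ → Prop} (hs : InjN s C) {a b : Finset κ}
    (h : FFk C a b) {I A B : Fin n} (hI : xs I = famN s C) (hA : xs A = fs s a)
    (hB : xs B = fs s b) : Forces (fFF I A B) v xs p := by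
  rw [forces_FF_iff]
  refine ⟨⟨forces_fin.1 (fin_fs (v := v) s a hA), forces_fin.1 (fin_fs (v := v) s b hB)⟩,
    ⟨⟨?_, ?_⟩, ?_⟩⟩
  · rw [hA, hI]
    intro z q _ hz
    refine mem_famN.2 fun r hr => ?_
    obtain ⟨t, ht, β, hβ, h1⟩ := mem_fs.1 hz r hr
    exact ⟨t, ht, β, h.2.1 β hβ, h1⟩
  · rw [hB, hI]
    intro z q _ hz
    refine mem_famN.2 fun r hr => ?_
    obtain ⟨t, ht, β, hβ, h1⟩ := mem_fs.1 hz r hr
    exact ⟨t, ht, β, h.2.2 β hβ, h1⟩
  · rw [hA, hB]
    intro z q _ hz r hr hz'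
    obtain ⟨t, ht, β, hβ, h1⟩ := mem_fs.1 hz r hr
    obtain ⟨u, hu, γ, hγ, h2⟩ := mem_fs.1 hz' t ht
    have h3 := hs β γ (h.2.1 β hβ) (h.2.2 γ hγ) u ((h1.mono hu).symm.trans h2)
    exact Finset.disjoint_left.1 h.1 hβ (h3 ▸ hγ)

theorem FFk_of_FF {s : κ → Name P} {C : κ → Prop} {I A B : Fin n}
    (hI : xs I = famN s C) (h : Forces (fFF I A B) v xs p) :
    ∀ q ≤ p, ∃ r ≤ q, ∃ a b, FFk C a b ∧ ForcesEq (xs A) (fs s a) r ∧
      ForcesEq (xs B) (fs s b) r := by
  rw [forces_FF_iff, hI] at h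
  intro q hq
  obtain ⟨r, hr, a, ha, hA⟩ := eq_fs_of_fin s C h.1.1 h.2.1.1 q hq
  obtain ⟨t, ht, b, hb, hB⟩ := eq_fs_of_fin s C h.1.2 h.2.1.2 r (hr.trans hq)
  refine ⟨t, ht.trans hr, a, b, ⟨?_, ha, hb⟩, hA.mono ht, hB⟩
  rw [Finset.disjoint_left]
  intro β hβ hβ'
  have h1 : ForcesMem (s β) (xs A) t := (s_mem_fs s hβ t).congr_right (hA.mono ht).symm
  have h2 : ForcesMem (s β) (xs B) t := (s_mem_fs s hβ' t).congr_right hB.symm
  exact h.2.2 (s β) t ((ht.trans hr).trans hq) h1 t le_rfl h2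

theorem forces_sn2_congr {φ : Fm (n + 2)} {x y x' y' : Name P} (h : ForcesEq x x' p)
    (h' : ForcesEq y y' p) :
    Forces φ v (sn (sn xs x) y) p ↔ Forces φ v (sn (sn xs x') y') p := by
  refine (forces_sn_congr h').trans ?_
  refine Forces.congr φ v fun i => ?_
  refine Fin.lastCases ?_ (fun i => ?_) i
  · have h1 : sn (sn xs x) y' (Fin.last (n + 1)) = y' := sn_nw _ _
    have h2 : sn (sn xs x') y' (Fin.last (n + 1)) = y' := sn_nw _ _
    rw [h1, h2]
    exact ForcesEq.refl _ _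
  · have h1 : sn (sn xs x) y' i.castSucc = sn xs x i := sn_up _ _ _
    have h2 : sn (sn xs x') y' i.castSucc = sn xs x' i := sn_up _ _ _
    rw [h1, h2]
    refine Fin.lastCases ?_ (fun i => ?_) i
    · have h1 : sn xs x (Fin.last n) = x := sn_nw xs x
      have h2 : sn xs x' (Fin.last n) = x' := sn_nw xs x'
      rw [h1, h2]
      exact h
    · have h1 : sn xs x i.castSucc = xs i := sn_up xs x i
      have h2 : sn xs x' i.castSucc = xs i := sn_up xs x' i
      rw [h1, h2]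
      exact ForcesEq.refl _ _

theorem forces_all_FF {s : κ → Name P} {C : κ → Prop} (hs : InjN s C) {I : Fin n}
    (hI : xs I = famN s C) {φ : Fm (n + 2)} :
    Forces (∀' ∀' (fFF (up (up I)) (up nw) nw ⟹ φ)) v xs p ↔
      ∀ a b, FFk C a b → Forces φ v (sn (sn xs (fs s a)) (fs s b)) p := by
  rw [forces_all]
  constructor
  · intro h a b hab
    have h1 := h (fs s a)
    rw [forces_all] at h1
    have h2 := h1 (fs s b)
    rw [forces_imp] at h2
    exact h2 p le_rfl (FF_of_FFk hs hab (by simpa using hI) (by simp) (by simp))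
  · intro h A
    rw [forces_all]
    intro B
    rw [forces_imp]
    intro q hq hFF
    refine (Forces.reg _ _ _).dense fun r hr => ?_
    obtain ⟨t, ht, a, b, hab, hA, hB⟩ := FFk_of_FF (s := s) (C := C) (by simpa using hI) hFF r hr
    simp only [sn_up, sn_nw] at hA hB
    exact ⟨t, ht, (forces_sn2_congr hA hB).2 (Forces.mono ((ht.trans hr).trans hq) (h a b hab))⟩

theorem forces_ex_FF {s : κ → Name P} {C : κ → Prop} (hs : InjN s C) {I : Fin n}
    (hI : xs I = famN s C) {φ : Fm (n + 2)} :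
    Forces (∃' ∃' (fFF (up (up I)) (up nw) nw ⊓ φ)) v xs p ↔
      ∀ q ≤ p, ∃ r ≤ q, ∃ a b, FFk C a b ∧ Forces φ v (sn (sn xs (fs s a)) (fs s b)) r := by
  rw [forces_ex]
  constructor
  · intro h q hq
    obtain ⟨r, hr, A, h1⟩ := h q hq
    rw [forces_ex] at h1
    obtain ⟨t, ht, B, h2⟩ := h1 r le_rfl
    rw [forces_and] at h2
    obtain ⟨u, hu, a, b, hab, hA, hB⟩ := FFk_of_FF (s := s) (C := C) (by simpa using hI) h2.1 t
      le_rfl
    simp only [sn_up, sn_nw] at hA hB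
    exact ⟨u, (hu.trans ht).trans hr, a, b, hab, (forces_sn2_congr hA hB).1
      (Forces.mono hu h2.2)⟩
  · intro h q hq
    obtain ⟨r, hr, a, b, hab, h1⟩ := h q hq
    refine ⟨r, hr, fs s a, ?_⟩
    rw [forces_ex]
    intro t ht
    refine ⟨t, le_rfl, fs s b, ?_⟩
    rw [forces_and]
    exact ⟨FF_of_FFk hs hab (by simpa using hI) (by simp) (by simp), Forces.mono ht h1⟩

end Fin

end Pool.Agent.helper60
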