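import Mathlib
import Pool.Agent.helper60.ForcesFinite
import Pool.Agent.helper60.CohenCore

set_option autoImplicit false

/-!
# The Cohen poset forces a selective independent family
-/

open FirstOrder FirstOrder.Language

namespace Pool.Agent.helper60

section General

variable {P : Type} [Preorder P] [OrderTop P] {n : ℕ} {v : Empty → Name P} {xs : Fin n → Name P}
  {p : P}

theorem forces_infMany {w : Fin n} (hw : xs w = om P) {φ : Fm (n + 2)} :
    Forces (fInfMany w φ) v xs p ↔ ∀ N, ∀ q ≤ p, ∃ r ≤ q, ∃ m, N < m ∧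
      Forces φ v (sn (sn xs (nat P N)) (nat P m)) r := by
  unfold fInfMany
  rw [forces_ball_ck (x := nat P) hw]
  refine forall_congr' fun N => ?_
  rw [forces_bex_ck (x := nat P) (by rw [sn_up]; exact hw)]
  refine forall_congr' fun q => forall_congr' fun _ => exists_congr fun r =>
    and_congr_right fun _ => exists_congr fun m => ?_
  rw [forces_and, forces_mem, sn_up, sn_nw, sn_nw, nat_mem_nat]

theorem forces_finMany {w : Fin n} (hw : xs w = om P) {φ : Fm (n + 2)} :
    Forces (fFinMany w φ) v xs p ↔ ∀ q ≤ p, ∃ r ≤ q, ∃ N, ∀ m, ∀ t ≤ r,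
      Forces φ v (sn (sn xs (nat P N)) (nat P m)) t → m < N := by
  unfold fFinMany
  rw [forces_bex_ck (x := nat P) hw]
  refine forall_congr' fun q => forall_congr' fun _ => exists_congr fun r =>
    and_congr_right fun _ => exists_congr fun N => ?_
  rw [forces_ball_ck (x := nat P) (by rw [sn_up]; exact hw)]
  refine forall_congr' fun m => ?_
  rw [forces_imp]
  refine forall_congr' fun t => forall_congr' fun _ => forall_congr' fun _ => ?_
  rw [forces_mem, sn_up, sn_nw, sn_nw, nat_mem_nat]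

/-- The truth values of `m ∈ x`. -/
def Xm (x : Name P) (m : ℕ) : P → Prop := ForcesMem (nat P m) x

theorem Xm_reg (x : Name P) (m : ℕ) : Reg (Xm x m) := ForcesMem.reg _ _

/-- `x` is forced to be a subset of `ω`. -/
def SubOm (x : Name P) (p : P) : Prop := ∀ z, ∀ q ≤ p, ForcesMem z x q → ForcesMem z (om P) q

theorem forces_infSub {w x : Fin n} (hw : xs w = om P) :
    Forces (fInfSub w x) v xs p ↔ SubOm (xs x) p ∧ infi (Xm (xs x)) p := by
  unfold fInfSub
  rw [forces_and, forces_sub, hw, forces_infMany hw]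
  refine and_congr Iff.rfl ?_
  unfold infi exi Xm
  simp only [forces_mem, sn_up, sn_nw]
  constructor
  · intro h N q hq
    obtain ⟨r, hr, m, hm, h'⟩ := h N q hq
    exact ⟨r, hr, m, hm.le, h'⟩
  · intro h N q hq
    obtain ⟨r, hr, m, hm, h'⟩ := h (N + 1) q hq
    exact ⟨r, hr, m, hm, h'⟩

/-- The nice name with given truth values. -/
def nn (W : ℕ → P → Prop) : Name P :=
  Name.mk (Σ m : ℕ, {p : P // W m p}) (fun i => nat P i.1) (fun i => i.2.1)

theorem Xm_nn {W : ℕ → P → Prop} {m : ℕ} (hW : Reg (W m)) : Xm (nn W) m p ↔ W m p := by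
  constructor
  · intro h
    refine hW.dense fun q hq => ?_
    obtain ⟨r, hr, ⟨k, c⟩, h1, h2⟩ := h q hq
    have h3 : m = k := nat_eq_nat.1 h2
    subst h3
    exact ⟨r, hr, hW.mono h1 c.2⟩
  · intro h q hq
    exact ⟨q, le_rfl, ⟨m, ⟨q, hW.mono hq h⟩⟩, le_rfl, ForcesEq.refl _ _⟩

theorem nn_subOm (W : ℕ → P → Prop) (p : P) : SubOm (nn W) p := by
  intro z q _ hz
  refine mem_ck.2 fun r hr => ?_
  obtain ⟨t, ht, ⟨k, c⟩, -, h2⟩ := hz r hr
  exact ⟨t, ht, k, h2⟩

theorem forces_comb {κ : Type} {s : κ → Name P} {a b : Finset κ} {m A B : Fin n}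
    (hA : xs A = fs s a) (hB : xs B = fs s b) :
    Forces (fComb m A B) v xs p ↔ (∀ β ∈ a, ForcesMem (xs m) (s β) p) ∧
      ∀ β ∈ b, ∀ q ≤ p, ¬ ForcesMem (xs m) (s β) q := by
  unfold fComb
  rw [forces_and, forces_ball_ck (x := fun β : {β // β ∈ a} => s β.1) hA,
    forces_ball_ck (x := fun β : {β // β ∈ b} => s β.1) hB]
  simp only [forces_mem, forces_not, sn_up, sn_nw, Subtype.forall]

/-! ### Ordered pairs -/

/-- Semantic form of `u = {x, y}`. -/
def UpS (u x y : Name P) (p : P) : Prop :=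
  ∀ t, ∀ q ≤ p, (ForcesMem t u q ↔ ∀ r ≤ q, ∃ s ≤ r, ForcesEq t x s ∨ ForcesEq t y s)

/-- Semantic form of `z = (x, y)`. -/
def OpS (z x y : Name P) (p : P) : Prop :=
  ∀ t, ∀ q ≤ p, (ForcesMem t z q ↔ ∀ r ≤ q, ∃ s ≤ r, UpS t x x s ∨ UpS t x y s)

/-- Semantic form of `(x, y) ∈ f`. -/
def AppS (f x y : Name P) (p : P) : Prop :=
  ∀ q ≤ p, ∃ r ≤ q, ∃ z, ForcesMem z f r ∧ OpS z x y r

omit [OrderTop P] in
theorem forces_app {f x y : Fin n} :
    Forces (fApp f x y) v xs p ↔ AppS (xs f) (xs x) (xs y) p := by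
  unfold fApp fOpair fUpair AppS OpS UpS
  simp only [forces_bex, forces_all, forces_iff, forces_or, forces_mem, forces_eq, sn_up, sn_nw]

omit [OrderTop P] in
theorem AppS.mono {f x y : Name P} {q : P} (hq : q ≤ p) (h : AppS f x y p) : AppS f x y q :=
  fun r hr => h r (hr.trans hq)

theorem forces_ast {w B Y : Fin n} (hw : xs w = om P) :
    Forces (fAst w B Y) v xs p ↔ ∀ q ≤ p, ∃ r ≤ q, ∃ N, ∀ m, N ≤ m →
      imp (Xm (xs B) m) (Xm (xs Y) m) r := by
  unfold fAst
  rw [forces_finMany hw]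
  refine forall_congr' fun q => forall_congr' fun _ => exists_congr fun r =>
    and_congr_right fun _ => exists_congr fun N => ?_
  have key : ∀ m t, Forces (fMem nw (up (up B)) ⊓ ∼(fMem nw (up (up Y)))) v
      (sn (sn xs (nat _ N)) (nat _ m)) t ↔ Xm (xs B) m t ∧ neg (Xm (xs Y) m) t := by
    intro m t
    rw [forces_and, forces_not]
    simp only [sn_nw, sn_up, forces_mem]
    rfl
  constructor
  · intro h m hm t ht hB
    rcases (Xm_reg (xs Y) m).em t with h1 | ⟨u, hu, h1⟩
    · exact h1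
    · exact absurd (h m u (hu.trans ht) ((key m u).2 ⟨(Xm_reg _ m).mono hu hB, h1⟩))
        (not_lt.2 hm)
  · intro h m t ht hF
    rw [key] at hF
    by_contra hcon
    exact hF.2 t le_rfl (h m (not_lt.1 hcon) t ht hF.1)

end General

section Cohen

variable {K : Type} [LinearOrder K] [WellFoundedLT K] {e : K → Kind × Cohen.Code K}
  {n : ℕ} {v : Empty → Name (Cohen K)} {xs : Fin n → Name (Cohen K)} {p : Cohen K}

/-- The names of the members of the family. -/
noncomputable def sN (e : K → Kind × Cohen.Code K) (β : K) : Name (Cohen K) := nn (SS e β)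

/-- The name of the selective independent family. -/
noncomputable def famI (e : K → Kind × Cohen.Code K) : Name (Cohen K) := famN (sN e) (IsC e)

theorem mem_sN {β : K} {m : ℕ} : ForcesMem (nat (Cohen K) m) (sN e β) p ↔ SS e β m p :=
  Xm_nn (SS_reg β m)

theorem comb_iff {a b : Finset K} {m : ℕ} :
    ((∀ β ∈ a, ForcesMem (nat (Cohen K) m) (sN e β) p) ∧
      ∀ β ∈ b, ∀ q ≤ p, ¬ ForcesMem (nat (Cohen K) m) (sN e β) q) ↔ Yv (SS e) a b m p := by
  unfold Yv neg
  simp only [mem_sN]

theorem injN (he : Cofinal e) : InjN (sN e) (IsC e) := by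
  intro β γ _ hγ p h
  by_contra hne
  obtain ⟨r, hr, m, _, h1, h2⟩ := Y_inf he {β} {γ} ⟨by simpa using hne, by simpa using hγ⟩ p 0 p
    le_rfl
  have h3 : ForcesMem (nat (Cohen K) m) (sN e β) r := mem_sN.2 (h1 β (Finset.mem_singleton_self β))
  exact h2 γ (Finset.mem_singleton_self γ) r le_rfl (mem_sN.1 (h3.congr_right (h.mono hr)))

theorem subset_of_forces {a a' : Finset K} (he : Cofinal e) (ha : ∀ β ∈ a, IsC e β)
    (ha' : ∀ β ∈ a', IsC e β)
    (h : ∀ z, ∀ q ≤ p, ForcesMem z (fs (sN e) a) q → ForcesMem z (fs (sN e) a') q) : a ⊆ a' := by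
  intro β hβ
  obtain ⟨r, _, γ, hγ, h1⟩ := mem_fs.1 (h (sN e β) p le_rfl (s_mem_fs _ hβ p)) p le_rfl
  have := injN he β γ (ha β hβ) (ha' γ hγ) r h1
  rw [this]
  exact hγ

omit [WellFoundedLT K] [LinearOrder K] in
theorem forces_of_subset {s : K → Name (Cohen K)} {a a' : Finset K} (h : a ⊆ a') :
    ∀ z, ∀ q ≤ p, ForcesMem z (fs s a) q → ForcesMem z (fs s a') q := by
  intro z q _ hz
  refine mem_fs.2 fun r hr => ?_
  obtain ⟨t, ht, β, hβ, h1⟩ := mem_fs.1 hz r hr
  exact ⟨t, ht, β, h hβ, h1⟩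

/-- Forcing of the statement that `I^h ∖ X` is finite. -/
theorem forces_alm {w A B X : Fin n} (hw : xs w = om _) {a b : Finset K}
    (hA : xs A = fs (sN e) a) (hB : xs B = fs (sN e) b) :
    Forces (fAlm w A B X) v xs p ↔ ∀ q ≤ p, ∃ r ≤ q, ∃ N, ∀ m, N ≤ m →
      imp (Yv (SS e) a b m) (Xm (xs X) m) r := by
  unfold fAlm
  rw [forces_finMany hw]
  refine forall_congr' fun q => forall_congr' fun _ => exists_congr fun r =>
    and_congr_right fun _ => exists_congr fun N => ?_
  have key : ∀ m t, Forces (fComb nw (up (up A)) (up (up B)) ⊓ ∼(fMem nw (up (up X)))) v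
      (sn (sn xs (nat _ N)) (nat _ m)) t ↔ Yv (SS e) a b m t ∧ neg (Xm (xs X) m) t := by
    intro m t
    rw [forces_and, forces_comb (s := sN e) (a := a) (b := b) (by simpa using hA)
      (by simpa using hB), forces_not]
    simp only [sn_nw, sn_up, forces_mem]
    rw [comb_iff]
    rfl
  constructor
  · intro h m hm t ht hY
    rcases (Xm_reg (xs X) m).em t with h1 | ⟨u, hu, h1⟩
    · exact h1
    · exact absurd (h m u (hu.trans ht) ((key m u).2 ⟨(Yv_reg a b m).mono hu hY, h1⟩))
        (not_lt.2 hm)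
  · intro h m t ht hF
    rw [key] at hF
    by_contra hcon
    exact hF.2 t le_rfl (h m (not_lt.1 hcon) t ht hF.1)

/-- Forcing of the statement that `I^h ∩ X` is finite. -/
theorem forces_dis {w A B X : Fin n} (hw : xs w = om _) {a b : Finset K}
    (hA : xs A = fs (sN e) a) (hB : xs B = fs (sN e) b) :
    Forces (fDis w A B X) v xs p ↔ ∀ q ≤ p, ∃ r ≤ q, ∃ N, ∀ m, N ≤ m →
      imp (Yv (SS e) a b m) (neg (Xm (xs X) m)) r := by
  unfold fDis
  rw [forces_finMany hw]
  refine forall_congr' fun q => forall_congr' fun _ => exists_congr fun r =>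
    and_congr_right fun _ => exists_congr fun N => ?_
  have key : ∀ m t, Forces (fComb nw (up (up A)) (up (up B)) ⊓ fMem nw (up (up X))) v
      (sn (sn xs (nat _ N)) (nat _ m)) t ↔ Yv (SS e) a b m t ∧ Xm (xs X) m t := by
    intro m t
    rw [forces_and, forces_comb (s := sN e) (a := a) (b := b) (by simpa using hA)
      (by simpa using hB)]
    simp only [sn_nw, sn_up, forces_mem]
    rw [comb_iff]
    rfl
  constructor
  · intro h m hm t ht hY u hu hX
    exact absurd (h m u (hu.trans ht) ((key m u).2 ⟨(Yv_reg a b m).mono hu hY, hX⟩))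
      (not_lt.2 hm)
  · intro h m t ht hF
    rw [key] at hF
    by_contra hcon
    exact h m (not_lt.1 hcon) t ht hF.1 t le_rfl hF.2

/-- Forcing of membership in the density filter. -/
theorem forces_fil (he : Cofinal e) {w I X : Fin n} (hw : xs w = om _) (hI : xs I = famI e) :
    Forces (fFil w I X) v xs p ↔ SubOm (xs X) p ∧ infi (Xm (xs X)) p ∧ FilF e (Xm (xs X)) p := by
  unfold fFil
  rw [forces_and, forces_infSub hw, and_assoc, forces_all_FF (injN he) hI]
  refine and_congr_right fun _ => and_congr_right fun _ => ?_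
  unfold FilF
  constructor
  · intro h A B hAB q hq
    have h1 := h A B ⟨hAB.1, hAB.2.1, hAB.2.2⟩
    rw [forces_ex_FF (injN he) (by simp only [sn_up]; exact hI)] at h1
    obtain ⟨r, hr, a, b, hab, h2⟩ := h1 q hq
    rw [forces_and, forces_and, forces_sub, forces_sub,
      forces_alm (a := a) (b := b) (e := e) (by simpa using hw) (by simp) (by simp)] at h2
    simp only [sn_up, sn_nw] at h2
    obtain ⟨⟨h3, h4⟩, h5⟩ := h2
    obtain ⟨t, ht, N, h6⟩ := h5 r le_rfl
    exact ⟨t, ht.trans hr, a, b, hab, subset_of_forces he hAB.2.1 hab.2.1 h3,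
      subset_of_forces he hAB.2.2 hab.2.2 h4, N, h6⟩
  · intro h A B hAB
    rw [forces_ex_FF (injN he) (by simp only [sn_up]; exact hI)]
    intro q hq
    obtain ⟨r, hr, a, b, hab, h3, h4, N, h5⟩ := h A B ⟨hAB.1, hAB.2.1, hAB.2.2⟩ q hq
    refine ⟨r, hr, a, b, hab, ?_⟩
    rw [forces_and, forces_and, forces_sub, forces_sub,
      forces_alm (a := a) (b := b) (e := e) (by simpa using hw) (by simp) (by simp)]
    simp only [sn_up, sn_nw]
    refine ⟨⟨forces_of_subset h3, forces_of_subset h4⟩, fun t ht => ⟨t, le_rfl, N, fun m hm u hu =>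
      h5 m hm u (hu.trans ht)⟩⟩

theorem forces_indep (he : Cofinal e) {w I : Fin n} (hw : xs w = om _) (hI : xs I = famI e) :
    Forces (fIndep w I) v xs p := by
  unfold fIndep
  rw [forces_and]
  constructor
  · rw [forces_ball_ck (x := fun β : {β // IsC e β} => sN e β.1) hI]
    rintro ⟨β, hβ⟩
    rw [forces_infSub (by simpa using hw)]
    simp only [sn_nw]
    refine ⟨nn_subOm _ _, ?_⟩
    intro N q hq
    obtain ⟨r, hr, m, hm, h⟩ := SS_inf he β p N q hq
    exact ⟨r, hr, m, hm, mem_sN.2 h⟩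
  · rw [forces_all_FF (injN he) hI]
    intro a b hab
    rw [forces_infMany (by simpa using hw)]
    intro N q hq
    obtain ⟨r, hr, m, hm, h⟩ := Y_inf he a b ⟨hab.1, hab.2.2⟩ p (N + 1) q hq
    refine ⟨r, hr, m, hm, ?_⟩
    rw [forces_comb (s := sN e) (a := a) (b := b) (by simp) (by simp)]
    simp only [sn_nw]
    exact comb_iff.2 h

theorem forces_dmax (he : Cofinal e) {w I : Fin n} (hw : xs w = om _) (hI : xs I = famI e) :
    Forces (fDMax w I) v xs p := by
  unfold fDMax
  rw [forces_all]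
  intro X
  rw [forces_imp]
  intro q _ _
  rw [forces_all_FF (injN he) (by simp only [sn_up]; exact hI)]
  intro a b hab
  rw [forces_ex_FF (injN he) (by simp only [sn_up]; exact hI)]
  intro r _
  obtain ⟨t, ht, a', b', hab', h1, h2, h3⟩ := dense_max he (Xm X) (Xm_reg X) a b
    ⟨hab.1, hab.2.1, hab.2.2⟩ r
  refine ⟨t, ht, a', b', hab', ?_⟩
  rw [forces_and, forces_and, forces_sub, forces_sub, forces_or]
  simp only [sn_up, sn_nw]
  refine ⟨⟨forces_of_subset h1, forces_of_subset h2⟩, fun u hu => ⟨u, le_rfl, ?_⟩⟩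
  rw [forces_alm (a := a') (b := b') (e := e) (by simpa using hw) (by simp) (by simp),
    forces_dis (a := a') (b := b') (e := e) (by simpa using hw) (by simp) (by simp)]
  simp only [sn_up, sn_nw]
  rcases h3 with ⟨N, h3⟩ | ⟨N, h3⟩
  · exact Or.inl fun u' hu' => ⟨u', le_rfl, N, fun m hm z hz => h3 m hm z
      ((hz.trans hu').trans hu)⟩
  · exact Or.inr fun u' hu' => ⟨u', le_rfl, N, fun m hm z hz => h3 m hm z
      ((hz.trans hu').trans hu)⟩

theorem Xm_sN (β : K) : Xm (sN e β) = SS e β := by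
  funext m p
  exact propext (mem_sN (p := p))

theorem forces_fil_sN (he : Cofinal e) {w I X : Fin n} (hw : xs w = om _) (hI : xs I = famI e)
    {γ : K} (hγ : ¬ IsC e γ) (hX : xs X = sN e γ) : Forces (fFil w I X) v xs p := by
  rw [forces_fil he hw hI, hX, Xm_sN]
  exact ⟨nn_subOm _ _, SS_inf he γ p, SS_fil he hγ p⟩

theorem forces_pset (he : Cofinal e) {w I : Fin n} (hw : xs w = om _) (hI : xs I = famI e) :
    Forces (fPSet w I) v xs p := by
  unfold fPSet
  rw [forces_all]
  intro f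
  rw [forces_imp]
  intro q _ hf
  rw [forces_and] at hf
  obtain ⟨hfun, hfil⟩ := hf
  -- semantic form of the hypotheses
  have hfun' : ∀ k y y', ∀ r ≤ q, AppS f (nat _ k) y r → AppS f (nat _ k) y' r →
      ForcesEq y y' r := by
    unfold fPFun at hfun
    rw [forces_ball_ck (x := nat _) (by simp only [sn_up]; exact hw)] at hfun
    intro k y y' r hr h1 h2
    have h3 := hfun k
    rw [forces_all] at h3
    have h4 := h3 y
    rw [forces_all] at h4
    have h5 := h4 y'
    rw [forces_imp] at h5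
    have h6 := h5 r hr
    rw [forces_and, forces_app, forces_app, forces_eq] at h6
    simp only [sn_up, sn_nw] at h6
    exact h6 ⟨h1, h2⟩
  have hfil' : ∀ k y, ∀ r ≤ q, AppS f (nat _ k) y r → FilF e (Xm y) r := by
    rw [forces_ball_ck (x := nat _) (by simp only [sn_up]; exact hw)] at hfil
    intro k y r hr h1
    have h3 := hfil k
    rw [forces_all] at h3
    have h4 := h3 y
    rw [forces_imp] at h4
    have h5 := h4 r hr
    rw [forces_app, forces_fil he (by simp only [sn_up]; exact hw)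
      (by simp only [sn_up]; exact hI)] at h5
    simp only [sn_up, sn_nw] at h5
    exact (h5 h1).2.2
  -- the matrix of the countable family
  let D : ℕ → ℕ → Cohen K → Prop := fun m k r => ∀ y, imp (AppS f (nat _ k) y) (Xm y m) r
  have hD : ∀ m k, Reg (D m k) := fun m k => Reg.all fun y => imp_reg
    (fun h h' => AppS.mono h h') (Xm_reg y m)
  obtain ⟨γ, hγ, hprop⟩ := core_P he D hD
  have hDfil : ∀ k, FilF e (fun m => D m k) q := by
    intro k A B hAB r hr
    by_cases hex : ∃ t ≤ r, ∃ y, AppS f (nat _ k) y t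
    · obtain ⟨t, ht, y, hy⟩ := hex
      have h1 : FilF e (fun m => D m k) t := by
        refine fil_mono (hfil' k y t (ht.trans hr) hy) (fun m u hu hX y' u' hu' hy' => ?_)
        have h2 := hfun' k y y' u' (((hu'.trans hu).trans ht).trans hr)
          (hy.mono (hu'.trans hu)) hy'
        exact ((Xm_reg y m).mono hu' hX).congr_right h2
      obtain ⟨r', hr', h2⟩ := h1 A B hAB t le_rfl
      exact ⟨r', hr'.trans ht, h2⟩
    · refine ⟨r, le_rfl, A, B, hAB, subset_rfl, subset_rfl, 0, fun m _ t ht _ y u hu hy => ?_⟩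
      exact absurd ⟨u, hu.trans ht, y, hy⟩ hex
  rw [forces_ex]
  intro r hr
  refine ⟨r, le_rfl, sN e γ, ?_⟩
  rw [forces_and]
  constructor
  · exact forces_fil_sN he (by simp only [sn_up]; exact hw) (by simp only [sn_up]; exact hI) hγ
      (by simp only [sn_nw])
  · rw [forces_ball_ck (x := nat _) (by simp only [sn_up]; exact hw)]
    intro k
    rw [forces_all]
    intro y
    rw [forces_imp]
    intro t ht happ
    rw [forces_app] at happ
    simp only [sn_up, sn_nw] at happ
    rw [forces_ast (by simp only [sn_up]; exact hw)]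
    simp only [sn_up, sn_nw]
    intro u hu
    obtain ⟨u', hu', N, h1⟩ := hprop q hDfil k u ((hu.trans ht).trans hr)
    refine ⟨u', hu', N, fun m hm z hz hX => ?_⟩
    rw [Xm_sN] at hX
    exact h1 m hm z hz hX y z le_rfl (happ.mono ((hz.trans hu').trans hu))

theorem forces_qset (he : Cofinal e) {w I : Fin n} (hw : xs w = om _) (hI : xs I = famI e) :
    Forces (fQSet w I) v xs p := by
  unfold fQSet
  rw [forces_all]
  intro E
  rw [forces_imp]
  intro q _ hE
  unfold fPart at hE
  rw [forces_and, forces_and] at hE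
  obtain ⟨h1, h2, h3⟩ := hE
  have hfin : ∀ u, ∀ r ≤ q, ForcesMem u E r → SubOm u r ∧
      ∀ t ≤ r, ∃ t' ≤ t, ∃ N, ∀ m, ∀ z ≤ t', Xm u m z → m < N := by
    intro u r hr hu
    rw [forces_ball] at h1
    have h4 := h1 u r hr (by simp only [sn_nw]; exact hu)
    unfold fFinSub at h4
    rw [forces_and, forces_sub, forces_finMany (by simp only [sn_up]; exact hw)] at h4
    simp only [sn_up, sn_nw, forces_mem] at h4
    rw [hw] at h4
    exact h4
  have hcov : ∀ m, ∀ r ≤ q, ∃ t ≤ r, ∃ u, ForcesMem u E t ∧ Xm u m t := by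
    intro m r hr
    rw [forces_ball_ck (x := nat _) (by simp only [sn_up]; exact hw)] at h2
    have h4 := h2 m
    rw [forces_bex] at h4
    obtain ⟨t, ht, u, hu, hmu⟩ := h4 r hr
    simp only [sn_up, sn_nw, forces_mem] at hu hmu
    exact ⟨t, ht, u, hu, hmu⟩
  have hdisj : ∀ u u' j, ∀ r ≤ q, ForcesMem u E r → ForcesMem u' E r → Xm u j r → Xm u' j r →
      ForcesEq u u' r := by
    intro u u' j r hr hu hu' hj hj'
    rw [forces_ball] at h3
    have h4 := h3 u r hr (by simp only [sn_nw]; exact hu)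
    rw [forces_ball] at h4
    have h5 := h4 u' r le_rfl (by simp only [sn_nw, sn_up]; exact hu')
    rw [forces_imp] at h5
    have h6 := h5 r le_rfl
    rw [forces_bex, forces_eq] at h6
    simp only [sn_up, sn_nw, forces_mem] at h6
    exact h6 fun t ht => ⟨t, le_rfl, nat _ j, (Xm_reg u j).mono ht hj, (Xm_reg u' j).mono ht hj'⟩
  let EE : ℕ → ℕ → Cohen K → Prop := fun j k =>
    exi (fun (u : Name (Cohen K)) r => ForcesMem u E r ∧ Xm u j r ∧ Xm u k r)
  have hEE : ∀ j k, Reg (EE j k) := fun j k => Reg.exi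
  obtain ⟨γ, hγ, hprop⟩ := core_Q he EE hEE
  have hcl : ∀ j, exi (fun N r => ∀ k, N ≤ k → neg (EE j k) r) q := by
    intro j r hr
    obtain ⟨t, ht, u, hu, hj⟩ := hcov j r hr
    obtain ⟨t', ht', N, hN⟩ := (hfin u t (ht.trans hr) hu).2 t le_rfl
    refine ⟨t', ht'.trans ht, N, fun k hk z hz hjk => ?_⟩
    obtain ⟨z', hz', u', hu', hj', hk'⟩ := hjk z le_rfl
    have hle : z' ≤ t := (hz'.trans hz).trans ht'
    have h4 := hdisj u u' j z' (hle.trans (ht.trans hr)) (hu.mono hle) hu'
      ((Xm_reg u j).mono hle hj) hj'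
    have h5 : Xm u k z' := ForcesMem.congr_right hk' h4.symm
    exact absurd (hN k z' (hz'.trans hz) h5) (not_lt.2 hk)
  rw [forces_ex]
  intro r hr
  refine ⟨r, le_rfl, sN e γ, ?_⟩
  rw [forces_and]
  constructor
  · exact forces_fil_sN he (by simp only [sn_up]; exact hw) (by simp only [sn_up]; exact hI) hγ
      (by simp only [sn_nw])
  · rw [forces_ball]
    intro u t ht hu
    simp only [sn_up, sn_nw] at hu
    rw [forces_ball]
    intro z1 t1 ht1 hz1
    simp only [sn_up, sn_nw] at hz1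
    rw [forces_ball]
    intro z2 t2 ht2 hz2
    simp only [sn_up, sn_nw] at hz2
    rw [forces_imp]
    intro t3 ht3 hA
    rw [forces_and] at hA
    simp only [sn_up, sn_nw, forces_mem] at hA
    rw [forces_eq]
    simp only [sn_up, sn_nw]
    refine (ForcesEq.reg _ _).dense fun t4 ht4 => ?_
    obtain ⟨t5, ht5, m, hm⟩ := mem_ck.1 (nn_subOm (SS e γ) t3 z1 t3 le_rfl hA.1) t4 ht4
    obtain ⟨t6, ht6, k, hk⟩ := mem_ck.1 (nn_subOm (SS e γ) t3 z2 t3 le_rfl hA.2) t5
      (ht5.trans ht4)
    refine ⟨t6, ht6.trans ht5, ?_⟩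
    have hm6 : ForcesEq z1 (nat _ m) t6 := hm.mono ht6
    have hle3 : t6 ≤ t3 := (ht6.trans ht5).trans ht4
    have hmA : SS e γ m t6 := mem_sN.1 ((hA.1.mono hle3).congr_left hm6)
    have hkA : SS e γ k t6 := mem_sN.1 ((hA.2.mono hle3).congr_left hk)
    have hmu : Xm u m t6 := (hz1.mono ((hle3.trans ht3).trans ht2)).congr_left hm6
    have hku : Xm u k t6 := (hz2.mono (hle3.trans ht3)).congr_left hk
    have huE : ForcesMem u E t6 := hu.mono (((hle3.trans ht3).trans ht2).trans ht1)
    have hq6 : t6 ≤ q := ((((hle3.trans ht3).trans ht2).trans ht1).trans ht).trans hr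
    have hmk : EE m k t6 := fun z hz => ⟨z, le_rfl, u, huE.mono hz, (Xm_reg u m).mono hz hmu,
      (Xm_reg u k).mono hz hku⟩
    have hkm : EE k m t6 := fun z hz => ⟨z, le_rfl, u, huE.mono hz, (Xm_reg u k).mono hz hku,
      (Xm_reg u m).mono hz hmu⟩
    rcases lt_trichotomy m k with h4 | h4 | h4
    · exact absurd hmk (hprop q hcl m k h4 t6 hq6 hmA hkA)
    · exact hm6.trans (h4 ▸ hk.symm)
    · exact absurd hkm (hprop q hcl k m h4 t6 hq6 hkA hmA)

/-- The Cohen poset forces that there is a selective independent family. -/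
theorem forces_selective (he : Cofinal e) (v : Empty → Name (Cohen K))
    (xs : Fin 0 → Name (Cohen K)) (p : Cohen K) : Forces selectiveSentence v xs p := by
  have h : Forces (∃' ∃' (fOmega (up nw) ⊓ fSel (up nw) nw : Fm 2)) v xs p := by
    rw [forces_ex]
    intro q _
    refine ⟨q, le_rfl, om _, ?_⟩
    rw [forces_ex]
    intro r _
    refine ⟨r, le_rfl, famI e, ?_⟩
    have hw : sn (sn xs (om (Cohen K))) (famI e) (up nw) = om _ := by simp
    have hI : sn (sn xs (om (Cohen K))) (famI e) nw = famI e := by simp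
    unfold fSel
    rw [forces_and, forces_and, forces_and, forces_and]
    exact ⟨forces_omega hw, ⟨forces_indep he hw hI, forces_dmax he hw hI⟩,
      forces_pset he hw hI, forces_qset he hw hI⟩
  exact h

end Cohen

end Pool.Agent.helper60
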