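import Mathlib
import Pool.Agent.helper60.CohenModel

set_option autoImplicit false

/-!
# Cardinal arithmetic for the Cohen model
-/

open Cardinal Set

namespace Pool.Agent.helper60

/-- A countable subset of the initial ordinal of a cardinal `c` with `c ^ ℵ₀ = c` is bounded. -/
theorem exists_bound_of_countable {c : Cardinal.{0}} (hcof : ℵ₀ < c.ord.cof)
    (C : Set c.ord.ToType) (hC : C.Countable) : ∃ a, ∀ b ∈ C, b < a := by
  have h1 : ¬ IsCofinal C := by
    intro h
    have h2 := Order.cof_le h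
    rw [Ordinal.cof_toType] at h2
    exact absurd (hcof.trans_le h2) (not_lt.2 hC.le_aleph0)
  unfold IsCofinal at h1
  push Not at h1
  exact h1

theorem mk_cohen (K : Type) (hK : ℵ₀ ≤ #K) : #(Cohen K) ≤ #K := by
  classical
  have : Infinite K := infinite_iff.2 hK
  let f : Cohen K → Finset ((K × ℕ) × Bool) := fun p =>
    p.fin.toFinset.image (fun x => (x, (p.fn x).getD false))
  have hf : Function.Injective f := by
    intro p q h
    refine Cohen.ext' fun x => ?_
    have key : ∀ (p : Cohen K) (x : K × ℕ) (b : Bool), (x, b) ∈ f p ↔ p.fn x = some b := by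
      intro p x b
      simp only [f, Finset.mem_image, Set.Finite.mem_toFinset, Set.mem_ofPred_eq, Prod.mk.injEq]
      constructor
      · rintro ⟨y, hy, rfl, hb⟩
        obtain ⟨b', hb'⟩ := Option.ne_none_iff_exists'.1 hy
        rw [hb'] at hb ⊢
        simpa using hb
      · intro h
        exact ⟨x, by rw [h]; simp, rfl, by rw [h]; rfl⟩
    cases hp : p.fn x with
    | some b =>
      have := (key p x b).2 hp
      rw [h] at this
      exact ((key q x b).1 this).symm
    | none =>
      cases hq : q.fn x with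
      | none => rfl
      | some b =>
        have := (key q x b).2 hq
        rw [← h] at this
        rw [(key p x b).1 this] at hp
        exact absurd hp (by simp)
  refine (mk_le_of_injective hf).trans ?_
  rw [mk_finset_of_infinite]
  simp only [mk_prod, lift_id, mk_nat, mk_bool]
  rw [mul_aleph0_eq hK]
  exact (Cardinal.mul_eq_left hK (((natCast_lt_aleph0 (n := 2)).le).trans hK) (by simp)).le

theorem mk_items (K : Type) (hK : ℵ₀ ≤ #K) (hpow : #K ^ (ℵ₀ : Cardinal.{0}) = #K) :
    #(K × (Kind × Cohen.Code K)) = #K := by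
  have h1 : #(Cohen.Code K) ≤ #K := by
    have h2 : #(Option (ℕ × ℕ × Cohen K)) ≤ #K := by
      rw [mk_option]
      simp only [mk_prod, lift_id, mk_nat]
      have h3 : (ℵ₀ : Cardinal.{0}) * (ℵ₀ * #(Cohen K)) ≤ #K := by
        calc (ℵ₀ : Cardinal.{0}) * (ℵ₀ * #(Cohen K)) ≤ #K * (#K * #K) := by
              gcongr
              exact mk_cohen K hK
          _ = #K := by rw [mul_eq_self hK, mul_eq_self hK]
      calc (ℵ₀ : Cardinal.{0}) * (ℵ₀ * #(Cohen K)) + 1 ≤ #K + #K := by
            gcongr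
            exact one_le_aleph0.trans hK
        _ = #K := add_eq_self hK
    calc #(Cohen.Code K) = #(Option (ℕ × ℕ × Cohen K)) ^ (ℵ₀ : Cardinal.{0}) := by
          rw [mk_arrow]; simp
      _ ≤ #K ^ (ℵ₀ : Cardinal.{0}) := power_le_power_right h2
      _ = #K := hpow
  have hKind : #Kind ≤ ℵ₀ := by
    have : Function.Injective (fun k : Kind => match k with
      | Kind.C => (0 : ℕ)
      | Kind.P => 1
      | Kind.Q => 2) := by
      intro a b h
      cases a <;> cases b <;> simp_all
    have := mk_le_of_injective this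
    simpa using this
  refine le_antisymm ?_ ?_
  · simp only [mk_prod, lift_id]
    calc #K * (#Kind * #(Cohen.Code K)) ≤ #K * (#K * #K) := by
          gcongr
          exact hKind.trans hK
      _ = #K := by rw [mul_eq_self hK, mul_eq_self hK]
  · exact mk_le_of_injective (f := fun k => (k, (Kind.C, fun _ => none)))
      (fun a b h => (Prod.mk.inj h).1)

/-- A well-order and an enumeration suitable for the construction. -/
theorem exists_setup (K : Type) (hK : ℵ₀ ≤ #K) (hpow : #K ^ (ℵ₀ : Cardinal.{0}) = #K) :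
    ∃ (_ : LinearOrder K) (_ : WellFoundedLT K) (e : K → Kind × Cohen.Code K), Cofinal e := by
  have hcof : ℵ₀ < (#K).ord.cof := by
    by_contra hcon
    have h1 := lt_power_cof_ord hK
    have h2 : #K ^ (#K).ord.cof ≤ #K ^ (ℵ₀ : Cardinal.{0}) :=
      power_le_power_left (by
        intro h
        rw [h] at hK
        exact absurd hK (not_le.2 aleph0_pos)) (not_lt.1 hcon)
    rw [hpow] at h2
    exact absurd h1 (not_lt.2 h2)
  obtain ⟨φ⟩ := Cardinal.eq.1 (mk_ord_toType (#K)).symm
  let lo : LinearOrder K := LinearOrder.lift' φ φ.injective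
  have hlt : ∀ a b : K, a < b ↔ φ a < φ b := fun a b => Iff.rfl
  have hwf : WellFoundedLT K := ⟨InvImage.wf φ (wellFounded_lt (α := (#K).ord.ToType))⟩
  obtain ⟨ψ⟩ := Cardinal.eq.1 (mk_items K hK hpow)
  refine ⟨lo, hwf, fun γ => (ψ.symm γ).2, ?_⟩
  intro it C hC
  obtain ⟨a, ha⟩ := exists_bound_of_countable hcof (φ '' C) (hC.image φ)
  by_contra hcon
  push Not at hcon
  have hle : ∀ k : K, φ (ψ (k, it)) ≤ a := by
    intro k
    by_contra h
    refine hcon (ψ (k, it)) (fun β hβ => ?_) (by simp)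
    exact (hlt _ _).2 ((ha _ (Set.mem_image_of_mem φ hβ)).trans (not_le.1 h))
  have hinj : Function.Injective (fun k : K => (⟨φ (ψ (k, it)), hle k⟩ : Set.Iic a)) := by
    intro k k' h
    simp only [Subtype.mk.injEq, EmbeddingLike.apply_eq_iff_eq, Prod.mk.injEq, and_true] at h
    exact h
  have h1 : #K ≤ #(Set.Iic a) := mk_le_of_injective hinj
  have h2 : #(Set.Iic a) < #K := by
    have h3 : #(Set.Iio a) < #K := by
      have := mk_Iio_lt a (by rw [mk_ord_toType]; exact (Ordinal.type_toType _).symm)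
      rwa [mk_ord_toType] at this
    have : (Set.Iic a) = insert a (Set.Iio a) := by
      rw [Set.Iio_insert]
    rw [this]
    refine (mk_insert_le).trans_lt ?_
    exact add_lt_of_lt hK h3 (one_lt_aleph0.trans_le hK)
  exact absurd h1 (not_le.2 h2)

/-- Under the continuum hypothesis, `ℵ₂ ^ ℵ₀ = ℵ₂`. -/
theorem aleph_two_pow (hCH : (𝔠 : Cardinal.{0}) = ℵ₁) :
    (ℵ_ 2 : Cardinal.{0}) ^ (ℵ₀ : Cardinal.{0}) = ℵ_ 2 := by
  have h12 : (ℵ_ 2 : Cardinal.{0}) = Order.succ ℵ₁ := by
    have : (2 : Ordinal.{0}) = 1 + 1 := one_add_one_eq_two.symm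
    rw [this, succ_aleph]
  have hinf : ℵ₀ ≤ (ℵ_ 2 : Cardinal.{0}) := aleph0_le_aleph 2
  have hreg : (ℵ_ 2 : Cardinal.{0}).IsRegular := by
    rw [h12]
    exact isRegular_succ (aleph0_le_aleph 1)
  have hcof : ℵ₀ < (ℵ_ 2 : Cardinal.{0}).ord.cof := by
    rw [hreg.cof_ord, h12]
    exact (aleph0_lt_aleph_one).trans (Order.lt_succ _)
  refine le_antisymm ?_ ?_
  · let K₀ : Type := (ℵ_ 2 : Cardinal.{0}).ord.ToType
    have hK₀ : #K₀ = ℵ_ 2 := mk_ord_toType _
    have h1 : #(ℕ → K₀) = (ℵ_ 2 : Cardinal.{0}) ^ (ℵ₀ : Cardinal.{0}) := by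
      rw [mk_arrow, hK₀]; simp
    rw [← h1]
    have hb : ∀ f : ℕ → K₀, ∃ a : K₀, ∀ n, f n < a := by
      intro f
      obtain ⟨a, ha⟩ := exists_bound_of_countable hcof (Set.range f)
        (Set.countable_range f)
      exact ⟨a, fun n => ha _ (Set.mem_range_self n)⟩
    choose a ha using hb
    have hinj : Function.Injective (fun f : ℕ → K₀ => (⟨a f, fun n => ⟨f n, ha f n⟩⟩ :
        Σ a : K₀, (ℕ → Set.Iio a))) := by
      intro f g hfg
      simp only [Sigma.mk.injEq] at hfg
      obtain ⟨h2, h3⟩ := hfg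
      funext n
      have : ∀ (a b : K₀) (hab : a = b) (F : ℕ → Set.Iio a) (G : ℕ → Set.Iio b), HEq F G →
          ∀ n, (F n : K₀) = G n := by
        intro a b hab F G hFG n
        subst hab
        rw [eq_of_heq hFG]
      exact this _ _ h2 _ _ h3 n
    refine (mk_le_of_injective hinj).trans ?_
    rw [mk_sigma]
    have h4 : ∀ a : K₀, #(ℕ → Set.Iio a) ≤ ℵ₁ := by
      intro a
      have h5 : #(Set.Iio a) ≤ ℵ₁ := by
        have := mk_Iio_lt a (by rw [hK₀]; exact (Ordinal.type_toType _).symm)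
        rw [hK₀] at this
        exact Order.lt_succ_iff.1 (this.trans_eq h12)
      calc #(ℕ → Set.Iio a) = #(Set.Iio a) ^ (ℵ₀ : Cardinal.{0}) := by rw [mk_arrow]; simp
        _ ≤ ℵ₁ ^ (ℵ₀ : Cardinal.{0}) := power_le_power_right h5
        _ = ℵ₁ := by rw [← hCH, continuum_power_aleph0]
    calc Cardinal.sum (fun a : K₀ => #(ℕ → Set.Iio a)) ≤ Cardinal.sum (fun _ : K₀ => ℵ₁) :=
          sum_le_sum _ _ h4
      _ = #K₀ * ℵ₁ := by rw [sum_const']
      _ ≤ ℵ_ 2 * ℵ_ 2 := by
          rw [hK₀]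
          exact mul_le_mul' le_rfl (h12 ▸ Order.le_succ _)
      _ = ℵ_ 2 := mul_eq_self hinf
  · exact self_le_power _ (one_lt_aleph0.le)

end Pool.Agent.helper60
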