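import Mathlib

set_option autoImplicit false

/-!
# Sets defined from a Cohen real

Explicit sets of natural numbers defined from a real `c : ℕ → Bool`: a generic subset, a generic
pseudointersection of a sequence of sets, and a generic selector.
-/

open Set

namespace Pool.Agent.helper60

/-- The number of ones of `c` below `m`. -/
def ones (c : ℕ → Bool) (m : ℕ) : ℕ := ((Finset.range m).filter (fun j => c j = true)).card

/-- The subset of `Z` picked by `c`. -/
def genC (Z : Set ℕ) (c : ℕ → Bool) : Set ℕ := {m | m ∈ Z ∧ c m = true}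

/-- The pseudointersection of the sequence `A` picked by `c`. -/
def genP (A : ℕ → Set ℕ) (c : ℕ → Bool) : Set ℕ :=
  {m | c m = true ∧ ∀ i ≤ ones c m, m ∈ A i}

/-- The selector for the classes of `g` picked by `c`. -/
def genQ (g : ℕ → ℕ) (c : ℕ → Bool) : Set ℕ :=
  {m | c m = true ∧ ∀ j < m, g j = g m → c j = false}

theorem ones_mono (c : ℕ → Bool) {m n : ℕ} (h : m ≤ n) : ones c m ≤ ones c n := by
  unfold ones
  refine Finset.card_le_card (Finset.filter_subset_filter _ ?_)
  exact Finset.range_subset_range.2 h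

theorem ones_succ (c : ℕ → Bool) (m : ℕ) (h : c m = true) : ones c (m + 1) = ones c m + 1 := by
  unfold ones
  rw [Finset.range_add_one, Finset.filter_insert, if_pos h, Finset.card_insert_of_notMem]
  simp

/-- `genP A c` is almost contained in each `A n`. -/
theorem genP_diff_finite (A : ℕ → Set ℕ) (c : ℕ → Bool) (n : ℕ) : (genP A c \ A n).Finite := by
  have hsub : genP A c \ A n ⊆ {m | c m = true ∧ ones c m < n} := by
    rintro m ⟨⟨h1, h2⟩, h3⟩
    refine ⟨h1, ?_⟩
    by_contra h4
    exact h3 (h2 n (not_lt.1 h4))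
  refine Set.Finite.subset ?_ hsub
  have hinj : Set.InjOn (ones c) {m | c m = true ∧ ones c m < n} := by
    intro a ha b hb hab
    rcases lt_trichotomy a b with h | h | h
    · have := ones_mono c (show a + 1 ≤ b from h)
      rw [ones_succ c a ha.1] at this
      omega
    · exact h
    · have := ones_mono c (show b + 1 ≤ a from h)
      rw [ones_succ c b hb.1] at this
      omega
  refine Set.Finite.of_finite_image ((Set.finite_Iio n).subset ?_) hinj
  rintro _ ⟨m, hm, rfl⟩
  exact hm.2

/-- `genQ g c` meets each class of `g` in at most one point. -/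
theorem genQ_subsingleton (g : ℕ → ℕ) (c : ℕ → Bool) (a b : ℕ) (ha : a ∈ genQ g c)
    (hb : b ∈ genQ g c) (hab : g a = g b) : a = b := by
  rcases lt_trichotomy a b with h | h | h
  · have := hb.2 a h hab
    rw [ha.1] at this
    exact absurd this (by decide)
  · exact h
  · have := ha.2 b h hab.symm
    rw [hb.1] at this
    exact absurd this (by decide)

/-- If `c` vanishes on `[L, m)` then `ones c m = ones c L`. -/
theorem ones_eq_of_zero (c : ℕ → Bool) {L m : ℕ} (hLm : L ≤ m)
    (h : ∀ j, L ≤ j → j < m → c j = false) : ones c m = ones c L := by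
  unfold ones
  congr 1
  ext j
  simp only [Finset.mem_filter, Finset.mem_range]
  constructor
  · rintro ⟨h1, h2⟩
    refine ⟨?_, h2⟩
    by_contra h3
    rw [h j (not_lt.1 h3) h1] at h2
    exact absurd h2 (by decide)
  · rintro ⟨h1, h2⟩
    exact ⟨lt_of_lt_of_le h1 hLm, h2⟩

theorem ones_congr (c d : ℕ → Bool) (m : ℕ) (h : ∀ j < m, c j = d j) : ones c m = ones d m := by
  unfold ones
  congr 1
  ext j
  simp only [Finset.mem_filter, Finset.mem_range]
  constructor
  · rintro ⟨h1, h2⟩
    exact ⟨h1, (h j h1) ▸ h2⟩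
  · rintro ⟨h1, h2⟩
    exact ⟨h1, (h j h1).symm ▸ h2⟩

/-- A point can be added to `genP A c` above any given finite part of `c`. -/
theorem mem_genP_of (A : ℕ → Set ℕ) (c : ℕ → Bool) {L m : ℕ} (hLm : L ≤ m)
    (h : ∀ j, L ≤ j → j < m → c j = false) (hm : c m = true) (hA : ∀ i ≤ ones c L, m ∈ A i) :
    m ∈ genP A c := by
  refine ⟨hm, ?_⟩
  rw [ones_eq_of_zero c hLm h]
  exact hA

/-- A point can be added to `genQ g c` above any given finite part of `c`. -/
theorem mem_genQ_of (g : ℕ → ℕ) (c : ℕ → Bool) {L m : ℕ}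
    (h : ∀ j, L ≤ j → j < m → c j = false) (hm : c m = true) (hg : ∀ j < L, g j ≠ g m) :
    m ∈ genQ g c := by
  refine ⟨hm, fun j hj hgj => ?_⟩
  by_cases hjL : j < L
  · exact absurd hgj (hg j hjL)
  · exact h j (not_lt.1 hjL) hj

theorem ones_le (c : ℕ → Bool) (m : ℕ) : ones c m ≤ m := by
  unfold ones
  refine (Finset.card_filter_le _ _).trans ?_
  rw [Finset.card_range]

end Pool.Agent.helper60
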