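import Mathlib
import Pool.Agent.helper60.Formulas
import Pool.Agent.Results.MP_4ce21c_lc.CovMeagerContinuum

set_option autoImplicit false

/-!
# Adequacy of the sentence and of the forcing relation

A sanity check for `CohenModelSelective`, not needed for it. We show
* `realize_selective`: in the universe `ZFSet` of sets, `selectiveSentence` holds iff there is a
  selective independent family of subsets of `ℕ` (in the sense of the ZFC hand-in);
* `forces_unit_iff`: for the trivial poset, the forcing relation is truth in `ZFSet`.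
-/

open FirstOrder FirstOrder.Language

namespace Pool.Agent.helper60.Adequacy

open Pool.Agent.Results.MP_4ce21c_lc.CovMeagerContinuum

/-- `ZFSet` as a structure for the language of set theory. -/
instance zfStructure : LSet.Structure ZFSet.{0} where
  funMap := fun f _ => Empty.elim f
  RelMap := fun {_} R => match R with
    | .mem => fun xs => xs 0 ∈ xs 1

section Realize

variable {n : ℕ} {v : Empty → ZFSet.{0}} {xs : Fin n → ZFSet.{0}}

/-- Extension of an assignment. -/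
def sz (xs : Fin n → ZFSet.{0}) (x : ZFSet.{0}) : Fin (n + 1) → ZFSet.{0} := Fin.snoc xs x

@[simp] theorem sz_up (xs : Fin n → ZFSet.{0}) (x : ZFSet.{0}) (i : Fin n) :
    sz xs x (up i) = xs i := Fin.snoc_castSucc (α := fun _ => ZFSet.{0}) x xs i

@[simp] theorem sz_nw (xs : Fin n → ZFSet.{0}) (x : ZFSet.{0}) : sz xs x nw = x :=
  Fin.snoc_last (α := fun _ => ZFSet.{0}) x xs

/-- Truth of a formula in `ZFSet`. -/
def Tr {n : ℕ} (φ : Fm n) (v : Empty → ZFSet.{0}) (xs : Fin n → ZFSet.{0}) : Prop :=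
  BoundedFormula.Realize φ v xs

@[simp] theorem tr_mem {i j : Fin n} : Tr (fMem i j) v xs ↔ xs i ∈ xs j := Iff.rfl

@[simp] theorem tr_eq {i j : Fin n} : Tr (fEq i j) v xs ↔ xs i = xs j := Iff.rfl

@[simp] theorem tr_imp {φ ψ : Fm n} : Tr (φ ⟹ ψ) v xs ↔ (Tr φ v xs → Tr ψ v xs) := Iff.rfl

@[simp] theorem tr_all {φ : Fm (n + 1)} : Tr (∀' φ) v xs ↔ ∀ x, Tr φ v (sz xs x) := Iff.rfl

@[simp] theorem tr_not {φ : Fm n} : Tr (∼φ) v xs ↔ ¬ Tr φ v xs := Iff.rfl

@[simp] theorem tr_and {φ ψ : Fm n} : Tr (φ ⊓ ψ) v xs ↔ (Tr φ v xs ∧ Tr ψ v xs) :=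
  BoundedFormula.realize_inf

@[simp] theorem tr_or {φ ψ : Fm n} : Tr (φ ⊔ ψ) v xs ↔ (Tr φ v xs ∨ Tr ψ v xs) :=
  BoundedFormula.realize_sup

@[simp] theorem tr_iff {φ ψ : Fm n} : Tr (φ ⇔ ψ) v xs ↔ (Tr φ v xs ↔ Tr ψ v xs) :=
  BoundedFormula.realize_iff

@[simp] theorem tr_ex {φ : Fm (n + 1)} : Tr (∃' φ) v xs ↔ ∃ x, Tr φ v (sz xs x) :=
  BoundedFormula.realize_ex

@[simp] theorem tr_ball {j : Fin n} {φ : Fm (n + 1)} :
    Tr (fBall j φ) v xs ↔ ∀ x ∈ xs j, Tr φ v (sz xs x) := by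
  simp [fBall]

@[simp] theorem tr_bex {j : Fin n} {φ : Fm (n + 1)} :
    Tr (fBex j φ) v xs ↔ ∃ x ∈ xs j, Tr φ v (sz xs x) := by
  simp [fBex]

@[simp] theorem tr_sub {i j : Fin n} : Tr (fSub i j) v xs ↔ xs i ⊆ xs j := by
  simp [fSub, ZFSet.subset_def]

@[simp] theorem tr_empty {i : Fin n} : Tr (fEmpty i) v xs ↔ xs i = ∅ := by
  simp [fEmpty, ZFSet.eq_empty]

@[simp] theorem tr_adj {z y a : Fin n} : Tr (fAdj z y a) v xs ↔ xs z = insert (xs a) (xs y) := by
  simp only [fAdj, tr_all, tr_iff, tr_mem, sz_nw, sz_up, tr_or, tr_eq]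
  rw [ZFSet.ext_iff]
  refine forall_congr' fun x => ?_
  rw [ZFSet.mem_insert_iff, or_comm]

@[simp] theorem tr_ind {u : Fin n} :
    Tr (fInd u) v xs ↔ (∅ ∈ xs u ∧ ∀ x ∈ xs u, insert x x ∈ xs u) := by
  simp [fInd]

@[simp] theorem tr_upair {u x y : Fin n} :
    Tr (fUpair u x y) v xs ↔ xs u = {xs x, xs y} := by
  simp only [fUpair, tr_all, tr_iff, tr_mem, sz_nw, sz_up, tr_or, tr_eq]
  rw [ZFSet.ext_iff]
  refine forall_congr' fun x => ?_
  rw [ZFSet.mem_pair]

@[simp] theorem tr_opair {z x y : Fin n} :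
    Tr (fOpair z x y) v xs ↔ xs z = ZFSet.pair (xs x) (xs y) := by
  simp only [fOpair, tr_all, tr_iff, tr_mem, sz_nw, sz_up, tr_or, tr_upair]
  rw [ZFSet.ext_iff]
  refine forall_congr' fun x => ?_
  rw [ZFSet.pair, ZFSet.mem_pair, ZFSet.pair_eq_singleton]

@[simp] theorem tr_app {f x y : Fin n} :
    Tr (fApp f x y) v xs ↔ ZFSet.pair (xs x) (xs y) ∈ xs f := by
  simp [fApp]

end Realize

/-! ### `ω` and its subsets -/

/-- The finite ordinals. -/
noncomputable def num : ℕ → ZFSet.{0}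
  | 0 => ∅
  | n + 1 => insert (num n) (num n)

theorem mem_num {z : ZFSet.{0}} {n : ℕ} : z ∈ num n ↔ ∃ i < n, z = num i := by
  induction n with
  | zero => simp [num]
  | succ n ih =>
    rw [num, ZFSet.mem_insert_iff, ih]
    constructor
    · rintro (h | ⟨i, hi, h⟩)
      · exact ⟨n, Nat.lt_succ_self n, h⟩
      · exact ⟨i, Nat.lt_succ_of_lt hi, h⟩
    · rintro ⟨i, hi, h⟩
      rcases Nat.lt_succ_iff_lt_or_eq.1 hi with h' | h'
      · exact Or.inr ⟨i, h', h⟩
      · exact Or.inl (h' ▸ h)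

theorem num_inj {i j : ℕ} : num i = num j ↔ i = j := by
  constructor
  · intro h
    rcases lt_trichotomy i j with h1 | h1 | h1
    · have h2 : num i ∈ num j := mem_num.2 ⟨i, h1, rfl⟩
      rw [← h] at h2
      exact absurd h2 (ZFSet.mem_irrefl _)
    · exact h1
    · have h2 : num j ∈ num i := mem_num.2 ⟨j, h1, rfl⟩
      rw [h] at h2
      exact absurd h2 (ZFSet.mem_irrefl _)
  · rintro rfl
    rfl

theorem num_mem_num {i j : ℕ} : num i ∈ num j ↔ i < j := by
  rw [mem_num]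
  constructor
  · rintro ⟨k, hk, h⟩
    rwa [num_inj.1 h]
  · exact fun h => ⟨i, h, rfl⟩

/-- The set `ω`. -/
noncomputable def om : ZFSet.{0} := ZFSet.range num

theorem mem_om {z : ZFSet.{0}} : z ∈ om ↔ ∃ n, num n = z := ZFSet.mem_range

theorem num_mem_om (n : ℕ) : num n ∈ om := mem_om.2 ⟨n, rfl⟩

/-- The subset of `ω` corresponding to a set of natural numbers. -/
noncomputable def cs (A : Set ℕ) : ZFSet.{0} := ZFSet.range (fun n : A => num n.1)

theorem mem_cs {A : Set ℕ} {z : ZFSet.{0}} : z ∈ cs A ↔ ∃ n ∈ A, num n = z := by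
  rw [cs, ZFSet.mem_range]
  constructor
  · rintro ⟨i, hi⟩
    exact ⟨i.1, i.2, hi⟩
  · rintro ⟨n, hn, h⟩
    exact ⟨⟨n, hn⟩, h⟩

@[simp] theorem num_mem_cs {A : Set ℕ} {n : ℕ} : num n ∈ cs A ↔ n ∈ A := by
  rw [mem_cs]
  constructor
  · rintro ⟨k, hk, h⟩
    rwa [← num_inj.1 h]
  · exact fun h => ⟨n, h, rfl⟩

theorem cs_inj {A B : Set ℕ} : cs A = cs B ↔ A = B := by
  constructor
  · intro h
    ext n
    rw [← num_mem_cs, h, num_mem_cs]
  · rintro rfl
    rfl

theorem cs_sub (A : Set ℕ) : cs A ⊆ om := by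
  intro z hz
  obtain ⟨n, -, h⟩ := mem_cs.1 hz
  exact mem_om.2 ⟨n, h⟩

/-- The set of natural numbers corresponding to a subset of `ω`. -/
def dc (x : ZFSet.{0}) : Set ℕ := {n | num n ∈ x}

theorem cs_dc {x : ZFSet.{0}} (h : x ⊆ om) : cs (dc x) = x := by
  ext z
  rw [mem_cs]
  constructor
  · rintro ⟨n, hn, rfl⟩
    exact hn
  · intro hz
    obtain ⟨n, rfl⟩ := mem_om.1 (h hz)
    exact ⟨n, hz, rfl⟩

@[simp] theorem dc_cs (A : Set ℕ) : dc (cs A) = A := by
  ext n
  exact num_mem_cs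

/-- The set of subsets of `ω` corresponding to a family of sets of natural numbers. -/
noncomputable def cf (F : Set (Set ℕ)) : ZFSet.{0} := ZFSet.range (fun A : F => cs A.1)

theorem mem_cf {F : Set (Set ℕ)} {z : ZFSet.{0}} : z ∈ cf F ↔ ∃ A ∈ F, cs A = z := by
  rw [cf, ZFSet.mem_range]
  constructor
  · rintro ⟨i, hi⟩
    exact ⟨i.1, i.2, hi⟩
  · rintro ⟨n, hn, h⟩
    exact ⟨⟨n, hn⟩, h⟩

@[simp] theorem cs_mem_cf {F : Set (Set ℕ)} {A : Set ℕ} : cs A ∈ cf F ↔ A ∈ F := by
  rw [mem_cf]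
  constructor
  · rintro ⟨k, hk, h⟩
    rwa [← cs_inj.1 h]
  · exact fun h => ⟨A, h, rfl⟩

/-- The family of sets of natural numbers corresponding to a set of subsets of `ω`. -/
def df (x : ZFSet.{0}) : Set (Set ℕ) := {A | cs A ∈ x}

theorem cf_df {x : ZFSet.{0}} (h : ∀ y ∈ x, y ⊆ om) : cf (df x) = x := by
  ext z
  rw [mem_cf]
  constructor
  · rintro ⟨n, hn, rfl⟩
    exact hn
  · intro hz
    exact ⟨dc z, by simpa [df, cs_dc (h z hz)] using hz, cs_dc (h z hz)⟩

section Formulas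

variable {n : ℕ} {v : Empty → ZFSet.{0}} {xs : Fin n → ZFSet.{0}}

theorem tr_omega {w : Fin n} : Tr (fOmega w) v xs ↔ xs w = om := by
  simp only [fOmega, tr_and, tr_ind, tr_all, tr_imp, tr_sub, sz_nw, sz_up]
  have hom : ∅ ∈ om ∧ ∀ x ∈ om, insert x x ∈ om := by
    refine ⟨mem_om.2 ⟨0, rfl⟩, fun x hx => ?_⟩
    obtain ⟨k, rfl⟩ := mem_om.1 hx
    exact mem_om.2 ⟨k + 1, rfl⟩
  have hmin : ∀ x : ZFSet.{0}, (∅ ∈ x ∧ ∀ y ∈ x, insert y y ∈ x) → om ⊆ x := by
    rintro x ⟨h0, h1⟩ z hz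
    obtain ⟨k, rfl⟩ := mem_om.1 hz
    clear hz
    induction k with
    | zero => exact h0
    | succ k ih => exact h1 _ ih
  constructor
  · rintro ⟨h1, h2⟩
    exact subset_antisymm (h2 om hom) (hmin _ h1)
  · intro h
    rw [h]
    exact ⟨hom, hmin⟩

theorem tr_infMany {w : Fin n} (hw : xs w = om) {φ : Fm (n + 2)} {p : ℕ → Prop}
    (hφ : ∀ k m, Tr φ v (sz (sz xs (num k)) (num m)) ↔ p m) :
    Tr (fInfMany w φ) v xs ↔ {m | p m}.Infinite := by
  simp only [fInfMany, tr_ball, tr_bex, tr_and, tr_mem, sz_nw, sz_up, hw]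
  constructor
  · intro h
    refine Set.infinite_of_not_bddAbove ?_
    rintro ⟨N, hN⟩
    obtain ⟨x, hx, h1, h2⟩ := h (num N) (num_mem_om N)
    obtain ⟨m, rfl⟩ := mem_om.1 hx
    have h3 := hN ((hφ N m).1 h2)
    exact absurd (num_mem_num.1 h1) (not_lt.2 h3)
  · intro h x hx
    obtain ⟨k, rfl⟩ := mem_om.1 hx
    obtain ⟨m, hm, hkm⟩ := h.exists_gt k
    exact ⟨num m, num_mem_om m, num_mem_num.2 hkm, (hφ k m).2 hm⟩

theorem tr_finMany {w : Fin n} (hw : xs w = om) {φ : Fm (n + 2)} {p : ℕ → Prop}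
    (hφ : ∀ k m, Tr φ v (sz (sz xs (num k)) (num m)) ↔ p m) :
    Tr (fFinMany w φ) v xs ↔ {m | p m}.Finite := by
  simp only [fFinMany, tr_ball, tr_bex, tr_imp, tr_mem, sz_nw, sz_up, hw]
  constructor
  · rintro ⟨x, hx, h⟩
    obtain ⟨k, rfl⟩ := mem_om.1 hx
    refine (Set.finite_Iio k).subset fun m hm => ?_
    exact num_mem_num.1 (h (num m) (num_mem_om m) ((hφ k m).2 hm))
  · intro h
    obtain ⟨N, hN⟩ := h.bddAbove
    refine ⟨num (N + 1), num_mem_om _, fun x hx h1 => ?_⟩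
    obtain ⟨m, rfl⟩ := mem_om.1 hx
    exact num_mem_num.2 (Nat.lt_succ_of_le (hN ((hφ _ m).1 h1)))

theorem tr_infSub {w x : Fin n} (hw : xs w = om) :
    Tr (fInfSub w x) v xs ↔ (xs x ⊆ om ∧ (dc (xs x)).Infinite) := by
  rw [fInfSub, tr_and, tr_sub, hw, tr_infMany hw (p := fun m => num m ∈ xs x)]
  · rfl
  · intro k m
    simp

theorem tr_fin {A : Fin n} : Tr (fFin A) v xs ↔ {x | x ∈ xs A}.Finite := by
  simp only [fFin, tr_all, tr_imp, tr_and, tr_bex, tr_ball, tr_empty, tr_adj, tr_mem, sz_nw, sz_up]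
  constructor
  · intro h
    have h1 := h ((xs A).powerset.sep (fun y => {x | x ∈ y}.Finite)) ?_
    · rw [ZFSet.mem_sep] at h1
      exact h1.2
    · refine ⟨⟨∅, ?_, rfl⟩, ?_⟩
      · simp
      · intro y hy a ha
        rw [ZFSet.mem_sep, ZFSet.mem_powerset] at hy
        refine ⟨insert a y, ?_, rfl⟩
        rw [ZFSet.mem_sep, ZFSet.mem_powerset]
        constructor
        · intro z hz
          rcases ZFSet.mem_insert_iff.1 hz with h2 | h2
          · rw [h2]; exact ha
          · exact hy.1 h2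
        · refine (hy.2.insert a).subset ?_
          intro z hz
          rcases ZFSet.mem_insert_iff.1 hz with h2 | h2
          · exact Or.inl h2
          · exact Or.inr h2
  · intro hfin K hK
    obtain ⟨⟨e, he, rfl⟩, hK⟩ := hK
    have key : ∀ s : Set ZFSet.{0}, s.Finite → s ⊆ {x | x ∈ xs A} →
        ∃ y ∈ K, {x | x ∈ y} = s := by
      intro s hs
      induction s, hs using Set.Finite.induction_on with
      | empty =>
        intro _
        exact ⟨∅, he, by simp⟩
      | @insert a s ha hs ih =>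
        intro hsub
        obtain ⟨y, hy, hys⟩ := ih ((Set.subset_insert a s).trans hsub)
        obtain ⟨z, hz, hz'⟩ := hK y hy a (hsub (Set.mem_insert a s))
        refine ⟨z, hz, ?_⟩
        rw [hz']
        ext t
        rw [Set.mem_insert_iff, ← hys]
        exact ZFSet.mem_insert_iff
    obtain ⟨y, hy, hy'⟩ := key _ hfin le_rfl
    have : y = xs A := by
      ext z
      exact Set.ext_iff.1 hy' z
    rwa [← this]

theorem tr_FF {I A B : Fin n} {F : Set (Set ℕ)} (hI : xs I = cf F) :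
    Tr (fFF I A B) v xs ↔ ∃ a b : Finset (Set ℕ), IsFF F a b ∧ xs A = cf a ∧ xs B = cf b := by
  simp only [fFF, tr_and, tr_fin, tr_sub, tr_ball, tr_not, tr_mem, sz_nw, sz_up, hI]
  have hcode : ∀ x : ZFSet.{0}, {z | z ∈ x}.Finite → x ⊆ cf F →
      ∃ a : Finset (Set ℕ), (a : Set (Set ℕ)) ⊆ F ∧ x = cf a := by
    intro x hx hxF
    have hsub : ∀ y ∈ x, y ⊆ om := by
      intro y hy
      obtain ⟨A, -, rfl⟩ := mem_cf.1 (hxF hy)
      exact cs_sub A
    have h1 : (df x).Finite := by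
      refine Set.Finite.of_finite_image (f := cs) (hx.subset ?_) ?_
      · rintro _ ⟨A, hA, rfl⟩
        exact hA
      · intro A _ B _ hAB
        exact cs_inj.1 hAB
    refine ⟨h1.toFinset, ?_, ?_⟩
    · intro A hA
      rw [Set.Finite.coe_toFinset] at hA
      exact cs_mem_cf.1 (hxF hA)
    · rw [Set.Finite.coe_toFinset, cf_df hsub]
  constructor
  · rintro ⟨⟨h1, h2⟩, ⟨h3, h4⟩, h5⟩
    obtain ⟨a, ha, ha'⟩ := hcode _ h1 h3
    obtain ⟨b, hb, hb'⟩ := hcode _ h2 h4
    refine ⟨a, b, ⟨ha, hb, ?_⟩, ha', hb'⟩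
    rw [Finset.disjoint_left]
    intro X hX hX'
    refine h5 (cs X) ?_ ?_
    · rw [ha', cs_mem_cf]; exact hX
    · rw [hb', cs_mem_cf]; exact hX'
  · rintro ⟨a, b, ⟨h1, h2, h3⟩, h4, h5⟩
    rw [h4, h5]
    refine ⟨⟨?_, ?_⟩, ⟨?_, ?_⟩, ?_⟩
    · refine (a.finite_toSet.image cs).subset ?_
      intro z hz
      obtain ⟨A, hA, rfl⟩ := mem_cf.1 hz
      exact ⟨A, hA, rfl⟩
    · refine (b.finite_toSet.image cs).subset ?_
      intro z hz
      obtain ⟨A, hA, rfl⟩ := mem_cf.1 hz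
      exact ⟨A, hA, rfl⟩
    · intro z hz
      obtain ⟨A, hA, rfl⟩ := mem_cf.1 hz
      exact cs_mem_cf.2 (h1 hA)
    · intro z hz
      obtain ⟨A, hA, rfl⟩ := mem_cf.1 hz
      exact cs_mem_cf.2 (h2 hA)
    · intro z hz hz'
      obtain ⟨A, hA, rfl⟩ := mem_cf.1 hz
      exact Finset.disjoint_left.1 h3 hA (cs_mem_cf.1 hz')

theorem tr_comb {m A B : Fin n} {a b : Finset (Set ℕ)} {k : ℕ} (hm : xs m = num k)
    (hA : xs A = cf a) (hB : xs B = cf b) : Tr (fComb m A B) v xs ↔ k ∈ comb a b := by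
  simp only [fComb, tr_and, tr_ball, tr_not, tr_mem, sz_nw, sz_up, hm, hA, hB]
  constructor
  · rintro ⟨h1, h2⟩
    refine ⟨fun X hX => num_mem_cs.1 (h1 (cs X) (cs_mem_cf.2 hX)), fun X hX h => ?_⟩
    exact h2 (cs X) (cs_mem_cf.2 hX) (num_mem_cs.2 h)
  · rintro ⟨h1, h2⟩
    refine ⟨fun x hx => ?_, fun x hx => ?_⟩
    · obtain ⟨X, hX, rfl⟩ := mem_cf.1 hx
      exact num_mem_cs.2 (h1 X hX)
    · obtain ⟨X, hX, rfl⟩ := mem_cf.1 hx
      exact fun h => h2 X hX (num_mem_cs.1 h)

theorem cf_sub_cf {a b : Finset (Set ℕ)} : cf (a : Set (Set ℕ)) ⊆ cf b ↔ a ⊆ b := by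
  constructor
  · intro h X hX
    exact cs_mem_cf.1 (h (cs_mem_cf.2 hX))
  · intro h z hz
    obtain ⟨X, hX, rfl⟩ := mem_cf.1 hz
    exact cs_mem_cf.2 (h hX)

theorem tr_indep {w I : Fin n} {F : Set (Set ℕ)} (hw : xs w = om) (hI : xs I = cf F) :
    Tr (fIndep w I) v xs ↔ IsIndependent F := by
  simp only [fIndep, tr_and, tr_ball, tr_all, tr_imp]
  refine and_congr ?_ ?_
  · constructor
    · intro h X hX
      have h1 := h (cs X) (by rw [hI]; exact cs_mem_cf.2 hX)
      rw [tr_infSub (by simpa using hw)] at h1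
      simpa using h1.2
    · intro h x hx
      rw [hI] at hx
      obtain ⟨X, hX, rfl⟩ := mem_cf.1 hx
      rw [tr_infSub (by simpa using hw)]
      simpa using ⟨cs_sub X, h X hX⟩
  · constructor
    · intro h a b hab
      have h1 := h (cf a) (cf b) ((tr_FF (by simpa using hI)).2 ⟨a, b, hab, by simp, by simp⟩)
      rw [tr_infMany (p := fun m => m ∈ comb a b) (by simpa using hw)] at h1
      · exact h1
      · intro k m
        exact tr_comb (by simp) (by simp) (by simp)
    · intro h x y hxy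
      obtain ⟨a, b, hab, hx, hy⟩ := (tr_FF (F := F) (by simpa using hI)).1 hxy
      simp only [sz_up, sz_nw] at hx hy
      rw [tr_infMany (p := fun m => m ∈ comb a b) (by simpa using hw)]
      · exact h a b hab
      · intro k m
        exact tr_comb (by simp) (by simpa using hx) (by simpa using hy)

theorem tr_alm {w A B X : Fin n} {a b : Finset (Set ℕ)} (hw : xs w = om)
    (hA : xs A = cf a) (hB : xs B = cf b) :
    Tr (fAlm w A B X) v xs ↔ (comb a b \ dc (xs X)).Finite := by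
  rw [fAlm, tr_finMany (p := fun m => m ∈ comb a b ∧ num m ∉ xs X) hw]
  · rfl
  · intro k m
    rw [tr_and, tr_comb (k := m) (by simp) (by simpa using hA) (by simpa using hB)]
    simp

theorem tr_dis {w A B X : Fin n} {a b : Finset (Set ℕ)} (hw : xs w = om)
    (hA : xs A = cf a) (hB : xs B = cf b) :
    Tr (fDis w A B X) v xs ↔ (comb a b ∩ dc (xs X)).Finite := by
  rw [fDis, tr_finMany (p := fun m => m ∈ comb a b ∧ num m ∈ xs X) hw]
  · rfl
  · intro k m
    rw [tr_and, tr_comb (k := m) (by simp) (by simpa using hA) (by simpa using hB)]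
    simp

theorem tr_dmax {w I : Fin n} {F : Set (Set ℕ)} (hw : xs w = om) (hI : xs I = cf F) :
    Tr (fDMax w I) v xs ↔ DenselyMaximal F := by
  simp only [fDMax, tr_all, tr_imp, tr_ex, tr_and, tr_sub, tr_or]
  constructor
  · intro h X hX a b hab
    obtain ⟨x, y, h1, h2, h3⟩ := h (cs X)
      ((tr_infSub (by simpa using hw)).2 (by simpa using ⟨cs_sub X, hX⟩)) (cf a) (cf b)
      ((tr_FF (by simpa using hI)).2 ⟨a, b, hab, by simp, by simp⟩)
    obtain ⟨a', b', hab', hx, hy⟩ := (tr_FF (F := F) (by simpa using hI)).1 h1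
    simp only [sz_up, sz_nw] at hx hy h2
    rw [hx, hy, cf_sub_cf, cf_sub_cf] at h2
    refine ⟨a', b', hab', h2.1, h2.2, ?_⟩
    rw [tr_alm (a := a') (b := b') (by simpa using hw) (by simpa using hx) (by simpa using hy),
      tr_dis (a := a') (b := b') (by simpa using hw) (by simpa using hx) (by simpa using hy)] at h3
    simpa using h3
  · intro h x hx y z hyz
    obtain ⟨a, b, hab, hy, hz⟩ := (tr_FF (F := F) (by simpa using hI)).1 hyz
    rw [tr_infSub (by simpa using hw)] at hx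
    simp only [sz_up, sz_nw] at hx hy hz
    obtain ⟨a', b', hab', h1, h2, h3⟩ := h (dc x) hx.2 a b hab
    refine ⟨cf a', cf b', (tr_FF (by simpa using hI)).2 ⟨a', b', hab', by simp, by simp⟩, ?_, ?_⟩
    · simp only [sz_up, sz_nw]
      rw [hy, hz, cf_sub_cf, cf_sub_cf]
      exact ⟨h1, h2⟩
    · rw [tr_alm (a := a') (b := b') (by simpa using hw) (by simp) (by simp),
        tr_dis (a := a') (b := b') (by simpa using hw) (by simp) (by simp)]
      simpa using h3

theorem tr_fil {w I X : Fin n} {F : Set (Set ℕ)} (hw : xs w = om) (hI : xs I = cf F) :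
    Tr (fFil w I X) v xs ↔ (xs X ⊆ om ∧ dc (xs X) ∈ densityFilter F) := by
  rw [fFil, tr_and, tr_infSub hw, and_assoc]
  refine and_congr_right fun _ => and_congr_right fun _ => ?_
  simp only [tr_all, tr_imp, tr_ex, tr_and, tr_sub]
  constructor
  · intro h a b hab
    obtain ⟨x, y, h1, h2, h3⟩ := h (cf a) (cf b)
      ((tr_FF (by simpa using hI)).2 ⟨a, b, hab, by simp, by simp⟩)
    obtain ⟨a', b', hab', hx, hy⟩ := (tr_FF (F := F) (by simpa using hI)).1 h1
    simp only [sz_up, sz_nw] at hx hy h2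
    rw [hx, hy, cf_sub_cf, cf_sub_cf] at h2
    refine ⟨a', b', hab', h2.1, h2.2, ?_⟩
    rw [tr_alm (a := a') (b := b') (by simpa using hw) (by simpa using hx)
      (by simpa using hy)] at h3
    simpa using h3
  · intro h y z hyz
    obtain ⟨a, b, hab, hy, hz⟩ := (tr_FF (F := F) (by simpa using hI)).1 hyz
    simp only [sz_up, sz_nw] at hy hz
    obtain ⟨a', b', hab', h1, h2, h3⟩ := h a b hab
    refine ⟨cf a', cf b', (tr_FF (by simpa using hI)).2 ⟨a', b', hab', by simp, by simp⟩, ?_, ?_⟩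
    · simp only [sz_up, sz_nw]
      rw [hy, hz, cf_sub_cf, cf_sub_cf]
      exact ⟨h1, h2⟩
    · rw [tr_alm (a := a') (b := b') (by simpa using hw) (by simp) (by simp)]
      simpa using h3

theorem tr_ast {w B Y : Fin n} (hw : xs w = om) :
    Tr (fAst w B Y) v xs ↔ (dc (xs B) \ dc (xs Y)).Finite := by
  rw [fAst, tr_finMany (p := fun m => num m ∈ xs B ∧ num m ∉ xs Y) hw]
  · rfl
  · intro k m
    simp

theorem tr_pset {w I : Fin n} {F : Set (Set ℕ)} (hw : xs w = om) (hI : xs I = cf F) :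
    Tr (fPSet w I) v xs ↔ IsPSet (densityFilter F) := by
  simp only [fPSet, fPFun, tr_all, tr_imp, tr_ex, tr_and, tr_ball, tr_app, tr_eq, sz_up, sz_nw, hw]
  constructor
  · intro h A hA hAF
    rcases A.eq_empty_or_nonempty with rfl | hne
    · obtain ⟨B, hB, -⟩ := h ∅ ⟨by simp, by simp⟩
      rw [tr_fil (F := F) (by simpa using hw) (by simpa using hI)] at hB
      exact ⟨_, hB.2, by simp⟩
    · obtain ⟨g, rfl⟩ := hA.exists_eq_range hne
      have hmem : ∀ (m : ℕ) (y : ZFSet.{0}),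
          ZFSet.pair (num m) y ∈ ZFSet.range (fun k => ZFSet.pair (num k) (cs (g k))) ↔
            y = cs (g m) := by
        intro m y
        rw [ZFSet.mem_range]
        constructor
        · rintro ⟨k, hk⟩
          obtain ⟨h1, h2⟩ := ZFSet.pair_inj.1 hk
          rw [← num_inj.1 h1, h2]
        · rintro rfl
          exact ⟨m, rfl⟩
      have hh := h (ZFSet.range (fun k => ZFSet.pair (num k) (cs (g k)))) ⟨?_, ?_⟩
      · obtain ⟨B, hB, hB'⟩ := hh
        rw [tr_fil (F := F) (by simpa using hw) (by simpa using hI)] at hB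
        refine ⟨_, hB.2, ?_⟩
        rintro _ ⟨k, rfl⟩
        have h1 := hB' (num k) (num_mem_om k) (cs (g k)) ((hmem _ _).2 rfl)
        rw [tr_ast (by simpa using hw)] at h1
        simpa using h1
      · intro x hx y z hyz
        obtain ⟨m, rfl⟩ := mem_om.1 hx
        rw [hmem, hmem] at hyz
        rw [hyz.1, hyz.2]
      · intro x hx y hy
        obtain ⟨m, rfl⟩ := mem_om.1 hx
        rw [hmem] at hy
        rw [tr_fil (F := F) (by simpa using hw) (by simpa using hI)]
        simp only [sz_nw, hy, dc_cs]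
        exact ⟨cs_sub _, hAF ⟨m, rfl⟩⟩
  · rintro h f ⟨hf1, hf2⟩
    have hfil : ∀ m X, ZFSet.pair (num m) X ∈ f → X ⊆ om ∧ dc X ∈ densityFilter F := by
      intro m X hX
      have h1 := hf2 (num m) (num_mem_om m) X hX
      rw [tr_fil (F := F) (by simpa using hw) (by simpa using hI)] at h1
      simpa using h1
    have hh := h {X | ∃ m, ZFSet.pair (num m) (cs X) ∈ f} ?_ ?_
    · obtain ⟨B, hB, hB'⟩ := hh
      refine ⟨cs B, ?_, ?_⟩
      · rw [tr_fil (F := F) (by simpa using hw) (by simpa using hI)]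
        simpa using ⟨cs_sub B, hB⟩
      · intro x hx y hy
        obtain ⟨m, rfl⟩ := mem_om.1 hx
        rw [tr_ast (by simpa using hw)]
        have h1 := hfil m y hy
        have h2 := hB' (dc y) ⟨m, by rw [cs_dc h1.1]; exact hy⟩
        simpa using h2
    · have h1 : {X : Set ℕ | ∃ m, ZFSet.pair (num m) (cs X) ∈ f} =
          ⋃ m, {X : Set ℕ | ZFSet.pair (num m) (cs X) ∈ f} := by
        ext X
        simp
      rw [h1]
      refine Set.countable_iUnion fun m => Set.Subsingleton.countable ?_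
      intro X hX Y hY
      exact cs_inj.1 (hf1 (num m) (num_mem_om m) _ _ ⟨hX, hY⟩)
    · rintro X ⟨m, hm⟩
      simpa using (hfil m _ hm).2

theorem tr_finSub {w u : Fin n} (hw : xs w = om) :
    Tr (fFinSub w u) v xs ↔ (xs u ⊆ om ∧ (dc (xs u)).Finite) := by
  rw [fFinSub, tr_and, tr_sub, hw, tr_finMany hw (p := fun m => num m ∈ xs u)]
  · rfl
  · intro k m
    simp

theorem tr_part {w E : Fin n} (hw : xs w = om) :
    Tr (fPart w E) v xs ↔ ((∀ x ∈ xs E, x ⊆ om ∧ (dc x).Finite) ∧ (∀ m, ∃ x ∈ xs E, num m ∈ x) ∧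
      ∀ x ∈ xs E, ∀ y ∈ xs E, (∃ m, num m ∈ x ∧ num m ∈ y) → x = y) := by
  simp only [fPart, tr_and, tr_ball, tr_bex, tr_imp, tr_mem, tr_eq, sz_up, sz_nw, hw]
  constructor
  · rintro ⟨h1, h2, h3⟩
    refine ⟨fun x hx => ?_, fun m => h2 (num m) (num_mem_om m), fun x hx y hy => ?_⟩
    · have := h1 x hx
      rw [tr_finSub (by simpa using hw)] at this
      simpa using this
    · rintro ⟨m, hm, hm'⟩
      exact h3 x hx y hy ⟨num m, hm, hm'⟩
  · rintro ⟨h1, h2, h3⟩
    refine ⟨fun x hx => ?_, fun x hx => ?_, fun x hx y hy => ?_⟩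
    · rw [tr_finSub (by simpa using hw)]
      simpa using h1 x hx
    · obtain ⟨m, rfl⟩ := mem_om.1 hx
      exact h2 m
    · rintro ⟨z, hz, hz'⟩
      obtain ⟨m, rfl⟩ := mem_om.1 ((h1 x hx).1 hz)
      exact h3 x hx y hy ⟨m, hz, hz'⟩

theorem tr_qset {w I : Fin n} {F : Set (Set ℕ)} (hw : xs w = om) (hI : xs I = cf F) :
    Tr (fQSet w I) v xs ↔ IsQSet (densityFilter F) := by
  have hE : ∀ E : ZFSet.{0}, Tr (fPart (up w) nw) v (sz xs E) ↔
      ((∀ x ∈ E, x ⊆ om ∧ (dc x).Finite) ∧ (∀ m, ∃ x ∈ E, num m ∈ x) ∧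
      ∀ x ∈ E, ∀ y ∈ E, (∃ m, num m ∈ x ∧ num m ∈ y) → x = y) := by
    intro E
    rw [tr_part (by simpa using hw)]
    simp
  simp only [fQSet, tr_all, tr_imp, tr_ex, tr_and, tr_ball, tr_mem, tr_eq, sz_up, sz_nw, hE]
  constructor
  · intro h E hfin hdis hun
    have hh := h (ZFSet.range (fun k => cs (E k))) ⟨?_, ?_, ?_⟩
    · obtain ⟨A, hA, hA'⟩ := hh
      rw [tr_fil (F := F) (by simpa using hw) (by simpa using hI)] at hA
      simp only [sz_nw] at hA
      refine ⟨dc A, hA.2, ?_⟩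
      intro k i hi j hj
      exact num_inj.1 (hA' (cs (E k)) (ZFSet.mem_range_self k) (num i) (num_mem_cs.2 hi.2)
        (num j) (num_mem_cs.2 hj.2) ⟨hi.1, hj.1⟩)
    · intro x hx
      obtain ⟨k, rfl⟩ := ZFSet.mem_range.1 hx
      simpa using ⟨cs_sub _, hfin k⟩
    · intro m
      have : m ∈ ⋃ k, E k := by rw [hun]; trivial
      obtain ⟨k, hk⟩ := Set.mem_iUnion.1 this
      exact ⟨cs (E k), ZFSet.mem_range_self k, num_mem_cs.2 hk⟩
    · intro x hx y hy
      obtain ⟨k, rfl⟩ := ZFSet.mem_range.1 hx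
      obtain ⟨l, rfl⟩ := ZFSet.mem_range.1 hy
      rintro ⟨m, hm, hm'⟩
      by_cases hkl : k = l
      · rw [hkl]
      · exact absurd (num_mem_cs.1 hm') (Set.disjoint_left.1 (hdis k l hkl) (num_mem_cs.1 hm))
  · rintro h E ⟨h1, h2, h3⟩
    choose c hc hc' using h2
    have hfin : ∀ k, {m | num m ∈ c k ∧ ∀ i, num i ∈ c k → k ≤ i}.Finite := fun k =>
      ((h1 _ (hc k)).2).subset fun m hm => hm.1
    have hh := h (fun k => {m | num m ∈ c k ∧ ∀ i, num i ∈ c k → k ≤ i}) hfin ?_ ?_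
    · obtain ⟨A, hA, hA'⟩ := hh
      refine ⟨cs A, ?_, ?_⟩
      · rw [tr_fil (F := F) (by simpa using hw) (by simpa using hI)]
        simpa using ⟨cs_sub A, hA⟩
      · intro u hu x hx y hy hxy
        obtain ⟨i, hi, rfl⟩ := mem_cs.1 hxy.1
        obtain ⟨j, hj, rfl⟩ := mem_cs.1 hxy.2
        have hex : ∃ k, num k ∈ u := ⟨i, hx⟩
        classical
        have hk := Nat.find_spec hex
        have hmin := fun m (hm : num m ∈ u) => Nat.find_min' hex hm
        set k := Nat.find hex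
        have hck : c k = u := h3 _ (hc k) u hu ⟨k, hc' k, hk⟩
        have h4 := hA' k (x := i) ⟨hi, by
          rw [Set.mem_ofPred_eq, hck]; exact ⟨hx, fun m hm => hmin m hm⟩⟩ (y := j) ⟨hj, by
          rw [Set.mem_ofPred_eq, hck]; exact ⟨hy, fun m hm => hmin m hm⟩⟩
        rw [h4]
    · intro k l hkl
      rw [Set.disjoint_left]
      rintro m ⟨hm, hm1⟩ ⟨hm', hm2⟩
      have h4 : c k = c l := h3 _ (hc k) _ (hc l) ⟨m, hm, hm'⟩
      exact hkl (le_antisymm (hm1 l (h4 ▸ hc' l)) (hm2 k (h4 ▸ hc' k)))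
    · ext m
      simp only [Set.mem_iUnion, Set.mem_univ, iff_true]
      have hex : ∃ k, num k ∈ c m := ⟨m, hc' m⟩
      classical
      have hk := Nat.find_spec hex
      have hmin := fun i (hi : num i ∈ c m) => Nat.find_min' hex hi
      set k := Nat.find hex
      have hck : c k = c m := h3 _ (hc k) _ (hc m) ⟨k, hc' k, hk⟩
      refine ⟨k, ?_⟩
      rw [Set.mem_ofPred_eq, hck]
      exact ⟨hc' m, fun i hi => hmin i hi⟩

theorem tr_sel {w I : Fin n} {F : Set (Set ℕ)} (hw : xs w = om) (hI : xs I = cf F) :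
    Tr (fSel w I) v xs ↔ IsSelective F := by
  rw [fSel, tr_and, tr_and, tr_and, tr_indep hw hI, tr_dmax hw hI, tr_pset hw hI, tr_qset hw hI,
    and_assoc]
  rfl

end Formulas

/-- In the universe of sets, `selectiveSentence` says that there is a selective independent
family. -/
theorem realize_selective :
    ZFSet.{0} ⊨ selectiveSentence ↔ ∃ F : Set (Set ℕ), IsSelective F := by
  have h : ZFSet.{0} ⊨ selectiveSentence ↔ Tr selectiveSentence default default := Iff.rfl
  rw [h, selectiveSentence, tr_ex]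
  constructor
  · rintro ⟨w, hw⟩
    rw [tr_ex] at hw
    obtain ⟨I, hI⟩ := hw
    rw [tr_and, tr_omega] at hI
    obtain ⟨hw, hI⟩ := hI
    simp only [sz_up, sz_nw] at hw
    have hsub : ∀ y ∈ I, y ⊆ om := by
      intro y hy
      have h1 : Tr (fIndep (up nw : Fin 2) nw) default (sz (sz default w) I) := by
        rw [fSel, tr_and, tr_and] at hI
        exact hI.1.1
      rw [fIndep, tr_and, tr_ball] at h1
      have h2 := h1.1 y (by simpa using hy)
      rw [tr_infSub (by simpa using hw)] at h2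
      simpa using h2.1
    refine ⟨df I, ?_⟩
    exact (tr_sel (w := up nw) (I := nw) (F := df I) (by simpa using hw)
      (by simpa using (cf_df hsub).symm)).1 hI
  · rintro ⟨F, hF⟩
    refine ⟨om, ?_⟩
    rw [tr_ex]
    refine ⟨cf F, ?_⟩
    rw [tr_and, tr_omega]
    exact ⟨by simp, (tr_sel (by simp) (by simp)).2 hF⟩

/-! ### Forcing with the trivial poset -/

/-- The value of a name for the trivial poset. -/
noncomputable def val : Name Unit → ZFSet.{0}
  | .mk ι x _ => ZFSet.range (fun i : ι => val (x i))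

theorem val_mk (ι : Type) (x : ι → Name Unit) (c : ι → Unit) :
    val (.mk ι x c) = ZFSet.range (fun i : ι => val (x i)) := rfl

theorem val_surjective : Function.Surjective val := by
  intro y
  induction y using ZFSet.inductionOn with
  | _ y ih =>
    have : Nonempty (Name Unit) := ⟨.mk Empty (fun e => Empty.elim e) (fun _ => ())⟩
    choose! g hg using ih
    have hsm : Small.{0} {z // z ∈ y} := ZFSet.small_coe y
    refine ⟨.mk (Shrink.{0} {z // z ∈ y}) (fun i => g ((equivShrink _).symm i).1) (fun _ => ()), ?_⟩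
    rw [val_mk]
    ext z
    rw [ZFSet.mem_range]
    constructor
    · rintro ⟨i, rfl⟩
      rw [hg _ ((equivShrink _).symm i).2]
      exact ((equivShrink _).symm i).2
    · intro hz
      refine ⟨equivShrink _ ⟨z, hz⟩, ?_⟩
      rw [Equiv.symm_apply_apply]
      exact hg z hz

theorem forcesEq_unit {x y : Name Unit} : ForcesEq x y () ↔ val x = val y := by
  induction x generalizing y with
  | mk ι x a ih =>
    obtain ⟨κ, y, b⟩ := y
    rw [val_mk, val_mk, ZFSet.ext_iff]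
    constructor
    · rintro ⟨h1, h2⟩ z
      rw [ZFSet.mem_range, ZFSet.mem_range]
      constructor
      · rintro ⟨i, rfl⟩
        obtain ⟨_, _, j, _, h⟩ := h1 i () le_rfl le_rfl
        exact ⟨j, ((ih i).1 h).symm⟩
      · rintro ⟨j, rfl⟩
        obtain ⟨_, _, i, _, h⟩ := h2 j () le_rfl le_rfl
        exact ⟨i, (ih i).1 h⟩
    · intro h
      constructor
      · intro i _ _ _
        obtain ⟨j, hj⟩ := ZFSet.mem_range.1 ((h _).1 (ZFSet.mem_range_self i))
        exact ⟨(), le_rfl, j, le_rfl, (ih i).2 hj.symm⟩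
      · intro j _ _ _
        obtain ⟨i, hi⟩ := ZFSet.mem_range.1 ((h _).2 (ZFSet.mem_range_self j))
        exact ⟨(), le_rfl, i, le_rfl, (ih i).2 hi⟩

theorem forcesMem_unit {x y : Name Unit} : ForcesMem x y () ↔ val x ∈ val y := by
  obtain ⟨κ, y, b⟩ := y
  rw [val_mk, ZFSet.mem_range]
  constructor
  · intro h
    obtain ⟨_, _, j, _, h⟩ := h () le_rfl
    exact ⟨j, (forcesEq_unit.1 h).symm⟩
  · rintro ⟨j, hj⟩ _ _
    exact ⟨(), le_rfl, j, le_rfl, forcesEq_unit.2 hj.symm⟩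

theorem val_tval {α : Type} {n : ℕ} (v : α → Name Unit) (xs : Fin n → Name Unit)
    (t : LSet.Term (α ⊕ Fin n)) :
    val (tval v xs t) = t.realize (Sum.elim (val ∘ v) (val ∘ xs)) := by
  cases t with
  | var a =>
    cases a with
    | inl a => rfl
    | inr i => rfl
  | func f _ => exact Empty.elim f

/-- For the trivial poset, the forcing relation is truth in the universe of sets. -/
theorem forces_unit_iff {α : Type} {n : ℕ} (φ : LSet.BoundedFormula α n) (v : α → Name Unit)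
    (xs : Fin n → Name Unit) : Forces φ v xs () ↔ φ.Realize (val ∘ v) (val ∘ xs) := by
  induction φ with
  | falsum => exact Iff.rfl
  | equal t₁ t₂ =>
    show ForcesEq _ _ _ ↔ _ = _
    rw [forcesEq_unit, val_tval, val_tval]
  | rel R ts =>
    cases R with
    | mem =>
      show ForcesMem _ _ _ ↔ _
      rw [forcesMem_unit, val_tval, val_tval]
      rfl
  | imp φ ψ ih1 ih2 =>
    constructor
    · intro h h1
      exact (ih2 xs).1 (h () le_rfl ((ih1 xs).2 h1))
    · intro h _ _ h1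
      exact (ih2 xs).2 (h ((ih1 xs).1 h1))
  | all φ ih =>
    have hs : ∀ x : Name Unit, val ∘ (Fin.snoc xs x : Fin _ → Name Unit) =
        Fin.snoc (val ∘ xs) (val x) := by
      intro x
      funext i
      refine Fin.lastCases ?_ (fun i => ?_) i
      · simp
      · simp
    constructor
    · intro h z
      obtain ⟨x, rfl⟩ := val_surjective z
      rw [← hs x]
      exact (ih _).1 (h x)
    · intro h x
      refine (ih _).2 ?_
      rw [hs x]
      exact h (val x)

/-- For the trivial poset, `selectiveSentence` is forced iff there is a selective independent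
family. -/
theorem forces_unit_selective (v : Empty → Name Unit) (xs : Fin 0 → Name Unit) :
    Forces selectiveSentence v xs () ↔ ∃ F : Set (Set ℕ), IsSelective F := by
  rw [forces_unit_iff, ← realize_selective]
  rw [Sentence.Realize, Formula.Realize]
  rw [Subsingleton.elim (val ∘ v) default, Subsingleton.elim (val ∘ xs) default]
  exact Iff.rfl

end Pool.Agent.helper60.Adequacy
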